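import Mathlib

/-!
Row Al. (about 200 lines): the local algebra of the duality theorem (finite types, everything over ZMod 2).
 A = (alpha -> F x F) x (beta -> F) x (rho -> F), F = ZMod 2; bl k a b = a.1 b.2 + b.1 a.2 + a.1 b.1 k. BB k : the bilinear form sum over alpha of bl (k v) (x v) (y v) + sum over beta x v y v + sum over rho x w y w (LinearMap.mk₂).
 t v in Fin 3 is the type of v in alpha. Wt: x in W iff for all v: (t v = 0 -> bl (k v) (x v) (g v) = 0), (t v = 1 -> x v = 0), x = 0 on beta, and x = 0 on rho if tau = false. W't: y in W' iff for all v: (t v = 0 -> y v = 0 or y v = g v), (t v = 2 -> y v = 0), and y = 0 on rho if tau = true.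
 W' is a submodule: {0, g} is closed under addition.
 al_nondeg: test with Pi.single. For F x F: bl k x y = 0 for all y implies x = 0 (decide over all x, k: y = (0,1) gives x.1 = 0, then y = (1,0) gives x.2 = 0).
 al_ann: y in W' iff BB x y = 0 for all x in W. One v at a time: x = Pi.single v x0 with x0 in the local condition; facts by decide: for g <> 0: (for all x0 with bl k x0 g = 0: bl k x0 y = 0) iff y = 0 or y = g. For t v = 1 no condition; t v = 2: all x0, so y v = 0. beta: no condition as x = 0 there. rho: as said.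
 al_card: W is in bijection with the product over v of the local conditions (cardinalities 2, 1, 4; decide for 2) times (rho -> F) or a point: Nat.card of a Pi type is the product (Nat.card_pi), product over alpha by type: Finset.prod_pow / card filter.
-/

set_option autoImplicit false

namespace H24TD

/-- The local pairing. -/
def bl (k : ZMod 2) (a b : ZMod 2 × ZMod 2) : ZMod 2 := a.1 * b.2 + b.1 * a.2 + a.1 * b.1 * k

/-- The space of local conditions. -/
abbrev AA (α β ρ : Type) : Type :=
  (α → ZMod 2 × ZMod 2) × (β → ZMod 2) × (ρ → ZMod 2)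

section

variable {α β ρ : Type} [Fintype α] [Fintype β] [Fintype ρ]

/-- The global pairing. -/
def BB (k : α → ZMod 2) : AA α β ρ →ₗ[ZMod 2] AA α β ρ →ₗ[ZMod 2] ZMod 2 :=
  LinearMap.mk₂ (ZMod 2)
    (fun x y => ∑ v, bl (k v) (x.1 v) (y.1 v) + (∑ v, x.2.1 v * y.2.1 v) + ∑ w, x.2.2 w * y.2.2 w)
    (by
      intro x x' y
      simp only [bl, Prod.fst_add, Prod.snd_add, Pi.add_apply, add_mul, mul_add,
        Finset.sum_add_distrib]
      ring)
    (by
      intro c x y
      simp only [bl, Prod.smul_fst, Prod.smul_snd, Pi.smul_apply, smul_eq_mul, mul_add,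
        Finset.mul_sum]
      congr 1
      · congr 1
        · refine Finset.sum_congr rfl fun v _ => ?_
          ring
        · refine Finset.sum_congr rfl fun v _ => ?_
          ring
      · refine Finset.sum_congr rfl fun v _ => ?_
        ring)
    (by
      intro x y y'
      simp only [bl, Prod.fst_add, Prod.snd_add, Pi.add_apply, add_mul, mul_add,
        Finset.sum_add_distrib]
      ring)
    (by
      intro c x y
      simp only [bl, Prod.smul_fst, Prod.smul_snd, Pi.smul_apply, smul_eq_mul, mul_add,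
        Finset.mul_sum]
      congr 1
      · congr 1
        · refine Finset.sum_congr rfl fun v _ => ?_
          ring
        · refine Finset.sum_congr rfl fun v _ => ?_
          ring
      · refine Finset.sum_congr rfl fun v _ => ?_
        ring)

lemma BB_apply (k : α → ZMod 2) (x y : AA α β ρ) : BB k x y =
    ∑ v, bl (k v) (x.1 v) (y.1 v) + (∑ v, x.2.1 v * y.2.1 v) + ∑ w, x.2.2 w * y.2.2 w := rfl

/-- The local conditions. -/
def Wt (β ρ : Type) (k : α → ZMod 2) (g : α → ZMod 2 × ZMod 2) (t : α → Fin 3) (τ : Bool) :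
    Submodule (ZMod 2) (AA α β ρ) where
  carrier := {x | (∀ v, t v = 0 → bl (k v) (x.1 v) (g v) = 0) ∧ (∀ v, t v = 1 → x.1 v = 0) ∧
    (∀ v, x.2.1 v = 0) ∧ (τ = false → ∀ w, x.2.2 w = 0)}
  zero_mem' := by
    refine ⟨fun v _ => ?_, fun v _ => rfl, fun v => rfl, fun _ w => rfl⟩
    simp [bl]
  add_mem' := by
    rintro x y ⟨h1, h2, h3, h4⟩ ⟨h1', h2', h3', h4'⟩
    refine ⟨fun v hv => ?_, fun v hv => ?_, fun v => ?_, fun hτ w => ?_⟩
    · have e1 := h1 v hv
      have e2 := h1' v hv
      simp only [bl, Prod.fst_add, Prod.snd_add, Pi.add_apply] at e1 e2 ⊢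
      linear_combination e1 + e2
    · change x.1 v + y.1 v = 0
      rw [h2 v hv, h2' v hv, add_zero]
    · change x.2.1 v + y.2.1 v = 0
      rw [h3 v, h3' v, add_zero]
    · change x.2.2 w + y.2.2 w = 0
      rw [h4 hτ w, h4' hτ w, add_zero]
  smul_mem' := by
    rintro c x ⟨h1, h2, h3, h4⟩
    refine ⟨fun v hv => ?_, fun v hv => ?_, fun v => ?_, fun hτ w => ?_⟩
    · have e1 := h1 v hv
      simp only [bl, Prod.smul_fst, Prod.smul_snd, Pi.smul_apply, smul_eq_mul] at e1 ⊢
      linear_combination c * e1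
    · change c • x.1 v = 0
      rw [h2 v hv, smul_zero]
    · change c • x.2.1 v = 0
      rw [h3 v, smul_zero]
    · change c • x.2.2 w = 0
      rw [h4 hτ w, smul_zero]

lemma mem_Wt {k : α → ZMod 2} {g : α → ZMod 2 × ZMod 2} {t : α → Fin 3} {τ : Bool}
    {x : AA α β ρ} : x ∈ Wt β ρ k g t τ ↔ (∀ v, t v = 0 → bl (k v) (x.1 v) (g v) = 0) ∧
      (∀ v, t v = 1 → x.1 v = 0) ∧ (∀ v, x.2.1 v = 0) ∧ (τ = false → ∀ w, x.2.2 w = 0) := Iff.rfl

theorem Al_sym (k : ZMod 2) (a b : ZMod 2 × ZMod 2) : bl k a b = bl k b a := by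
  unfold bl
  ring

theorem Al_zero (k : ZMod 2) (b : ZMod 2 × ZMod 2) : bl k 0 b = 0 := by
  simp [bl]

theorem Al_d1 : ∀ (k : ZMod 2) (x : ZMod 2 × ZMod 2), (∀ y : ZMod 2 × ZMod 2, bl k x y = 0) → x = 0 := by
  decide

theorem Al_d2 : ∀ (k : ZMod 2) (g y : ZMod 2 × ZMod 2), g ≠ 0 →
    (∀ x : ZMod 2 × ZMod 2, bl k x g = 0 → bl k x y = 0) → (y = 0 ∨ y = g) := by
  decide

theorem Al_d3 : ∀ (k : ZMod 2) (g x y : ZMod 2 × ZMod 2), bl k x g = 0 → (y = 0 ∨ y = g) → bl k x y = 0 := by
  decide

theorem Al_d4 : ∀ (g y z : ZMod 2 × ZMod 2), (y = 0 ∨ y = g) → (z = 0 ∨ z = g) → (y + z = 0 ∨ y + z = g) := by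
  decide

theorem Al_d5 : ∀ (c : ZMod 2) (g y : ZMod 2 × ZMod 2), (y = 0 ∨ y = g) → (c • y = 0 ∨ c • y = g) := by
  decide

theorem Al_d6 : ∀ (k : ZMod 2) (g : ZMod 2 × ZMod 2), g ≠ 0 →
    (Finset.univ.filter (fun x : ZMod 2 × ZMod 2 => bl k x g = 0)).card = 2 := by
  decide

theorem Al_a [DecidableEq α] (k : α → ZMod 2) (v : α) (x0 : ZMod 2 × ZMod 2) (y : AA α β ρ) :
    BB k ((Pi.single v x0, 0, 0) : AA α β ρ) y = bl (k v) x0 (y.1 v) := by
  rw [BB_apply]
  have h1 : ∑ u, bl (k u) ((Pi.single v x0 : α → ZMod 2 × ZMod 2) u) (y.1 u) = bl (k v) x0 (y.1 v) := by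
    rw [Finset.sum_eq_single v]
    · rw [Pi.single_eq_same]
    · intro u _ hu
      rw [Pi.single_eq_of_ne hu, Al_zero]
    · intro h
      exact absurd (Finset.mem_univ v) h
  simp only [h1, Pi.zero_apply, zero_mul, Finset.sum_const_zero, add_zero]

theorem Al_b [DecidableEq β] (k : α → ZMod 2) (v : β) (y : AA α β ρ) :
    BB k ((0, Pi.single v 1, 0) : AA α β ρ) y = y.2.1 v := by
  rw [BB_apply]
  have h1 : ∑ u, (Pi.single v 1 : β → ZMod 2) u * y.2.1 u = y.2.1 v := by
    rw [Finset.sum_eq_single v]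
    · rw [Pi.single_eq_same, one_mul]
    · intro u _ hu
      rw [Pi.single_eq_of_ne hu, zero_mul]
    · intro h
      exact absurd (Finset.mem_univ v) h
  simp only [h1, Pi.zero_apply, zero_mul, Finset.sum_const_zero, add_zero, Al_zero, zero_add]

theorem Al_r [DecidableEq ρ] (k : α → ZMod 2) (v : ρ) (y : AA α β ρ) :
    BB k ((0, 0, Pi.single v 1) : AA α β ρ) y = y.2.2 v := by
  rw [BB_apply]
  have h1 : ∑ u, (Pi.single v 1 : ρ → ZMod 2) u * y.2.2 u = y.2.2 v := by
    rw [Finset.sum_eq_single v]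
    · rw [Pi.single_eq_same, one_mul]
    · intro u _ hu
      rw [Pi.single_eq_of_ne hu, zero_mul]
    · intro h
      exact absurd (Finset.mem_univ v) h
  simp only [h1, Pi.zero_apply, zero_mul, Finset.sum_const_zero, add_zero, Al_zero, zero_add]

theorem Al_comm (k : α → ZMod 2) (x y : AA α β ρ) : BB k x y = BB k y x := by
  rw [BB_apply, BB_apply]
  congr 1
  · congr 1
    · exact Finset.sum_congr rfl fun v _ => Al_sym _ _ _
    · exact Finset.sum_congr rfl fun v _ => mul_comm _ _
  · exact Finset.sum_congr rfl fun v _ => mul_comm _ _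

theorem al_nondeg (k : α → ZMod 2) (x : AA α β ρ) (h : ∀ y, BB k x y = 0) : x = 0 := by
  classical
  have h' : ∀ y, BB k y x = 0 := fun y => by rw [Al_comm, h]
  have h1 : ∀ v, x.1 v = 0 := by
    intro v
    apply Al_d1 (k v)
    intro y0
    rw [Al_sym]
    have := h' ((Pi.single v y0, 0, 0) : AA α β ρ)
    rwa [Al_a] at this
  have h2 : ∀ v, x.2.1 v = 0 := by
    intro v
    have := h' ((0, Pi.single v 1, 0) : AA α β ρ)
    rwa [Al_b] at this
  have h3 : ∀ v, x.2.2 v = 0 := by
    intro v
    have := h' ((0, 0, Pi.single v 1) : AA α β ρ)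
    rwa [Al_r] at this
  exact Prod.ext (funext h1) (Prod.ext (funext h2) (funext h3))

theorem al_ann (k : α → ZMod 2) (g : α → ZMod 2 × ZMod 2) (t : α → Fin 3)
    (hg : ∀ v, t v = 0 → g v ≠ 0) (τ : Bool) : ∃ W' : Submodule (ZMod 2) (AA α β ρ),
      (∀ y, y ∈ W' ↔ (∀ v, t v = 0 → y.1 v = 0 ∨ y.1 v = g v) ∧ (∀ v, t v = 2 → y.1 v = 0) ∧
        (τ = true → ∀ w, y.2.2 w = 0)) ∧
      ∀ y, y ∈ W' ↔ ∀ x ∈ Wt β ρ k g t τ, BB k x y = 0 := by
  classical
  refine ⟨{ carrier := {y | (∀ v, t v = 0 → y.1 v = 0 ∨ y.1 v = g v) ∧ (∀ v, t v = 2 → y.1 v = 0) ∧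
        (τ = true → ∀ w, y.2.2 w = 0)}
            zero_mem' := ?_
            add_mem' := ?_
            smul_mem' := ?_ }, fun y => Iff.rfl, ?_⟩
  · rintro x y ⟨h1, h2, h3⟩ ⟨h1', h2', h3'⟩
    refine ⟨fun v hv => ?_, fun v hv => ?_, fun hτ w => ?_⟩
    · exact Al_d4 (g v) (x.1 v) (y.1 v) (h1 v hv) (h1' v hv)
    · change x.1 v + y.1 v = 0
      rw [h2 v hv, h2' v hv, add_zero]
    · change x.2.2 w + y.2.2 w = 0
      rw [h3 hτ w, h3' hτ w, add_zero]
  · exact ⟨fun v _ => Or.inl rfl, fun v _ => rfl, fun _ w => rfl⟩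
  · rintro c x ⟨h1, h2, h3⟩
    refine ⟨fun v hv => ?_, fun v hv => ?_, fun hτ w => ?_⟩
    · exact Al_d5 c (g v) (x.1 v) (h1 v hv)
    · change c • x.1 v = 0
      rw [h2 v hv, smul_zero]
    · change c • x.2.2 w = 0
      rw [h3 hτ w, smul_zero]
  · intro y
    constructor
    · rintro ⟨h1, h2, h3⟩ x hx
      obtain ⟨g1, g2, g3, g4⟩ := mem_Wt.1 hx
      rw [BB_apply]
      have e1 : ∑ v, bl (k v) (x.1 v) (y.1 v) = 0 := by
        apply Finset.sum_eq_zero
        intro v _
        have h5 : t v = 0 ∨ t v = 1 ∨ t v = 2 := by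
          generalize t v = i
          revert i
          decide
        rcases h5 with h5 | h5 | h5
        · exact Al_d3 (k v) (g v) (x.1 v) (y.1 v) (g1 v h5) (h1 v h5)
        · rw [g2 v h5, Al_zero]
        · rw [h2 v h5, Al_sym, Al_zero]
      have e2 : ∑ v, x.2.1 v * y.2.1 v = 0 := by
        apply Finset.sum_eq_zero
        intro v _
        rw [g3 v, zero_mul]
      have e3 : ∑ w, x.2.2 w * y.2.2 w = 0 := by
        apply Finset.sum_eq_zero
        intro w _
        cases τ with
        | false => rw [g4 rfl w, zero_mul]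
        | true => rw [h3 rfl w, mul_zero]
      rw [e1, e2, e3, add_zero, add_zero]
    · intro h
      refine ⟨fun v hv => ?_, fun v hv => ?_, fun hτ w => ?_⟩
      · apply Al_d2 (k v) (g v) (y.1 v) (hg v hv)
        intro x0 hx0
        have hm : ((Pi.single v x0, 0, 0) : AA α β ρ) ∈ Wt β ρ k g t τ := by
          refine mem_Wt.2 ⟨fun u hu => ?_, fun u hu => ?_, fun u => rfl, fun _ u => rfl⟩
          · by_cases huv : u = v
            · subst huv
              change bl (k u) ((Pi.single u x0 : α → ZMod 2 × ZMod 2) u) (g u) = 0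
              rw [Pi.single_eq_same]
              exact hx0
            · change bl (k u) ((Pi.single v x0 : α → ZMod 2 × ZMod 2) u) (g u) = 0
              rw [Pi.single_eq_of_ne huv, Al_zero]
          · have huv : u ≠ v := by
              rintro rfl
              rw [hv] at hu
              exact absurd hu (by decide)
            exact Pi.single_eq_of_ne huv _
        have := h _ hm
        rwa [Al_a] at this
      · apply Al_d1 (k v)
        intro x0
        rw [Al_sym]
        have hm : ((Pi.single v x0, 0, 0) : AA α β ρ) ∈ Wt β ρ k g t τ := by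
          refine mem_Wt.2 ⟨fun u hu => ?_, fun u hu => ?_, fun u => rfl, fun _ u => rfl⟩
          · have huv : u ≠ v := by
              rintro rfl
              rw [hv] at hu
              exact absurd hu (by decide)
            change bl (k u) ((Pi.single v x0 : α → ZMod 2 × ZMod 2) u) (g u) = 0
            rw [Pi.single_eq_of_ne huv, Al_zero]
          · have huv : u ≠ v := by
              rintro rfl
              rw [hv] at hu
              exact absurd hu (by decide)
            exact Pi.single_eq_of_ne huv _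
        have := h _ hm
        rwa [Al_a] at this
      · have hm : ((0, 0, Pi.single w 1) : AA α β ρ) ∈ Wt β ρ k g t τ := by
          refine mem_Wt.2 ⟨fun u hu => ?_, fun u hu => rfl, fun u => rfl, fun hf u => ?_⟩
          · exact Al_zero _ _
          · rw [hτ] at hf
            exact absurd hf (by decide)
        have := h _ hm
        rwa [Al_r] at this

theorem Al_equiv (k : α → ZMod 2) (g : α → ZMod 2 × ZMod 2) (t : α → Fin 3) (τ : Bool) :
    Nonempty ((Wt β ρ k g t τ) ≃
      (∀ v : α, {x0 : ZMod 2 × ZMod 2 // (t v = 0 → bl (k v) x0 (g v) = 0) ∧ (t v = 1 → x0 = 0)}) ×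
      {w : ρ → ZMod 2 // τ = false → ∀ u, w u = 0}) := by
  refine ⟨⟨fun x => (fun v => ⟨x.1.1 v, (mem_Wt.1 x.2).1 v, (mem_Wt.1 x.2).2.1 v⟩,
    ⟨x.1.2.2, (mem_Wt.1 x.2).2.2.2⟩),
    fun p => ⟨(fun v => (p.1 v).1, fun _ => 0, p.2.1), mem_Wt.2 ⟨fun v => (p.1 v).2.1, fun v => (p.1 v).2.2,
      fun _ => rfl, p.2.2⟩⟩, ?_, ?_⟩⟩
  · intro x
    apply Subtype.ext
    refine Prod.ext rfl (Prod.ext ?_ rfl)
    funext v
    exact ((mem_Wt.1 x.2).2.2.1 v).symm
  · intro p
    rfl

theorem al_card (k : α → ZMod 2) (g : α → ZMod 2 × ZMod 2) (t : α → Fin 3)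
    (hg : ∀ v, t v = 0 → g v ≠ 0) (τ : Bool) :
    Nat.card (Wt β ρ k g t τ) = 2 ^ (Finset.univ.filter fun v => t v = 0).card *
      4 ^ (Finset.univ.filter fun v => t v = 2).card *
      (if τ = true then 2 ^ Fintype.card ρ else 1) := by
  classical
  obtain ⟨e⟩ := Al_equiv (β := β) (ρ := ρ) k g t τ
  rw [Nat.card_congr e, Nat.card_prod, Nat.card_pi]
  congr 1
  · have h1 : ∀ v : α, Nat.card {x0 : ZMod 2 × ZMod 2 // (t v = 0 → bl (k v) x0 (g v) = 0) ∧
        (t v = 1 → x0 = 0)} = (if t v = 0 then 2 else 1) * (if t v = 2 then 4 else 1) := by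
      intro v
      have h5 : t v = 0 ∨ t v = 1 ∨ t v = 2 := by
        generalize t v = i
        revert i
        decide
      rw [Nat.card_eq_fintype_card, Fintype.card_subtype]
      rcases h5 with h5 | h5 | h5
      · have h6 : (Finset.univ.filter fun x0 : ZMod 2 × ZMod 2 => (t v = 0 → bl (k v) x0 (g v) = 0) ∧
            (t v = 1 → x0 = 0)) = Finset.univ.filter (fun x0 : ZMod 2 × ZMod 2 => bl (k v) x0 (g v) = 0) := by
          apply Finset.filter_congr
          intro x0 _
          constructor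
          · intro h
            exact h.1 h5
          · intro h
            refine ⟨fun _ => h, fun h7 => ?_⟩
            rw [h5] at h7
            exact absurd h7 (by decide)
        rw [h6, Al_d6 (k v) (g v) (hg v h5), h5]
        rfl
      · have h6 : (Finset.univ.filter fun x0 : ZMod 2 × ZMod 2 => (t v = 0 → bl (k v) x0 (g v) = 0) ∧
            (t v = 1 → x0 = 0)) = {0} := by
          ext x0
          rw [Finset.mem_filter, Finset.mem_singleton]
          constructor
          · intro h
            exact h.2.2 h5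
          · intro h
            refine ⟨Finset.mem_univ _, fun h7 => ?_, fun _ => h⟩
            rw [h5] at h7
            exact absurd h7 (by decide)
        rw [h6, h5]
        rfl
      · have h6 : (Finset.univ.filter fun x0 : ZMod 2 × ZMod 2 => (t v = 0 → bl (k v) x0 (g v) = 0) ∧
            (t v = 1 → x0 = 0)) = Finset.univ := by
          apply Finset.filter_true_of_mem
          intro x0 _
          rw [h5]
          exact ⟨fun h7 => absurd h7 (by decide), fun h7 => absurd h7 (by decide)⟩
        rw [h6, h5]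
        rfl
    rw [Finset.prod_congr rfl fun v _ => h1 v, Finset.prod_mul_distrib, Finset.prod_ite, Finset.prod_ite]
    simp only [Finset.prod_const, Finset.prod_const_one, one_pow, mul_one]
  · cases τ with
    | true =>
      rw [if_pos rfl]
      have h7 : Nat.card {w : ρ → ZMod 2 // true = false → ∀ u, w u = 0} = Nat.card (ρ → ZMod 2) := by
        apply Nat.card_congr
        exact ⟨fun x => x.1, fun w => ⟨w, fun h => absurd h (by decide)⟩, fun x => rfl, fun x => rfl⟩
      rw [h7, Nat.card_pi]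
      simp only [Nat.card_zmod, Finset.prod_const, Finset.card_univ]
    | false =>
      rw [if_neg (by decide)]
      have : Unique {w : ρ → ZMod 2 // false = false → ∀ u, w u = 0} :=
        ⟨⟨⟨fun _ => 0, fun _ _ => rfl⟩⟩, fun x => Subtype.ext (funext fun u => x.2 rfl u)⟩
      exact Nat.card_unique

theorem al_cardA : Nat.card (AA α β ρ) =
    4 ^ Fintype.card α * 2 ^ Fintype.card β * 2 ^ Fintype.card ρ := by
  rw [Nat.card_prod, Nat.card_prod, Nat.card_pi, Nat.card_pi, Nat.card_pi]
  simp only [Nat.card_zmod, Nat.card_prod, Finset.prod_const, Finset.card_univ]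
  ring

end

end H24TD
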