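import Pool.Agent.H24.TD.Df

/-!
Row Iso. (about 110 lines): an equivariant homomorphism u : X -> Y with u(A) <= A', A' <= B' + u(A), and (u a in B' iff a in B) for a in A induces an isomorphism A/B = A'/B', so the numbers of equivariant homomorphisms agree.
 The map Hq A B -> Hq A' B': f |-> f', where f' m := class of u a for any a in A with f m = mk a: well defined (a - a' in B for a, a' in A implies u a - u a' in B'), additive. Concretely: the additive map A -> X / B has kernel B inf A; define theta : A.map (mk' B) ->+ Y / B'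
 by QuotientAddGroup.lift or by choice (a := choose), theta (mk a) = mk (u a). theta is injective and its range is A'.map (mk' B') (A' <= B' + u(A), u(A) <= A'). It is equivariant in the sense of the second condition of Hq:
 if f' (m) = mk y (y in Y), f m = mk a, then y - u a in B', g y - g (u a) in B' (B' stable), g (u a) = u (g a), f (g m) = mk (g a) (second condition for f with x = a), g a in A (stable), so f' (g m) = mk (u (g a)) = mk (g y).
 Inverse: f' in Hq A' B': f m := theta^-1 (f' m); condition two: f m = mk x with x in X: then x - a in B for the chosen a in A, g x - g a in B (B stable), and f' m = mk (u a), f' (g m) = mk (g (u a)) = mk (u (g a)), so f (g m) = mk (g a) = mk (g x).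
 Conclude with Nat.card_congr (an Equiv between the two sets).
-/

set_option autoImplicit false

namespace H24TD

theorem hq_iso_mk {X : Type*} [AddCommGroup X] (B : AddSubgroup X) (a b : X) :
    (a : X ⧸ B) = (b : X ⧸ B) ↔ b - a ∈ B := by
  rw [QuotientAddGroup.eq, neg_add_eq_sub]

theorem hq_iso {G M X Y : Type*} [Group G] [AddCommGroup X] [DistribMulAction G X]
    [AddCommGroup Y] [DistribMulAction G Y] [AddCommGroup M] [DistribMulAction G M]
    (u : X →+ Y) (hu : ∀ (g : G) x, u (g • x) = g • u x) {A B : AddSubgroup X}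
    {A' B' : AddSubgroup Y} (hA : Stab G A) (hB : Stab G B) (hA' : Stab G A') (hB' : Stab G B')
    (h1 : A.map u ≤ A') (h2 : A' ≤ B' ⊔ A.map u) (h3 : ∀ a ∈ A, (u a ∈ B' ↔ a ∈ B)) :
    hq G M A B = hq G M A' B' := by
  have L0 : ∀ a ∈ A, ∀ b ∈ A, ((a : X ⧸ B) = (b : X ⧸ B) ↔
      ((u a : Y) : Y ⧸ B') = ((u b : Y) : Y ⧸ B')) := by
    intro a ha b hb
    rw [hq_iso_mk, hq_iso_mk, ← map_sub, h3 _ (A.sub_mem hb ha)]
  let R : (M →+ X ⧸ B) → (M →+ Y ⧸ B') → Prop := fun f f' =>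
    ∀ m, ∃ a ∈ A, f m = (a : X ⧸ B) ∧ f' m = ((u a : Y) : Y ⧸ B')
  have U1 : ∀ f f1 f2, R f f1 → R f f2 → f1 = f2 := by
    intro f f1 f2 H1 H2
    ext m
    obtain ⟨a, ha, e1, e2⟩ := H1 m
    obtain ⟨b, hb, e3, e4⟩ := H2 m
    rw [e2, e4, ← L0 a ha b hb, ← e1, e3]
  have U2 : ∀ f1 f2 f, R f1 f → R f2 f → f1 = f2 := by
    intro f1 f2 f H1 H2
    ext m
    obtain ⟨a, ha, e1, e2⟩ := H1 m
    obtain ⟨b, hb, e3, e4⟩ := H2 m
    rw [e1, e3, L0 a ha b hb, ← e2, e4]
  have E1 : ∀ f ∈ Hq G M A B, ∃ f' ∈ Hq G M A' B', R f f' := by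
    rintro f ⟨hf1, hf2⟩
    choose a ha hfa using hf1
    let f' : M →+ Y ⧸ B' := AddMonoidHom.mk' (fun m => ((u (a m) : Y) : Y ⧸ B')) (by
      intro m n
      rw [← QuotientAddGroup.mk_add, ← map_add, ← L0 _ (ha _) _ (A.add_mem (ha _) (ha _)),
        QuotientAddGroup.mk_add, ← hfa, ← hfa, ← hfa, map_add])
    have hf' : ∀ m, f' m = ((u (a m) : Y) : Y ⧸ B') := fun m => rfl
    refine ⟨f', ⟨fun m => ⟨u (a m), h1 ⟨a m, ha m, rfl⟩, hf' m⟩, ?_⟩,
      fun m => ⟨a m, ha m, hfa m, hf' m⟩⟩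
    intro g m y hy
    rw [hf', hq_iso_mk] at hy
    have e1 : ((a (g • m) : X) : X ⧸ B) = ((g • a m : X) : X ⧸ B) := by
      rw [← hfa, hf2 g m (a m) (hfa m)]
    rw [L0 _ (ha _) _ (hA g _ (ha m)), hu] at e1
    rw [hf', e1, hq_iso_mk, ← smul_sub]
    exact hB' g _ hy
  have E2 : ∀ f' ∈ Hq G M A' B', ∃ f ∈ Hq G M A B, R f f' := by
    rintro f' ⟨hf1, hf2⟩
    have hf3 : ∀ m, ∃ a ∈ A, f' m = ((u a : Y) : Y ⧸ B') := by
      intro m
      obtain ⟨a', ha', e⟩ := hf1 m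
      obtain ⟨b, hb, c, hc, hbc⟩ := AddSubgroup.mem_sup.1 (h2 ha')
      obtain ⟨a, ha, rfl⟩ := hc
      refine ⟨a, ha, ?_⟩
      rw [e, hq_iso_mk, ← hbc]
      have : u a - (b + u a) = -b := by abel
      rw [this]
      exact B'.neg_mem hb
    choose a ha hfa using hf3
    let f : M →+ X ⧸ B := AddMonoidHom.mk' (fun m => ((a m : X) : X ⧸ B)) (by
      intro m n
      rw [← QuotientAddGroup.mk_add, L0 _ (ha _) _ (A.add_mem (ha _) (ha _)), map_add,
        QuotientAddGroup.mk_add, ← hfa, ← hfa, ← hfa, map_add])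
    have hf : ∀ m, f m = ((a m : X) : X ⧸ B) := fun m => rfl
    refine ⟨f, ⟨fun m => ⟨a m, ha m, hf m⟩, ?_⟩, fun m => ⟨a m, ha m, hf m, hfa m⟩⟩
    intro g m x hx
    rw [hf, hq_iso_mk] at hx
    have e1 : ((u (a (g • m)) : Y) : Y ⧸ B') = ((u (g • a m) : Y) : Y ⧸ B') := by
      rw [← hfa, hf2 g m (u (a m)) (hfa m), hu]
    rw [← L0 _ (ha _) _ (hA g _ (ha m))] at e1
    rw [hf, e1, hq_iso_mk, ← smul_sub]
    exact hB g _ hx
  unfold hq
  choose F hF hR using E1
  refine Nat.card_congr (Equiv.ofBijective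
    (fun f : ↥(Hq G M A B) => (⟨F f.1 f.2, hF f.1 f.2⟩ : ↥(Hq G M A' B'))) ⟨?_, ?_⟩)
  · intro f1 f2 h
    have h' : F f1.1 f1.2 = F f2.1 f2.2 := congrArg Subtype.val h
    have := hR f1.1 f1.2
    rw [h'] at this
    exact Subtype.ext (U2 _ _ _ this (hR f2.1 f2.2))
  · intro f'
    obtain ⟨f, hf, hr⟩ := E2 f'.1 f'.2
    exact ⟨⟨f, hf⟩, Subtype.ext (U1 _ _ _ (hR f hf) hr)⟩

end H24TD
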