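import Pool.Agent.H24.TD.Mul
import Pool.Agent.H24.TD.Iso

/-!
Row Bas. (about 130 lines): first properties of hq.
 hq_std: Hq A bot is in bijection with the equivariant homomorphisms M -> X with values in A (X / bot = X: QuotientAddGroup.quotientBot or mk' injective). Equiv: f |-> (m |-> the unique x with f m = mk x).
 hq_self: hq A A = 1: f m = mk a = 0, so only the zero map, which satisfies both conditions (if 0 = mk x then x in A, g x in A).
 hq_pos: 0 < hq A B if A/B is finite (hfin: there is a finite set F in X with A <= B + F, here (A.map (mk' B)) finite) and M finite: the set Hq is finite (injects in M -> the finite set A.map (mk' B)) and contains 0.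
 hq_prod: for X x Y: A x A' over B x B' has hq = product (f |-> (fst o f, snd o f); the projections X x Y / (B x B') -> X / B, Y / B'). Or from hq_mul and hq_iso if the group has odd order; direct bijection is fine: for f in Hq A B, f' in Hq A' B' the homomorphism
   m |-> class of (a, a') with f m = mk a, f' m = mk a' (well defined).
 hq_triv: if A has exactly two elements mod B (A = B + {0,a}, a not in B, 2a in B) then the action on A/B is trivial and hq A B is the number of homomorphisms M ->+ ZMod 2 invariant under G: hq A B = hq (top : AddSubgroup (ZMod 2)) bot for the trivial action on ZMod 2.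
   To avoid an instance on ZMod 2 the statement compares two such quotients: A, B in X and A', B' in Y, both of index two (B.relIndex A = 2): hq A B = hq A' B'. Bijection: f |-> f', f' m = 0 iff f m = 0. (g acts trivially on a group with two elements: f (g m) = 0 iff f m = 0.)
-/

set_option autoImplicit false

namespace H24TD

variable {G M X Y : Type*} [Group G] [AddCommGroup X] [DistribMulAction G X]
    [AddCommGroup Y] [DistribMulAction G Y] [AddCommGroup M] [DistribMulAction G M]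

theorem hq_std (A : AddSubgroup X) :
    hq G M A ⊥ = Nat.card {f : M →+ X // (∀ m, f m ∈ A) ∧ ∀ (g : G) m, f (g • m) = g • f m} := by
  have hinj : ∀ x y : X, (x : X ⧸ (⊥ : AddSubgroup X)) = (y : X ⧸ (⊥ : AddSubgroup X)) → x = y := by
    intro x y h
    rw [QuotientAddGroup.eq, AddSubgroup.mem_bot] at h
    exact (neg_add_eq_zero.mp h)
  let e : X ≃+ X ⧸ (⊥ : AddSubgroup X) := AddEquiv.ofBijective
    (QuotientAddGroup.mk' (⊥ : AddSubgroup X)) ⟨fun x y h => hinj x y h,
      QuotientAddGroup.mk'_surjective _⟩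
  have he : ∀ x : X, e x = (x : X ⧸ (⊥ : AddSubgroup X)) := fun _ => rfl
  have he' : ∀ q : X ⧸ (⊥ : AddSubgroup X), ((e.symm q : X) : X ⧸ (⊥ : AddSubgroup X)) = q :=
    fun q => e.apply_symm_apply q
  have he2 : ∀ x : X, e.symm (x : X ⧸ (⊥ : AddSubgroup X)) = x := fun x => e.symm_apply_apply x
  refine Nat.card_congr
    { toFun := fun f => ⟨e.symm.toAddMonoidHom.comp f.1, ?_, ?_⟩
      invFun := fun φ => ⟨e.toAddMonoidHom.comp φ.1, ?_, ?_⟩
      left_inv := fun f => Subtype.ext (AddMonoidHom.ext fun m => e.apply_symm_apply _)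
      right_inv := fun f => Subtype.ext (AddMonoidHom.ext fun m => e.symm_apply_apply _) }
  · intro m
    obtain ⟨a, ha, h⟩ := f.2.1 m
    change e.symm (f.1 m) ∈ A
    rw [h, he2]
    exact ha
  · intro g m
    change e.symm (f.1 (g • m)) = g • e.symm (f.1 m)
    rw [f.2.2 g m (e.symm (f.1 m)) (he' _).symm, he2]
  · intro m
    exact ⟨φ.1 m, φ.2.1 m, rfl⟩
  · intro g m x h
    change e (φ.1 (g • m)) = _
    have h1 : φ.1 m = x := hinj _ _ h
    rw [φ.2.2, h1]
    rfl

theorem Bas_zero_mem {A B : AddSubgroup X} (hB : Stab G B) : (0 : M →+ X ⧸ B) ∈ Hq G M A B := by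
  refine ⟨fun m => ⟨0, A.zero_mem, rfl⟩, fun g m x h => ?_⟩
  have h1 : x ∈ B := (QuotientAddGroup.eq_zero_iff x).mp h.symm
  exact ((QuotientAddGroup.eq_zero_iff (g • x)).mpr (hB g x h1)).symm

theorem hq_self {A : AddSubgroup X} (hA : Stab G A) : hq G M A A = 1 := by
  unfold hq
  rw [Nat.card_eq_one_iff_unique]
  refine ⟨⟨fun f f' => Subtype.ext (AddMonoidHom.ext fun m => ?_)⟩, ⟨⟨0, Bas_zero_mem hA⟩⟩⟩
  obtain ⟨a, ha, h⟩ := f.2.1 m
  obtain ⟨a', ha', h'⟩ := f'.2.1 m
  rw [h, h', (QuotientAddGroup.eq_zero_iff a).mpr ha, (QuotientAddGroup.eq_zero_iff a').mpr ha']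

/-- The homomorphism from `A` to `X / B`. -/
def Bas_phi (A B : AddSubgroup X) : A →+ X ⧸ B := (QuotientAddGroup.mk' B).comp A.subtype

theorem Bas_card (A B : AddSubgroup X) : Nat.card (Bas_phi A B).range = B.relIndex A := by
  rw [← AddSubgroup.index_ker]
  congr 1
  ext a
  rw [AddMonoidHom.mem_ker, AddSubgroup.mem_addSubgroupOf]
  exact QuotientAddGroup.eq_zero_iff (a : X)

theorem Bas_mem {A B : AddSubgroup X} {q : X ⧸ B} :
    q ∈ (Bas_phi A B).range ↔ ∃ a ∈ A, q = (a : X ⧸ B) := by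
  rw [AddMonoidHom.mem_range]
  constructor
  · rintro ⟨a, rfl⟩
    exact ⟨a, a.2, rfl⟩
  · rintro ⟨a, ha, rfl⟩
    exact ⟨⟨a, ha⟩, rfl⟩

theorem hq_pos [Finite M] {A B : AddSubgroup X} (hA : Stab G A) (hB : Stab G B)
    (hfin : B.relIndex A ≠ 0) : 0 < hq G M A B := by
  unfold hq
  have h1 : Finite (Bas_phi A B).range := by
    refine Nat.finite_of_card_ne_zero ?_
    rw [Bas_card]; exact hfin
  have h2 : Finite ↥(Hq G M A B) := by
    refine Finite.of_injective
      (fun f : ↥(Hq G M A B) => fun m : M => (⟨f.1 m, Bas_mem.mpr (f.2.1 m)⟩ : (Bas_phi A B).range))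
      (fun f f' h => Subtype.ext (AddMonoidHom.ext fun m => ?_))
    exact congrArg Subtype.val (congrFun h m)
  have h3 : Nonempty ↥(Hq G M A B) := ⟨⟨0, Bas_zero_mem hB⟩⟩
  exact Nat.card_pos

theorem hq_prod {A B : AddSubgroup X} {A' B' : AddSubgroup Y} :
    hq G M (A.prod A') (B.prod B') = hq G M A B * hq G M A' B' := by
  unfold hq
  rw [← Nat.card_prod]
  let π₁ : (X × Y) ⧸ (B.prod B') →+ X ⧸ B :=
    QuotientAddGroup.map _ _ (AddMonoidHom.fst X Y) (fun p hp => hp.1)
  let π₂ : (X × Y) ⧸ (B.prod B') →+ Y ⧸ B' :=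
    QuotientAddGroup.map _ _ (AddMonoidHom.snd X Y) (fun p hp => hp.2)
  have hbij : Function.Bijective (π₁.prod π₂) := by
    constructor
    · rw [injective_iff_map_eq_zero]
      intro q hq
      obtain ⟨⟨x, y⟩, rfl⟩ := QuotientAddGroup.mk_surjective q
      have h1 : (x : X ⧸ B) = 0 := congrArg Prod.fst hq
      have h2 : (y : Y ⧸ B') = 0 := congrArg Prod.snd hq
      rw [QuotientAddGroup.eq_zero_iff] at h1 h2
      exact (QuotientAddGroup.eq_zero_iff _).mpr ⟨h1, h2⟩
    · rintro ⟨q, q'⟩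
      obtain ⟨x, rfl⟩ := QuotientAddGroup.mk_surjective q
      obtain ⟨y, rfl⟩ := QuotientAddGroup.mk_surjective q'
      exact ⟨((x, y) : X × Y), rfl⟩
  let E : (X × Y) ⧸ (B.prod B') ≃+ (X ⧸ B) × (Y ⧸ B') := AddEquiv.ofBijective (π₁.prod π₂) hbij
  have hE : ∀ p : X × Y, E (p : (X × Y) ⧸ (B.prod B')) = ((p.1 : X ⧸ B), (p.2 : Y ⧸ B')) :=
    fun _ => rfl
  have hEs : ∀ (x : X) (y : Y), E.symm ((x : X ⧸ B), (y : Y ⧸ B')) =
      (((x, y) : X × Y) : (X × Y) ⧸ (B.prod B')) := fun x y => by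
    rw [AddEquiv.symm_apply_eq]; rfl
  have hE1 : ∀ q, π₁ q = (E q).1 := fun _ => rfl
  have hE2 : ∀ q, π₂ q = (E q).2 := fun _ => rfl
  refine Nat.card_congr
    { toFun := fun f => (⟨π₁.comp f.1, ?_, ?_⟩, ⟨π₂.comp f.1, ?_, ?_⟩)
      invFun := fun p => ⟨E.symm.toAddMonoidHom.comp (p.1.1.prod p.2.1), ?_, ?_⟩
      left_inv := fun f => Subtype.ext (AddMonoidHom.ext fun m => E.symm_apply_apply _)
      right_inv := fun p => ?_ }
  · intro m
    obtain ⟨⟨a, a'⟩, ha, h⟩ := f.2.1 m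
    refine ⟨a, ha.1, ?_⟩
    change π₁ (f.1 m) = _
    rw [h]; rfl
  · intro g m x hx
    obtain ⟨⟨a, a'⟩, ha, h⟩ := f.2.1 m
    change π₁ (f.1 m) = _ at hx
    rw [h] at hx
    have h1 : f.1 m = (((x, a') : X × Y) : (X × Y) ⧸ (B.prod B')) := by
      rw [h]
      apply E.injective
      exact Prod.ext hx rfl
    change π₁ (f.1 (g • m)) = _
    rw [f.2.2 g m _ h1]
    rfl
  · intro m
    obtain ⟨⟨a, a'⟩, ha, h⟩ := f.2.1 m
    refine ⟨a', ha.2, ?_⟩
    change π₂ (f.1 m) = _
    rw [h]; rfl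
  · intro g m x hx
    obtain ⟨⟨a, a'⟩, ha, h⟩ := f.2.1 m
    change π₂ (f.1 m) = _ at hx
    rw [h] at hx
    have h1 : f.1 m = (((a, x) : X × Y) : (X × Y) ⧸ (B.prod B')) := by
      rw [h]
      apply E.injective
      exact Prod.ext rfl hx
    change π₂ (f.1 (g • m)) = _
    rw [f.2.2 g m _ h1]
    rfl
  · intro m
    obtain ⟨a, ha, h⟩ := p.1.2.1 m
    obtain ⟨a', ha', h'⟩ := p.2.2.1 m
    refine ⟨(a, a'), ⟨ha, ha'⟩, ?_⟩
    change E.symm (p.1.1 m, p.2.1 m) = _
    rw [h, h', hEs]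
  · rintro g m ⟨x, y⟩ hxy
    change E.symm (p.1.1 m, p.2.1 m) = _ at hxy
    rw [AddEquiv.symm_apply_eq, hE] at hxy
    change E.symm (p.1.1 (g • m), p.2.1 (g • m)) = _
    rw [p.1.2.2 g m x (congrArg Prod.fst hxy), p.2.2.2 g m y (congrArg Prod.snd hxy), hEs]
    rfl
  · refine Prod.ext (Subtype.ext (AddMonoidHom.ext fun m => ?_))
      (Subtype.ext (AddMonoidHom.ext fun m => ?_))
    · change π₁ (E.symm (p.1.1 m, p.2.1 m)) = _
      rw [hE1, AddEquiv.apply_symm_apply]
    · change π₂ (E.symm (p.1.1 m, p.2.1 m)) = _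
      rw [hE2, AddEquiv.apply_symm_apply]

theorem Bas_triv {A B : AddSubgroup X} (hA : Stab G A) (hB : Stab G B) (h : B.relIndex A = 2)
    (g : G) {a : X} (ha : a ∈ A) : ((g • a : X) : X ⧸ B) = (a : X ⧸ B) := by
  have hc := Bas_card A B
  rw [h, Nat.card_eq_two_iff' (0 : (Bas_phi A B).range)] at hc
  obtain ⟨y, hy, huniq⟩ := hc
  by_cases h0 : a ∈ B
  · rw [(QuotientAddGroup.eq_zero_iff a).mpr h0, (QuotientAddGroup.eq_zero_iff (g • a)).mpr
      (hB g a h0)]
  · have h1 : g • a ∉ B := by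
      intro h2
      apply h0
      have h3 := hB g⁻¹ _ h2
      rwa [inv_smul_smul] at h3
    have e1 := huniq ⟨(a : X ⧸ B), Bas_mem.mpr ⟨a, ha, rfl⟩⟩ (fun h2 => h0
      ((QuotientAddGroup.eq_zero_iff a).mp (congrArg Subtype.val h2)))
    have e2 := huniq ⟨((g • a : X) : X ⧸ B), Bas_mem.mpr ⟨g • a, hA g a ha, rfl⟩⟩ (fun h2 => h1
      ((QuotientAddGroup.eq_zero_iff (g • a)).mp (congrArg Subtype.val h2)))
    exact congrArg Subtype.val (e2.trans e1.symm)

theorem Bas_inv {A B : AddSubgroup X} (hA : Stab G A) (hB : Stab G B) (h : B.relIndex A = 2)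
    (hle : B ≤ A) : hq G M A B =
      Nat.card {f : M →+ (Bas_phi A B).range // ∀ (g : G) (m : M), f (g • m) = f m} := by
  refine Nat.card_congr
    { toFun := fun f => ⟨f.1.codRestrict (Bas_phi A B).range (fun m => Bas_mem.mpr (f.2.1 m)), ?_⟩
      invFun := fun f => ⟨(Bas_phi A B).range.subtype.comp f.1, ?_, ?_⟩
      left_inv := fun f => Subtype.ext (AddMonoidHom.ext fun m => rfl)
      right_inv := fun f => Subtype.ext (AddMonoidHom.ext fun m => rfl) }
  · intro g m
    refine Subtype.ext ?_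
    change f.1 (g • m) = f.1 m
    obtain ⟨a, ha, h1⟩ := f.2.1 m
    rw [f.2.2 g m a h1, Bas_triv hA hB h g ha, h1]
  · intro m
    exact Bas_mem.mp (f.1 m).2
  · intro g m x hx
    change ((f.1 m : (Bas_phi A B).range) : X ⧸ B) = _ at hx
    change ((f.1 (g • m) : (Bas_phi A B).range) : X ⧸ B) = _
    obtain ⟨a, ha, h1⟩ := Bas_mem.mp (f.1 m).2
    have hxA : x ∈ A := by
      rw [h1, QuotientAddGroup.eq] at hx
      have h2 := A.add_mem ha (hle hx)
      rwa [add_neg_cancel_left] at h2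
    rw [f.2, hx, Bas_triv hA hB h g hxA]

theorem hq_triv {A B : AddSubgroup X} {A' B' : AddSubgroup Y} (hA : Stab G A) (hB : Stab G B)
    (hA' : Stab G A') (hB' : Stab G B') (h : B.relIndex A = 2) (h' : B'.relIndex A' = 2)
    (hle : B ≤ A) (hle' : B' ≤ A') : hq G M A B = hq G M A' B' := by
  rw [Bas_inv hA hB h hle, Bas_inv hA' hB' h' hle']
  have : Fact (Nat.Prime 2) := ⟨Nat.prime_two⟩
  let e : (Bas_phi A B).range ≃+ (Bas_phi A' B').range :=
    addEquivOfPrimeCardEq (p := 2) ((Bas_card A B).trans h) ((Bas_card A' B').trans h')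
  refine Nat.card_congr
    { toFun := fun f => ⟨e.toAddMonoidHom.comp f.1, fun g m => congrArg e (f.2 g m)⟩
      invFun := fun f => ⟨e.symm.toAddMonoidHom.comp f.1, fun g m => congrArg e.symm (f.2 g m)⟩
      left_inv := fun f => Subtype.ext (AddMonoidHom.ext fun m => e.symm_apply_apply _)
      right_inv := fun f => Subtype.ext (AddMonoidHom.ext fun m => e.apply_symm_apply _) }

end H24TD
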