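import Mathlib

/-!
Counting equivariant homomorphisms for groups of odd order (definitions, no row).
`X` is an additive group with an action of `G`; `A`, `B` are additive subgroups.
-/

set_option autoImplicit false

namespace H24TD

/-- `A` is stable under `G`. -/
def Stab (G : Type*) {X : Type*} [Group G] [AddCommGroup X] [DistribMulAction G X]
    (A : AddSubgroup X) : Prop := ∀ (g : G), ∀ x ∈ A, g • x ∈ A

/-- The equivariant homomorphisms from `M` to `A / B` (as homomorphisms to `X / B`). -/
def Hq (G M : Type*) {X : Type*} [Group G] [AddCommGroup X] [DistribMulAction G X]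
    [AddCommGroup M] [DistribMulAction G M] (A B : AddSubgroup X) : Set (M →+ X ⧸ B) :=
  {f | (∀ m, ∃ a ∈ A, f m = (a : X ⧸ B)) ∧
    ∀ (g : G) (m : M) (x : X), f m = (x : X ⧸ B) → f (g • m) = ((g • x : X) : X ⧸ B)}

/-- Their number. -/
noncomputable def hq (G M : Type*) {X : Type*} [Group G] [AddCommGroup X] [DistribMulAction G X]
    [AddCommGroup M] [DistribMulAction G M] (A B : AddSubgroup X) : ℕ :=
  Nat.card ↥(Hq G M A B)

/-- The multiples by two of the elements of `A`. -/
def dbl {X : Type*} [AddCommGroup X] (A : AddSubgroup X) : AddSubgroup X :=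
  A.map (zsmulAddGroupHom (2 : ℤ))

/-- The elements of `A` killed by two. -/
def tor {X : Type*} [AddCommGroup X] (A : AddSubgroup X) : AddSubgroup X :=
  A ⊓ (zsmulAddGroupHom (2 : ℤ) : X →+ X).ker

lemma mem_dbl {X : Type*} [AddCommGroup X] {A : AddSubgroup X} {x : X} :
    x ∈ dbl A ↔ ∃ a ∈ A, (2 : ℤ) • a = x := Iff.rfl

lemma mem_tor {X : Type*} [AddCommGroup X] {A : AddSubgroup X} {x : X} :
    x ∈ tor A ↔ x ∈ A ∧ (2 : ℤ) • x = 0 := Iff.rfl

end H24TD
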