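import Pool.Agent.H24.TD.Df
import Pool.Agent.H38.T1.Df

/-!
Definitions: permutation modules, S-units (no row).
-/

set_option autoImplicit false
open scoped Classical

open WithZero NumberField IsDedekindDomain H38RT H38T1

namespace H24TD

/-- Functions on a set with an action of `G`. -/
def Fn (ι R : Type*) : Type _ := ι → R

section

variable {G ι R : Type*} [Group G] [MulAction G ι] [AddCommGroup R]

instance : AddCommGroup (Fn ι R) := inferInstanceAs (AddCommGroup (ι → R))

instance : DistribMulAction G (Fn ι R) where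
  smul g f := fun i => f (g⁻¹ • i)
  one_smul f := by
    funext i
    change f ((1 : G)⁻¹ • i) = f i
    rw [inv_one, one_smul]
  mul_smul g h f := by
    funext i
    change f ((g * h)⁻¹ • i) = f (h⁻¹ • g⁻¹ • i)
    rw [mul_inv_rev, mul_smul]
  smul_zero g := rfl
  smul_add g f f' := rfl

lemma Fn.smul_apply (g : G) (f : Fn ι R) (i : ι) : (g • f) i = f (g⁻¹ • i) := rfl

lemma Fn.add_apply (f f' : Fn ι R) (i : ι) : (f + f') i = f i + f' i := rfl

/-- The functions supported in `S`. -/
def supp {ι : Type*} (R : Type*) [AddCommGroup R] (S : Set ι) : AddSubgroup (Fn ι R) where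
  carrier := {f | ∀ i, i ∉ S → f i = 0}
  zero_mem' := fun _ _ => rfl
  add_mem' := by
    intro f f' hf hf' i hi
    rw [Fn.add_apply, hf i hi, hf' i hi, add_zero]
  neg_mem' := by
    intro f hf i hi
    change - f i = 0
    rw [hf i hi, neg_zero]

lemma mem_supp {S : Set ι} {f : Fn ι R} : f ∈ supp R S ↔ ∀ i, i ∉ S → f i = 0 := Iff.rfl

/-- `S` is stable under `G`. -/
def StS (G : Type*) {ι : Type*} [Group G] [MulAction G ι] (S : Set ι) : Prop :=
  ∀ (g : G), ∀ i ∈ S, g • i ∈ S

end

section Units

variable {K : Type} [Field K] [NumberField K]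

instance : DistribMulAction (K ≃ₐ[ℚ] K) (Additive Kˣ) where
  smul g u := Additive.ofMul (Units.map (g : K →* K) (Additive.toMul u))
  one_smul u := by
    apply Additive.toMul.injective
    ext
    rfl
  mul_smul g h u := by
    apply Additive.toMul.injective
    ext
    rfl
  smul_zero g := by
    apply Additive.toMul.injective
    ext
    change g ((1 : Kˣ) : K) = 1
    simp
  smul_add g u u' := by
    apply Additive.toMul.injective
    ext
    exact map_mul g ((Additive.toMul u : Kˣ) : K) ((Additive.toMul u' : Kˣ) : K)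

lemma smul_val (g : K ≃ₐ[ℚ] K) (u : Additive Kˣ) :
    ((Additive.toMul (g • u) : Kˣ) : K) = g ((Additive.toMul u : Kˣ) : K) := rfl

/-- The `S`-units, written additively. -/
def SUa (K : Type) [Field K] [NumberField K] (S : Set (HeightOneSpectrum (𝓞 K))) :
    AddSubgroup (Additive Kˣ) where
  carrier := {u | ∀ v, v ∉ S → v.valuation K ((Additive.toMul u : Kˣ) : K) = 1}
  zero_mem' := by
    intro v _
    change v.valuation K ((1 : Kˣ) : K) = 1
    rw [Units.val_one, map_one]
  add_mem' := by
    intro u u' hu hu' v hv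
    change v.valuation K (((Additive.toMul u * Additive.toMul u') : Kˣ) : K) = 1
    rw [Units.val_mul, map_mul, hu v hv, hu' v hv, mul_one]
  neg_mem' := by
    intro u hu v hv
    change v.valuation K (((Additive.toMul u)⁻¹ : Kˣ) : K) = 1
    rw [Units.val_inv_eq_inv_val, map_inv₀, hu v hv, inv_one]

lemma mem_SUa {S : Set (HeightOneSpectrum (𝓞 K))} {u : Additive Kˣ} :
    u ∈ SUa K S ↔ ∀ v, v ∉ S → v.valuation K ((Additive.toMul u : Kˣ) : K) = 1 := Iff.rfl

/-- The square class of a nonzero element. -/
noncomputable abbrev cls (K : Type) [Field K] : Additive Kˣ →+ SC K := scu K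

omit [NumberField K] in
lemma cls_ofMul (x : K) (hx : x ≠ 0) : cls K (Additive.ofMul (Units.mk0 x hx)) = sc x :=
  (sc_of_ne hx).symm

omit [NumberField K] in
lemma cls_eq (u : Additive Kˣ) : cls K u = sc ((Additive.toMul u : Kˣ) : K) := by
  rw [← cls_ofMul _ (Units.ne_zero _)]
  congr 1
  apply Additive.toMul.injective
  ext
  rfl

lemma cls_smul (g : K ≃ₐ[ℚ] K) (u : Additive Kˣ) : cls K (g • u) = g • cls K u := rfl

/-- The additive subgroups of the square classes. -/
abbrev ASC (K : Type) [Field K] : Type := AddSubgroup (SC K)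

/-- The square classes of the `S`-units. -/
noncomputable def US (K : Type) [Field K] [NumberField K] (S : Set (HeightOneSpectrum (𝓞 K))) :
    ASC K := (SUa K S).map (cls K)

end Units

end H24TD
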