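import Pool.Agent.H24.TD.Dg
import Pool.Agent.H24.TD.Bas

/-!
Row Pm. (about 200 lines): permutation modules. Use the statements of hq_mul, hq_iso and of the file Bas.
 supp_stab: clear (i not in S implies g^-1 i not in S).
 pm_mod: u : Fn i ZZ -> Fn i (ZMod 2) reduction (compose with Int.castAddHom (ZMod 2)); hq_iso with A = supp ZZ S, B = dbl A, A' = supp (ZMod 2) S, B' = bot: u(A) = A' (lift each value, zero outside S), and u a = 0 iff all values even iff a = 2 a', a' supported in S.
 pm_union: S, T disjoint stable: the isomorphism supp S x supp T -> supp (S union T), (f, f') |-> f + f' (hq_iso with u : Fn x Fn -> Fn, A = (supp S).prod (supp T), B = bot.prod bot = bot) and hq_prod.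
 pm_free: hq_std; an equivariant f : M ->+ Fn G (ZMod 2) is m |-> (g |-> chi (g^-1 m)) with chi = value at 1; bijection with M ->+ ZMod 2: f (m) (g) = (g^-1 . f m) 1 = f (g^-1 m) (1).
 pm_orbits: S finite stable, the action of G on S is free (g i = i implies g = 1 for i in S), ncard S = m * card G. Induction on m: if m = 0 then S is empty, supp = bot, hq_self (or hq of bot is 1). Otherwise choose i in S, T = orbit of i (a bijection G -> T, g |-> g i), S \ T is stable and free of size (m-1) card G, pm_union,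
   and hq (supp T) = hq (top : Fn G): hq_iso with u : Fn i R -> Fn G R, u f = (g |-> f (g i)) (equivariant: (h f)(g i) = f (h^-1 g i)), A = supp T, A' = top: surjective as g |-> g i is injective, and u f = 0 iff f = 0 for f supported in T.
-/

set_option autoImplicit false

namespace H24TD

variable {G M ι : Type*} [Group G] [MulAction G ι] [AddCommGroup M] [DistribMulAction G M]

theorem supp_stab {R : Type*} [AddCommGroup R] {S : Set ι} (hS : StS G S) :
    Stab G (supp R S) := by
  intro g f hf i hi
  rw [Fn.smul_apply]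
  refine hf _ fun h => hi ?_
  have := hS g _ h
  rwa [smul_inv_smul] at this

private lemma Pm_bot {X : Type*} [AddCommGroup X] [DistribMulAction G X] :
    Stab G (⊥ : AddSubgroup X) := by
  intro g x hx
  rw [AddSubgroup.mem_bot] at hx ⊢
  rw [hx, smul_zero]

private lemma Pm_top {X : Type*} [AddCommGroup X] [DistribMulAction G X] :
    Stab G (⊤ : AddSubgroup X) := fun _ _ _ => AddSubgroup.mem_top _

private lemma Pm_dbl {X : Type*} [AddCommGroup X] [DistribMulAction G X] {A : AddSubgroup X}
    (hA : Stab G A) : Stab G (dbl A) := by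
  intro g x hx
  obtain ⟨a, ha, rfl⟩ := mem_dbl.1 hx
  refine mem_dbl.2 ⟨g • a, hA g a ha, ?_⟩
  exact (map_zsmul (DistribMulAction.toAddMonoidHom X g) 2 a).symm

private lemma Pm_prod {X Y : Type*} [AddCommGroup X] [DistribMulAction G X] [AddCommGroup Y]
    [DistribMulAction G Y] {A : AddSubgroup X} {B : AddSubgroup Y}
    (hA : Stab G A) (hB : Stab G B) : Stab G (A.prod B) := by
  rintro g ⟨x, y⟩ hx
  rw [AddSubgroup.mem_prod] at hx
  exact AddSubgroup.mem_prod.2 ⟨hA g x hx.1, hB g y hx.2⟩

/-- reduction -/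
private def Pm_red (ι : Type*) : Fn ι ℤ →+ Fn ι (ZMod 2) where
  toFun f := fun i => ((f i : ℤ) : ZMod 2)
  map_zero' := by
    funext i
    change (((0 : ℤ) : ℤ) : ZMod 2) = 0
    exact Int.cast_zero
  map_add' := by
    intro f f'
    funext i
    change (((f i + f' i : ℤ)) : ZMod 2) = ((f i : ℤ) : ZMod 2) + ((f' i : ℤ) : ZMod 2)
    exact Int.cast_add _ _

theorem pm_mod {S : Set ι} (hS : StS G S) :
    hq G M (supp ℤ S) (dbl (supp ℤ S)) = hq G M (supp (ZMod 2) S) ⊥ := by
  refine hq_iso (Pm_red ι) (fun g x => rfl) (supp_stab hS) (Pm_dbl (supp_stab hS))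
    (supp_stab hS) Pm_bot ?_ ?_ ?_
  · rintro _ ⟨f, hf, rfl⟩ i hi
    change ((f i : ℤ) : ZMod 2) = 0
    have : f i = 0 := hf i hi
    rw [this, Int.cast_zero]
  · intro f hf
    rw [bot_sup_eq]
    refine ⟨fun i => ((f i).val : ℤ), ?_, ?_⟩
    · intro i hi
      change (((f i).val : ℕ) : ℤ) = 0
      have : f i = 0 := hf i hi
      rw [this, ZMod.val_zero, Nat.cast_zero]
    · funext i
      change ((((f i).val : ℕ) : ℤ) : ZMod 2) = f i
      rw [Int.cast_natCast, ZMod.natCast_zmod_val]
  · intro a ha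
    rw [AddSubgroup.mem_bot]
    constructor
    · intro h
      refine mem_dbl.2 ⟨fun i => a i / 2, ?_, ?_⟩
      · intro i hi
        change a i / 2 = 0
        have : a i = 0 := ha i hi
        rw [this, Int.zero_ediv]
      · funext i
        change (2 : ℤ) • (a i / 2) = a i
        have h1 : ((a i : ℤ) : ZMod 2) = 0 := congrFun h i
        have h2 : (2 : ℤ) ∣ a i := (ZMod.intCast_zmod_eq_zero_iff_dvd (a i) 2).1 h1
        rw [smul_eq_mul]
        exact Int.mul_ediv_cancel' h2
    · intro h
      obtain ⟨b, -, hb⟩ := mem_dbl.1 h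
      rw [← hb, map_zsmul]
      funext i
      change (2 : ℤ) • ((b i : ℤ) : ZMod 2) = 0
      rw [zsmul_eq_mul]
      have : (((2 : ℤ) : ℤ) : ZMod 2) = 0 := by decide
      rw [this, zero_mul]

theorem pm_union {S T : Set ι} (hS : StS G S) (hT : StS G T) (hd : Disjoint S T) :
    hq G M (supp (ZMod 2) (S ∪ T)) ⊥ = hq G M (supp (ZMod 2) S) ⊥ * hq G M (supp (ZMod 2) T) ⊥ := by
  classical
  rw [← hq_prod]
  symm
  have hST : StS G (S ∪ T) := by
    rintro g i (hi | hi)
    · exact Or.inl (hS g i hi)
    · exact Or.inr (hT g i hi)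
  refine hq_iso (AddMonoidHom.coprod (AddMonoidHom.id (Fn ι (ZMod 2)))
    (AddMonoidHom.id (Fn ι (ZMod 2)))) ?_ (Pm_prod (supp_stab hS) (supp_stab hT))
    (Pm_prod Pm_bot Pm_bot) (supp_stab hST) Pm_bot ?_ ?_ ?_
  · rintro g ⟨x, y⟩
    exact (smul_add g x y).symm
  · rintro _ ⟨⟨f, f'⟩, hf, rfl⟩ i hi
    obtain ⟨h1, h2⟩ := AddSubgroup.mem_prod.1 hf
    change f i + f' i = 0
    have h3 : f i = 0 := h1 i fun h => hi (Or.inl h)
    have h4 : f' i = 0 := h2 i fun h => hi (Or.inr h)
    rw [h3, h4, add_zero]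
  · intro f hf
    rw [bot_sup_eq]
    refine ⟨(fun i => if i ∈ S then f i else 0, fun i => if i ∈ S then 0 else f i), ?_, ?_⟩
    · refine AddSubgroup.mem_prod.2 ⟨?_, ?_⟩
      · intro i hi
        exact if_neg hi
      · intro i hi
        change (if i ∈ S then 0 else f i) = 0
        by_cases h : i ∈ S
        · rw [if_pos h]
        · rw [if_neg h]
          exact hf i fun h' => h'.elim h hi
    · funext i
      change (if i ∈ S then f i else 0) + (if i ∈ S then 0 else f i) = f i
      by_cases h : i ∈ S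
      · rw [if_pos h, if_pos h, add_zero]
      · rw [if_neg h, if_neg h, zero_add]
  · rintro ⟨f, f'⟩ hf
    obtain ⟨h1, h2⟩ := AddSubgroup.mem_prod.1 hf
    rw [AddSubgroup.mem_bot, AddSubgroup.mem_prod, AddSubgroup.mem_bot, AddSubgroup.mem_bot]
    constructor
    · intro h
      have h3 : ∀ i, f i + f' i = 0 := fun i => congrFun h i
      have h4 : ∀ i, f i = 0 := by
        intro i
        by_cases hi : i ∈ S
        · have h5 : f' i = 0 := h2 i fun h' => Set.disjoint_left.1 hd hi h'
          have h6 := h3 i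
          rwa [h5, add_zero] at h6
        · exact h1 i hi
      refine ⟨funext h4, funext fun i => ?_⟩
      have h6 := h3 i
      rwa [h4 i, zero_add] at h6
    · rintro ⟨h3, h4⟩
      change f + f' = 0
      have h5 : f = 0 := h3
      have h6 : f' = 0 := h4
      rw [h5, h6, add_zero]

theorem pm_free : hq G M (⊤ : AddSubgroup (Fn G (ZMod 2))) ⊥ = Nat.card (M →+ ZMod 2) := by
  rw [hq_std]
  refine Nat.card_congr ⟨fun f => ⟨⟨fun m => f.1 m 1, ?_⟩, ?_⟩,
    fun χ => ⟨⟨⟨fun m => fun g => χ (g⁻¹ • m), ?_⟩, ?_⟩, fun m => AddSubgroup.mem_top _, ?_⟩,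
    ?_, ?_⟩
  · rw [map_zero]
    rfl
  · intro m m'
    change (f.1 (m + m')) 1 = f.1 m 1 + f.1 m' 1
    rw [map_add]
    rfl
  · funext g
    change χ (g⁻¹ • (0 : M)) = 0
    rw [smul_zero, map_zero]
  · intro m m'
    funext g
    change χ (g⁻¹ • (m + m')) = χ (g⁻¹ • m) + χ (g⁻¹ • m')
    rw [smul_add, map_add]
  · intro g m
    funext h
    change χ (h⁻¹ • g • m) = χ ((g⁻¹ • h)⁻¹ • m)
    rw [smul_eq_mul, mul_inv_rev, inv_inv, mul_smul]
  · rintro ⟨f, hf1, hf2⟩
    apply Subtype.ext
    ext m
    funext g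
    change f (g⁻¹ • m) 1 = f m g
    rw [hf2, Fn.smul_apply, inv_inv, smul_eq_mul, mul_one]
  · intro χ
    ext m
    change χ ((1 : G)⁻¹ • m) = χ m
    rw [inv_one, one_smul]

private lemma Pm_orb {i : ι} (hfree : ∀ g : G, g • i = i → g = 1) :
    hq G M (supp (ZMod 2) (Set.range fun g : G => g • i)) ⊥ = Nat.card (M →+ ZMod 2) := by
  classical
  rw [← pm_free (G := G)]
  have hinj : ∀ g h : G, g • i = h • i → g = h := by
    intro g h hgh
    have : (h⁻¹ * g) • i = i := by rw [mul_smul, hgh, inv_smul_smul]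
    have h1 := hfree _ this
    exact (inv_mul_eq_one.1 h1).symm
  have hst : StS G (Set.range fun g : G => g • i) := by
    rintro g _ ⟨h, rfl⟩
    exact ⟨g * h, mul_smul g h i⟩
  let u : Fn ι (ZMod 2) →+ Fn G (ZMod 2) :=
    { toFun := fun f => fun g => f (g • i)
      map_zero' := rfl
      map_add' := fun f f' => rfl }
  refine hq_iso u ?_ (supp_stab hst) Pm_bot Pm_top Pm_bot le_top ?_ ?_
  · intro h f
    funext g
    change f (h⁻¹ • g • i) = f ((h⁻¹ • g) • i)
    rw [smul_eq_mul, mul_smul]
  · intro φ _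
    rw [bot_sup_eq]
    refine ⟨fun x => if h : ∃ g : G, g • i = x then φ h.choose else 0, ?_, ?_⟩
    · intro x hx
      exact dif_neg hx
    · funext g
      have h : ∃ g' : G, g' • i = g • i := ⟨g, rfl⟩
      change (if h : ∃ g' : G, g' • i = g • i then φ h.choose else 0) = φ g
      rw [dif_pos h, hinj _ _ h.choose_spec]
  · intro a ha
    rw [AddSubgroup.mem_bot, AddSubgroup.mem_bot]
    constructor
    · intro h
      funext x
      by_cases hx : x ∈ Set.range fun g : G => g • i
      · obtain ⟨g, rfl⟩ := hx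
        exact congrFun h g
      · exact ha x hx
    · intro h
      rw [h, map_zero]

theorem pm_orbits [Finite G] {S : Set ι} (hS : StS G S) (hfin : S.Finite)
    (hfree : ∀ (g : G), ∀ i ∈ S, g • i = i → g = 1) {m : ℕ} (hm : S.ncard = m * Nat.card G) :
    hq G M (supp (ZMod 2) S) ⊥ = Nat.card (M →+ ZMod 2) ^ m := by
  induction m generalizing S with
  | zero =>
    rw [Nat.zero_mul, Set.ncard_eq_zero hfin] at hm
    subst hm
    have h1 : supp (ZMod 2) (∅ : Set ι) = ⊥ := by
      rw [eq_bot_iff]
      intro f hf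
      rw [AddSubgroup.mem_bot]
      funext i
      exact hf i (Set.notMem_empty i)
    rw [h1, pow_zero]
    exact hq_self Pm_bot
  | succ m ih =>
    have hc : 0 < Nat.card G := Nat.card_pos
    have hne : S.Nonempty := by
      rw [← Set.ncard_pos hfin, hm]
      positivity
    obtain ⟨i, hi⟩ := hne
    have hinj : Function.Injective fun g : G => g • i := by
      intro g h hgh
      have hgh' : g • i = h • i := hgh
      have : (h⁻¹ * g) • i = i := by rw [mul_smul, hgh', inv_smul_smul]
      have h1 := hfree _ i hi this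
      exact (inv_mul_eq_one.1 h1).symm
    have hT : StS G (Set.range fun g : G => g • i) := by
      rintro g _ ⟨h, rfl⟩
      exact ⟨g * h, mul_smul g h i⟩
    have hTS : (Set.range fun g : G => g • i) ⊆ S := by
      rintro _ ⟨g, rfl⟩
      exact hS g i hi
    have hTc : (Set.range fun g : G => g • i).ncard = Nat.card G := by
      rw [← Set.image_univ, Set.ncard_image_of_injective _ hinj, Set.ncard_univ]
    have hD : StS G (S \ Set.range fun g : G => g • i) := by
      rintro g x ⟨hx1, hx2⟩
      refine ⟨hS g x hx1, ?_⟩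
      intro h
      apply hx2
      have := hT g⁻¹ _ h
      rwa [inv_smul_smul] at this
    have hDc : (S \ Set.range fun g : G => g • i).ncard = m * Nat.card G := by
      have h1 := Set.ncard_sdiff_add_ncard_of_subset hTS hfin
      rw [hm, hTc, Nat.succ_mul] at h1
      omega
    have hU : S = (S \ Set.range fun g : G => g • i) ∪ Set.range fun g : G => g • i :=
      (Set.diff_union_of_subset hTS).symm
    rw [hU, pm_union hD hT Set.disjoint_sdiff_left,
      ih hD (hfin.subset Set.diff_subset) (fun g x hx => hfree g x hx.1) hDc,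
      Pm_orb (fun g => hfree g i hi), pow_succ]

end H24TD
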