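import Pool.Agent.H24.TD.Sim
import Pool.Agent.H24.TD.Pm

/-!
Row Emb. (about 170 lines): functionals from counts. Let Q0 be a stable complement of B in A? Simplest: Q := the type (A.map (mk' B)) (an AddSubgroup of X / B) with the action g . mk a = mk (g a) induced by the stability of B (QuotientAddGroup.map B B (DistribMulAction.toAddMonoidHom X g) restricted to A.map (mk' B)). Q is finite (hfin), exponent two.
 F := Fin m -> Fn G (ZMod 2) (Pi action, componentwise: g . f = fun j => g . f j). For M of exponent two: (M ->+[G] Q) is in bijection with Hq G M A B, and (M ->+[G] F) with (Fin m -> (M ->+[G] Fn G (ZMod 2))), of cardinality (card (M ->+ ZMod 2))^m by hq_std and pm_free. So hc gives the hypothesis of exists_inj: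
 there is an equivariant injection psi : Q -> F. Put chi_j : A.map (mk' B) ->+ ZMod 2, q |-> (psi q j) 1. Extend chi_j composed with mk' to X: X / B is killed by two, so ZMod 2 vector space; a linear functional on a subspace extends (LinearMap.exists_extend): phi_j = extension composed with mk' B, zero on B.
 If a in A and phi_j (g a) = 0 for all j, g then (psi (mk (g a)) j) 1 = (g . psi (mk a) j) 1 = (psi (mk a) j) (g^-1) = 0, so psi (mk a) = 0 and mk a = 0, a in B.
-/

set_option autoImplicit false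

namespace H24TD

private lemma Emb_ext {V : Type*} [AddCommGroup V] (hV : ∀ x : V, x + x = 0) (W : AddSubgroup V)
    (χ : W →+ ZMod 2) : ∃ g : V →+ ZMod 2, ∀ w : W, g w = χ w := by
  let _ : Module (ZMod 2) V := AddCommGroup.zmodModule (fun x => by rw [two_nsmul]; exact hV x)
  let p : Submodule (ZMod 2) V := AddSubgroup.toZModSubmodule 2 W
  let χ' : p →ₗ[ZMod 2] ZMod 2 := AddMonoidHom.toZModLinearMap 2 (χ : p →+ ZMod 2)
  obtain ⟨g, hg⟩ := LinearMap.exists_extend χ'
  exact ⟨g.toAddMonoidHom, fun w => LinearMap.congr_fun hg w⟩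

section
variable {G X : Type} [Group G] [AddCommGroup X] [DistribMulAction G X] {A B : AddSubgroup X}

private def Emb_g (hB : Stab G B) (g : G) : X ⧸ B →+ X ⧸ B :=
  QuotientAddGroup.map B B (DistribSMul.toAddMonoidHom X g) (fun x hx => hB g x hx)

private lemma Emb_g_mk (hB : Stab G B) (g : G) (x : X) :
    Emb_g hB g (x : X ⧸ B) = ((g • x : X) : X ⧸ B) := rfl

private lemma Emb_mem (hA : Stab G A) (hB : Stab G B) (g : G) {q : X ⧸ B}
    (hq : q ∈ A.map (QuotientAddGroup.mk' B)) :
    Emb_g hB g q ∈ A.map (QuotientAddGroup.mk' B) := by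
  obtain ⟨a, ha, rfl⟩ := hq
  exact ⟨g • a, hA g a ha, rfl⟩

@[reducible] private def Emb_act (hA : Stab G A) (hB : Stab G B) :
    DistribMulAction G ↥(A.map (QuotientAddGroup.mk' B)) where
  smul g q := ⟨Emb_g hB g q.1, Emb_mem hA hB g q.2⟩
  one_smul q := by
    obtain ⟨_, a, ha, rfl⟩ := q
    apply Subtype.ext
    change (((1 : G) • a : X) : X ⧸ B) = (a : X ⧸ B)
    rw [one_smul]
  mul_smul g h q := by
    obtain ⟨_, a, ha, rfl⟩ := q
    apply Subtype.ext
    change (((g * h) • a : X) : X ⧸ B) = ((g • (h • a) : X) : X ⧸ B)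
    rw [mul_smul]
  smul_zero g := by
    apply Subtype.ext
    exact map_zero (Emb_g hB g)
  smul_add g q q' := by
    apply Subtype.ext
    exact map_add (Emb_g hB g) q.1 q'.1

private lemma Emb_fin (hfin : B.relIndex A ≠ 0) : Finite ↥(A.map (QuotientAddGroup.mk' B)) := by
  have h1 : Finite (A ⧸ B.addSubgroupOf A) := Nat.finite_of_card_ne_zero hfin
  have h2 : ((A.map (QuotientAddGroup.mk' B) : AddSubgroup (X ⧸ B)) : Set (X ⧸ B)) ⊆
      Set.range (QuotientAddGroup.map (B.addSubgroupOf A) B A.subtype (fun x hx => hx)) := by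
    rintro _ ⟨a, ha, rfl⟩
    exact ⟨((⟨a, ha⟩ : A) : A ⧸ B.addSubgroupOf A), rfl⟩
  exact ((Set.finite_range _).subset h2).to_subtype

end

private lemma Emb_cardQ {G X : Type} [Group G] [AddCommGroup X] [DistribMulAction G X]
    {A B : AddSubgroup X} (hA : Stab G A) (hB : Stab G B) (M : Type) [AddCommGroup M]
    [DistribMulAction G M] :
    letI := Emb_act hA hB
    Nat.card (M →+[G] ↥(A.map (QuotientAddGroup.mk' B))) = hq G M A B := by
  let _ := Emb_act hA hB
  refine Nat.card_congr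
    { toFun := fun f => ⟨(A.map (QuotientAddGroup.mk' B)).subtype.comp f.toAddMonoidHom, ?_, ?_⟩
      invFun := fun f =>
        { toFun := fun m => ⟨f.1 m, by
            obtain ⟨a, ha, h⟩ := f.2.1 m
            exact ⟨a, ha, h.symm⟩⟩
          map_smul' := ?_
          map_zero' := Subtype.ext (map_zero f.1)
          map_add' := fun m m' => Subtype.ext (map_add f.1 m m') }
      left_inv := ?_
      right_inv := ?_ }
  · intro m
    obtain ⟨a, ha, h⟩ := (f m).2
    exact ⟨a, ha, h.symm⟩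
  · intro g m x hx
    have h1 : f (g • m) = g • f m := map_smul f g m
    change ((f (g • m)).1 : X ⧸ B) = _
    rw [h1]
    change Emb_g hB g (f m).1 = _
    have h2 : ((f m).1 : X ⧸ B) = (x : X ⧸ B) := hx
    rw [h2]
    rfl
  · intro g m
    apply Subtype.ext
    obtain ⟨a, ha, h⟩ := f.2.1 m
    have h1 := f.2.2 g m a h
    change f.1 (g • m) = Emb_g hB g (f.1 m)
    rw [h1, h]
    rfl
  · intro f
    rfl
  · intro f
    rfl

private lemma Emb_cardF {G : Type} [Group G] (m : ℕ) (M : Type) [AddCommGroup M]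
    [DistribMulAction G M] :
    Nat.card (M →+[G] (Fin m → Fn G (ZMod 2))) = Nat.card (M →+ ZMod 2) ^ m := by
  rw [← pm_free (G := G) (M := M), hq_std]
  have h1 : Nat.card (Fin m → {f : M →+ Fn G (ZMod 2) // (∀ m, f m ∈ (⊤ : AddSubgroup _)) ∧
      ∀ (g : G) m, f (g • m) = g • f m}) = Nat.card {f : M →+ Fn G (ZMod 2) //
      (∀ m, f m ∈ (⊤ : AddSubgroup (Fn G (ZMod 2)))) ∧ ∀ (g : G) m, f (g • m) = g • f m} ^ m := by
    rw [Nat.card_fun, Nat.card_fin]
  rw [← h1]
  refine Nat.card_congr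
    { toFun := fun f j => ⟨(Pi.evalAddMonoidHom (fun _ : Fin m => Fn G (ZMod 2)) j).comp
        f.toAddMonoidHom, fun _ => trivial, ?_⟩
      invFun := fun f =>
        { toFun := fun x j => (f j).1 x
          map_smul' := ?_
          map_zero' := ?_
          map_add' := ?_ }
      left_inv := ?_
      right_inv := ?_ }
  · intro g x
    have h2 : f (g • x) = g • f x := map_smul f g x
    change f (g • x) j = _
    rw [h2]
    rfl
  · intro g x
    funext j
    exact (f j).2.2 g x
  · funext j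
    exact map_zero (f j).1
  · intro x y
    funext j
    exact map_add (f j).1 x y
  · intro f
    rfl
  · intro f
    rfl

theorem hq_embed {G X : Type} [Group G] [Finite G] (hG : Odd (Nat.card G)) [AddCommGroup X]
    [DistribMulAction G X] (hX : ∀ x : X, x + x = 0) {A B : AddSubgroup X} (hA : Stab G A)
    (hB : Stab G B) (hBA : B ≤ A) (hfin : B.relIndex A ≠ 0) (m : ℕ)
    (hc : ∀ (M : Type) [AddCommGroup M] [DistribMulAction G M] [Finite M], (∀ x : M, x + x = 0) →
      hq G M A B ≤ Nat.card (M →+ ZMod 2) ^ m) :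
    ∃ φ : Fin m → (X →+ ZMod 2), (∀ j, ∀ x ∈ B, φ j x = 0) ∧
      ∀ a ∈ A, (∀ j, ∀ g : G, φ j (g • a) = 0) → a ∈ B := by
  let _ := Emb_act hA hB
  have hf1 : Finite ↥(A.map (QuotientAddGroup.mk' B)) := Emb_fin hfin
  have hf2 : Finite (Fn G (ZMod 2)) := inferInstanceAs (Finite (G → ZMod 2))
  have hXB : ∀ x : X ⧸ B, x + x = 0 := by
    intro x
    obtain ⟨y, rfl⟩ := QuotientAddGroup.mk_surjective x
    rw [← QuotientAddGroup.mk_add, hX, QuotientAddGroup.mk_zero]
  have hZ : ∀ z : ZMod 2, z + z = 0 := by decide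
  obtain ⟨ψ, hψ⟩ := exists_inj hG ↥(A.map (QuotientAddGroup.mk' B)) (Fin m → Fn G (ZMod 2))
    (fun x => Subtype.ext (hXB x.1)) (fun x => by
      funext j i
      exact hZ (x j i)) (fun M _ _ _ hM => by
      rw [Emb_cardF m M]
      exact (Emb_cardQ hA hB M).le.trans (hc M hM))
  have hχ : ∀ j : Fin m, ∃ χ : ↥(A.map (QuotientAddGroup.mk' B)) →+ ZMod 2,
      ∀ q, χ q = ψ q j (1 : G) := fun j =>
    ⟨{ toFun := fun q => ψ q j (1 : G)
       map_zero' := by rw [map_zero]; rfl
       map_add' := fun q q' => by rw [map_add]; rfl }, fun q => rfl⟩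
  choose χ hχ' using hχ
  choose e he using fun j => Emb_ext hXB _ (χ j)
  refine ⟨fun j => (e j).comp (QuotientAddGroup.mk' B), ?_, ?_⟩
  · intro j x hx
    change e j (x : X ⧸ B) = 0
    rw [(QuotientAddGroup.eq_zero_iff x).2 hx, map_zero]
  · intro a ha h
    obtain ⟨q, hq⟩ : ∃ q : ↥(A.map (QuotientAddGroup.mk' B)), q.1 = (a : X ⧸ B) :=
      ⟨⟨(a : X ⧸ B), a, ha, rfl⟩, rfl⟩
    have h1 : ∀ (j : Fin m) (g : G), ψ q j g = 0 := by
      intro j g
      have h2 : e j ((g⁻¹ • a : X) : X ⧸ B) = 0 := h j g⁻¹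
      have h3 : (g⁻¹ • q).1 = ((g⁻¹ • a : X) : X ⧸ B) := by
        change Emb_g hB g⁻¹ q.1 = _
        rw [hq]
        rfl
      rw [← h3, he, hχ'] at h2
      have h4 : ψ (g⁻¹ • q) = g⁻¹ • ψ q := map_smul ψ g⁻¹ q
      rw [h4] at h2
      have h5 : (g⁻¹ • ψ q) j (1 : G) = ψ q j ((g⁻¹)⁻¹ • (1 : G)) := rfl
      rw [h5, inv_inv, smul_eq_mul, mul_one] at h2
      exact h2
    have h6 : ψ q = ψ 0 := by
      rw [map_zero]
      funext j g
      exact h1 j g
    have h7 : q = 0 := hψ h6
    rw [h7] at hq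
    exact (QuotientAddGroup.eq_zero_iff a).1 hq.symm

end H24TD
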