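import Pool.Agent.H24.TD.Dg

/-!
Row Vp. (about 130 lines): equivariant elements with one prime. v : HeightOneSpectrum (𝓞 K), G = K ≃ₐ[ℚ] K finite, action on the places by H38T1 (mem_mv; valuation K (g v) (g x) = valuation K v x: prove it as the lemma val_smul, see exists_conj in Pool/Agent/H10/StarGal.lean for the way to transport valuations).
 For each v: the ideal v^h is principal (h = class number: ClassGroup finite, pow_card_eq_one), v^h = (t), t <> 0: w(t) = 1 for w <> v, v(t) < 1. For each orbit of G choose a representative v0 (Quotient.out of MulAction.orbitRel), t0 for v0, y0 := (prod over d in the stabilizer of v0 of d t0)^2: supported at v0 as d v0 = v0. For v = g v0 put varpi v := g y0: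
 independent of g (g' = g d, d in the stabilizer, d y0 = y0). Then varpi (g v) = g (varpi v), it is a square, w (varpi v) = 1 for w <> v, v (varpi v) < 1.
-/

set_option autoImplicit false
open scoped Classical

open NumberField IsDedekindDomain H38T1

namespace H24TD

private theorem Vp_gO_inv {K : Type} [Field K] [NumberField K] (γ : K ≃ₐ[ℚ] K) (a : 𝓞 K) :
    gO γ⁻¹ (gO γ a) = a := by
  apply RingOfIntegers.ext
  rw [gO_coe, gO_coe]
  exact γ.symm_apply_apply _

private theorem Vp_pow {K : Type} [Field K] [NumberField K] (γ : K ≃ₐ[ℚ] K)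
    (v : HeightOneSpectrum (𝓞 K)) (a : 𝓞 K) (n : ℕ)
    (ha : a ∈ v.asIdeal ^ n) : gO γ a ∈ (γ • v).asIdeal ^ n := by
  have h1 : v.asIdeal ≤ (γ • v).asIdeal.comap (gO γ : 𝓞 K →+* 𝓞 K) := by
    intro x hx
    rw [Ideal.mem_comap, smul_def, mem_mv]
    have h2 : gO γ⁻¹ ((gO γ : 𝓞 K →+* 𝓞 K) x) = x := Vp_gO_inv γ x
    rw [h2]
    exact hx
  have h2 : v.asIdeal ^ n ≤ ((γ • v).asIdeal ^ n).comap (gO γ : 𝓞 K →+* 𝓞 K) :=
    (Ideal.pow_right_mono h1 n).trans (Ideal.le_comap_pow _ n)
  exact h2 ha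

private theorem Vp_le {K : Type} [Field K] [NumberField K] (γ : K ≃ₐ[ℚ] K)
    (v : HeightOneSpectrum (𝓞 K)) (a : 𝓞 K) :
    (γ • v).intValuation (gO γ a) ≤ v.intValuation a := by
  by_cases ha : a = 0
  · rw [ha, map_zero, map_zero, map_zero]
  · have h1 := v.intValuation_if_neg ha
    have h2 : a ∈ v.asIdeal ^
        ((Associates.mk v.asIdeal).count (Associates.mk (Ideal.span {a} : Ideal (𝓞 K))).factors) := by
      rw [← v.intValuation_le_pow_iff_mem, h1]
    rw [h1, (γ • v).intValuation_le_pow_iff_mem]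
    exact Vp_pow γ v a _ h2

private theorem Vp_int {K : Type} [Field K] [NumberField K] (γ : K ≃ₐ[ℚ] K)
    (v : HeightOneSpectrum (𝓞 K)) (a : 𝓞 K) :
    (γ • v).valuation K (γ (a : K)) = v.valuation K (a : K) := by
  have h1 : (γ • v).intValuation (gO γ a) = v.intValuation a := by
    apply le_antisymm (Vp_le γ v a)
    have h2 := Vp_le γ⁻¹ (γ • v) (gO γ a)
    rw [inv_smul_smul, Vp_gO_inv] at h2
    exact h2
  have h3 : (γ • v).valuation K ((gO γ a : 𝓞 K) : K) = (γ • v).intValuation (gO γ a) :=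
    (γ • v).valuation_of_algebraMap (gO γ a)
  have h4 : v.valuation K (a : K) = v.intValuation a := v.valuation_of_algebraMap a
  rw [← gO_coe, h3, h4, h1]

theorem val_smul {K : Type} [Field K] [NumberField K] (g : K ≃ₐ[ℚ] K)
    (v : HeightOneSpectrum (𝓞 K)) (x : K) :
    (g • v).valuation K (g x) = v.valuation K x := by
  obtain ⟨a, b, hb, hab⟩ := IsFractionRing.div_surjective (A := 𝓞 K) x
  have h1 : g x = g (a : K) / g (b : K) := by
    rw [← map_div₀]
    exact congrArg g hab.symm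
  rw [h1, map_div₀, Vp_int, Vp_int, ← hab, map_div₀]

private theorem Vp_one {K : Type} [Field K] [NumberField K] (v : HeightOneSpectrum (𝓞 K)) :
    ∃ u : Additive Kˣ,
      (∀ w : HeightOneSpectrum (𝓞 K), w ≠ v → w.valuation K ((Additive.toMul u : Kˣ) : K) = 1) ∧
      v.valuation K ((Additive.toMul u : Kˣ) : K) < 1 := by
  obtain ⟨I, hI⟩ : ∃ I : nonZeroDivisors (Ideal (𝓞 K)), (I : Ideal (𝓞 K)) = v.asIdeal :=
    ⟨⟨v.asIdeal, mem_nonZeroDivisors_of_ne_zero v.ne_bot⟩, rfl⟩
  obtain ⟨n, hn⟩ : ∃ n, n = Nat.card (ClassGroup (𝓞 K)) := ⟨_, rfl⟩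
  have hn0 : n ≠ 0 := by
    rw [hn]
    exact Nat.card_pos.ne'
  have h1 : ClassGroup.mk0 I ^ n = 1 := by
    rw [hn]
    exact pow_card_eq_one'
  rw [← map_pow, ClassGroup.mk0_eq_one_iff] at h1
  obtain ⟨t, ht⟩ := h1.principal
  have ht2 : v.asIdeal ^ n = Ideal.span {t} := by
    rw [← hI]
    exact_mod_cast ht
  have ht0 : t ≠ 0 := by
    rintro rfl
    apply v.ne_bot
    rw [Ideal.span_singleton_zero] at ht2
    exact eq_zero_of_pow_eq_zero ht2
  have htK : (t : K) ≠ 0 := RingOfIntegers.coe_ne_zero_iff.mpr ht0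
  have hmem : t ∈ v.asIdeal ^ n := by
    rw [ht2]
    exact Ideal.mem_span_singleton_self t
  refine ⟨Additive.ofMul (Units.mk0 (t : K) htK), ?_, ?_⟩
  · intro w hw
    change w.valuation K (algebraMap (𝓞 K) K t) = 1
    apply le_antisymm (w.valuation_le_one t)
    by_contra h
    push Not at h
    have h2 := (w.valuation_lt_one_iff_mem t).mp h
    apply hw
    have h3 : v.asIdeal ^ n ≤ w.asIdeal := by
      rw [ht2, Ideal.span_singleton_le_iff_mem]
      exact h2
    have h4 : v.asIdeal ≤ w.asIdeal := w.isPrime.le_of_pow_le h3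
    apply HeightOneSpectrum.ext
    exact (v.isMaximal.eq_of_le w.isPrime.ne_top h4).symm
  · change v.valuation K (algebraMap (𝓞 K) K t) < 1
    rw [v.valuation_lt_one_iff_mem]
    exact Ideal.pow_le_self hn0 hmem

private theorem Vp_sum {K : Type} [Field K] [NumberField K] (w : HeightOneSpectrum (𝓞 K))
    {ι : Type*} (F : Finset ι) (f : ι → Additive Kˣ) :
    w.valuation K ((Additive.toMul (∑ i ∈ F, f i) : Kˣ) : K) =
      ∏ i ∈ F, w.valuation K ((Additive.toMul (f i) : Kˣ) : K) := by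
  rw [toMul_sum, Units.coe_prod, map_prod]

private theorem Vp_smul {K : Type} [Field K] [NumberField K] (w : HeightOneSpectrum (𝓞 K))
    (g : K ≃ₐ[ℚ] K) (u : Additive Kˣ) :
    w.valuation K ((Additive.toMul (g • u) : Kˣ) : K) =
      (g⁻¹ • w).valuation K ((Additive.toMul u : Kˣ) : K) := by
  rw [smul_val, ← val_smul g (g⁻¹ • w), smul_inv_smul]

private theorem Vp_two {K : Type} [Field K] [NumberField K] (w : HeightOneSpectrum (𝓞 K))
    (u : Additive Kˣ) :
    w.valuation K ((Additive.toMul (2 • u) : Kˣ) : K) =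
      w.valuation K ((Additive.toMul u : Kˣ) : K) ^ 2 := by
  rw [toMul_nsmul, Units.val_pow_eq_pow_val, map_pow]

/-- the product over the stabilizer -/
private noncomputable def VpY {K : Type} [Field K] [NumberField K]
    (T : HeightOneSpectrum (𝓞 K) → Additive Kˣ) (r : HeightOneSpectrum (𝓞 K)) : Additive Kˣ :=
  ∑ g ∈ (Finset.univ : Finset (K ≃ₐ[ℚ] K)).filter (fun g => g • r = r), g • T r

private theorem VpY_stab {K : Type} [Field K] [NumberField K]
    (T : HeightOneSpectrum (𝓞 K) → Additive Kˣ) {r : HeightOneSpectrum (𝓞 K)} {d : K ≃ₐ[ℚ] K}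
    (hd : d • r = r) : d • VpY T r = VpY T r := by
  unfold VpY
  rw [Finset.smul_sum]
  have hd' : d⁻¹ • r = r := by
    nth_rewrite 1 [← hd]
    rw [inv_smul_smul]
  refine Finset.sum_nbij' (fun g => d * g) (fun g => d⁻¹ * g) ?_ ?_ ?_ ?_ ?_
  · intro g hg
    simp only [Finset.mem_filter, Finset.mem_univ, true_and] at hg ⊢
    rw [mul_smul, hg, hd]
  · intro g hg
    simp only [Finset.mem_filter, Finset.mem_univ, true_and] at hg ⊢
    rw [mul_smul, hg, hd']
  · intro g _
    exact inv_mul_cancel_left _ _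
  · intro g _
    exact mul_inv_cancel_left _ _
  · intro g _
    rw [mul_smul]

private theorem VpY_eq {K : Type} [Field K] [NumberField K]
    (T : HeightOneSpectrum (𝓞 K) → Additive Kˣ) {r : HeightOneSpectrum (𝓞 K)} {a b : K ≃ₐ[ℚ] K}
    (hd : a • r = b • r) : a • VpY T r = b • VpY T r := by
  have h1 : (b⁻¹ * a) • r = r := by
    rw [mul_smul, hd, inv_smul_smul]
  have h2 := VpY_stab T h1
  rw [mul_smul] at h2
  rw [← h2, smul_inv_smul]
  rw [h2]

private theorem VpY_one {K : Type} [Field K] [NumberField K]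
    {T : HeightOneSpectrum (𝓞 K) → Additive Kˣ}
    (hT : ∀ v w : HeightOneSpectrum (𝓞 K), w ≠ v →
      w.valuation K ((Additive.toMul (T v) : Kˣ) : K) = 1) {r w : HeightOneSpectrum (𝓞 K)}
    (hw : w ≠ r) : w.valuation K ((Additive.toMul (VpY T r) : Kˣ) : K) = 1 := by
  unfold VpY
  rw [Vp_sum]
  apply Finset.prod_eq_one
  intro g hg
  simp only [Finset.mem_filter, Finset.mem_univ, true_and] at hg
  rw [Vp_smul]
  apply hT
  intro h
  apply hw
  rw [← hg, ← h, smul_inv_smul]

private theorem VpY_lt {K : Type} [Field K] [NumberField K]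
    {T : HeightOneSpectrum (𝓞 K) → Additive Kˣ}
    (hT : ∀ v : HeightOneSpectrum (𝓞 K),
      v.valuation K ((Additive.toMul (T v) : Kˣ) : K) < 1) (r : HeightOneSpectrum (𝓞 K)) :
    r.valuation K ((Additive.toMul (VpY T r) : Kˣ) : K) < 1 := by
  unfold VpY
  rw [Vp_sum]
  have h1 : ∀ g ∈ (Finset.univ : Finset (K ≃ₐ[ℚ] K)).filter (fun g => g • r = r),
      r.valuation K ((Additive.toMul (g • T r) : Kˣ) : K) =
        r.valuation K ((Additive.toMul (T r) : Kˣ) : K) := by
    intro g hg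
    simp only [Finset.mem_filter, Finset.mem_univ, true_and] at hg
    have hg' : g⁻¹ • r = r := by
      nth_rewrite 1 [← hg]
      rw [inv_smul_smul]
    rw [Vp_smul, hg']
  rw [Finset.prod_congr rfl h1, Finset.prod_const]
  apply pow_lt_one₀ zero_le (hT r)
  apply Finset.card_ne_zero_of_mem (a := 1)
  simp

theorem exists_varpi (K : Type) [Field K] [NumberField K] :
    ∃ y : HeightOneSpectrum (𝓞 K) → Additive Kˣ, (∀ v, ∃ x : Additive Kˣ, y v = 2 • x) ∧
      (∀ v w : HeightOneSpectrum (𝓞 K), w ≠ v → w.valuation K ((Additive.toMul (y v) : Kˣ) : K) = 1) ∧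
      (∀ v : HeightOneSpectrum (𝓞 K), v.valuation K ((Additive.toMul (y v) : Kˣ) : K) < 1) ∧
      (∀ (g : K ≃ₐ[ℚ] K) (v : HeightOneSpectrum (𝓞 K)), y (g • v) = g • y v) := by
  choose T hT1 hT2 using (fun v : HeightOneSpectrum (𝓞 K) => Vp_one v)
  obtain ⟨rep, hrep1, hrep2⟩ : ∃ rep : HeightOneSpectrum (𝓞 K) → HeightOneSpectrum (𝓞 K),
      (∀ v, ∃ g : K ≃ₐ[ℚ] K, g • rep v = v) ∧ ∀ (g : K ≃ₐ[ℚ] K) v, rep (g • v) = rep v := by
    refine ⟨fun v => (Quotient.mk (MulAction.orbitRel (K ≃ₐ[ℚ] K) (HeightOneSpectrum (𝓞 K))) v).out,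
      ?_, ?_⟩
    · intro v
      have h := Quotient.mk_out (s := MulAction.orbitRel (K ≃ₐ[ℚ] K) (HeightOneSpectrum (𝓞 K))) v
      have h2 := (MulAction.orbitRel (K ≃ₐ[ℚ] K) (HeightOneSpectrum (𝓞 K))).symm h
      exact MulAction.orbitRel_apply.mp h2
    · intro g v
      have h : (Quotient.mk (MulAction.orbitRel (K ≃ₐ[ℚ] K) (HeightOneSpectrum (𝓞 K))) (g • v)) =
          (Quotient.mk (MulAction.orbitRel (K ≃ₐ[ℚ] K) (HeightOneSpectrum (𝓞 K))) v) := by
        apply Quotient.sound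
        exact MulAction.orbitRel_apply.mpr (MulAction.mem_orbit _ _)
      simp only [h]
  choose c hc using hrep1
  refine ⟨fun v => 2 • (c v • VpY T (rep v)), fun v => ⟨_, rfl⟩, ?_, ?_, ?_⟩
  · intro v w hw
    rw [Vp_two, Vp_smul, VpY_one hT1, one_pow]
    intro h
    apply hw
    rw [← hc v, ← h, smul_inv_smul]
  · intro v
    rw [Vp_two, Vp_smul]
    have h1 : (c v)⁻¹ • v = rep v := by
      nth_rewrite 2 [← hc v]
      rw [inv_smul_smul]
    rw [h1]
    exact pow_lt_one₀ zero_le (VpY_lt hT2 _) two_ne_zero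
  · intro g v
    have h1 : c (g • v) • VpY T (rep v) = (g * c v) • VpY T (rep v) := by
      apply VpY_eq
      rw [mul_smul, hc v]
      have h2 := hc (g • v)
      rw [hrep2] at h2
      exact h2
    change 2 • (c (g • v) • VpY T (rep (g • v))) = g • (2 • (c v • VpY T (rep v)))
    rw [hrep2, h1, mul_smul, smul_comm g 2]

end H24TD
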