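import Pool.Agent.H24.TD.Lo
import Pool.Agent.H24.TD.Vp

/-!
Row In. (about 150 lines): Galois equivariance of the local functions. val_smul: (g v)(g x) = v x. So ord at g v of g x is ord at v of x, g 2 = 2: OddP (g v) iff OddP v.
 eo (g v) (g c) = eo v c: sc (g (rep c)) = g c (smul_sc), eo_sc. si (w comp g^-1) (g c) = si w c.
 Sq (g v) (g x) iff Sq v x (x - t^2 with t replaced by g t). lam at g v w.r.t. the uniformizer g (unif v) of g x is lam at v w.r.t. unif v of x. Independence of the uniformizer: pi' = pi * u, u a unit: lam_(pi')(x) = lam_pi(x) + ord(x) lam_pi(u) (lam_mul for x * pi'^(-ord x) = (x pi^(-ord x)) * u^(-ord x); lam of a unit does not depend on pi: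
 lam_unit; parity of ord x). So the tame pairing v(x) lam(y) + v(y) lam(x) + v(x) v(y) lam(-1) does not change: the extra terms are v(x) v(y) lam(u) twice. Hence tp (g v) (g c) (g c') = tp v c c' (g (-1) = -1).
-/

set_option autoImplicit false
open scoped Classical

open WithZero NumberField IsDedekindDomain H38RT H38T1

namespace H24TD

variable {K : Type} [Field K] [NumberField K]

private theorem In_two (g : K ≃ₐ[ℚ] K) : g (2 : K) = 2 := map_ofNat g 2

private theorem In_ne (g : K ≃ₐ[ℚ] K) {x : K} (hx : x ≠ 0) : g x ≠ 0 := by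
  intro h
  exact hx (by simpa using h)

private theorem In_ord (g : K ≃ₐ[ℚ] K) (v : HeightOneSpectrum (𝓞 K)) (x : K) :
    ord ((g • v).valuation K) (g x) = ord (v.valuation K) x := by
  unfold ord
  rw [val_smul]

private theorem In_Sq (g : K ≃ₐ[ℚ] K) (v : HeightOneSpectrum (𝓞 K)) (x : K) :
    Sq ((g • v).valuation K) (g x) ↔ Sq (v.valuation K) x := by
  constructor
  · rintro ⟨t, ht⟩
    refine ⟨g.symm t, ?_⟩
    rw [← val_smul g v, map_sub, map_pow, g.apply_symm_apply]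
    exact ht
  · rintro ⟨t, ht⟩
    refine ⟨g t, ?_⟩
    rw [← map_pow, ← map_sub, val_smul]
    exact ht

private theorem In_lam (g : K ≃ₐ[ℚ] K) (v : HeightOneSpectrum (𝓞 K)) (π x : K) :
    lam ((g • v).valuation K) (g π) (g x) = lam (v.valuation K) π x := by
  unfold lam
  rw [In_ord, ← map_zpow₀, ← map_mul]
  simp only [In_Sq]

private theorem In_change {V : Valuation K (WithZero (Multiplicative ℤ))} {π₁ π₂ : K} {q₁ q₂ : ℕ}
    {d₁ d₂ : ℤ} {ψ₁ ψ₂ : AddChar K Circle} (h1 : Loc V π₁ q₁ d₁ ψ₁) (h2 : Loc V π₂ q₂ d₂ ψ₂)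
    (hV : V 2 = 1) {z : K} (hz : z ≠ 0) :
    lam V π₁ z = lam V π₂ z + (ord V z : ZMod 2) * lam V π₂ π₁ := by
  have hp : π₁ ≠ 0 := Ta_pi_ne h1
  have hu := Ta_unit h1 hz
  have e1 : lam V π₁ z = lam V π₂ (z * π₁ ^ (-ord V z)) := by
    rw [lam_unit hu]
    rfl
  have e2 : ∀ n : ℤ, lam V π₂ (π₁ ^ n) = (n : ZMod 2) * lam V π₂ π₁ := by
    intro n
    have e3 : ∀ k : ℤ, lam V π₂ (π₁ ^ (k + k)) = 0 := by
      intro k
      rw [zpow_add₀ hp, lam_mul h2 hV (zpow_ne_zero k hp) (zpow_ne_zero k hp)]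
      exact CharTwo.add_self_eq_zero _
    rcases Int.even_or_odd n with ⟨k, rfl⟩ | ⟨k, rfl⟩
    · rw [e3]
      push_cast
      rw [CharTwo.add_self_eq_zero, zero_mul]
    · rw [two_mul, zpow_add₀ hp, lam_mul h2 hV (zpow_ne_zero _ hp) (zpow_ne_zero _ hp), e3,
        zpow_one, zero_add]
      push_cast
      rw [CharTwo.add_self_eq_zero, zero_add, one_mul]
  rw [e1, lam_mul h2 hV hz (zpow_ne_zero _ hp), e2]
  push_cast
  rw [CharTwo.neg_eq]

private theorem In_tm {V : Valuation K (WithZero (Multiplicative ℤ))} {π₁ π₂ : K} {q₁ q₂ : ℕ}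
    {d₁ d₂ : ℤ} {ψ₁ ψ₂ : AddChar K Circle} (h1 : Loc V π₁ q₁ d₁ ψ₁) (h2 : Loc V π₂ q₂ d₂ ψ₂)
    (hV : V 2 = 1) {x y : K} (hx : x ≠ 0) (hy : y ≠ 0) : tm V π₁ x y = tm V π₂ x y := by
  have h3 : (-1 : K) ≠ 0 := neg_ne_zero.2 one_ne_zero
  have h4 : ord V (-1 : K) = 0 := Ta_ord_unit (by rw [Valuation.map_neg, map_one])
  unfold tm
  rw [In_change h1 h2 hV hx, In_change h1 h2 hV hy, In_change h1 h2 hV h3, h4]
  generalize (ord V x : ZMod 2) = a
  generalize (ord V y : ZMod 2) = b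
  generalize lam V π₂ x = e
  generalize lam V π₂ y = f
  generalize lam V π₂ π₁ = s
  generalize lam V π₂ (-1) = t
  rw [Int.cast_zero]
  revert a b e f s t
  decide

private theorem In_tp {v : HeightOneSpectrum (𝓞 K)} (hv : OddP v) {x y : K} (hx : x ≠ 0)
    (hy : y ≠ 0) : tp v (sc x) (sc y) = tm (v.valuation K) (unif v) x y := by
  unfold tp tm
  rw [eo_sc v hx, eo_sc v hy, la_sc hv hx, la_sc hv hy, la_sc hv (neg_ne_zero.2 one_ne_zero)]

theorem odd_smul (g : K ≃ₐ[ℚ] K) (v : HeightOneSpectrum (𝓞 K)) : OddP (g • v) ↔ OddP v := by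
  unfold OddP
  have h := val_smul g v 2
  rw [In_two] at h
  rw [h]

theorem eo_smul (g : K ≃ₐ[ℚ] K) (v : HeightOneSpectrum (𝓞 K)) (c : SC K) :
    eo (g • v) (g • c) = eo v c := by
  obtain ⟨x, hx, rfl⟩ := sc_surj c
  rw [smul_sc g hx, eo_sc _ (In_ne g hx), eo_sc v hx, In_ord]

theorem si_smul (g : K ≃ₐ[ℚ] K) (w : K →+* ℝ) (c : SC K) :
    si (w.comp (g : K →+* K)) c = si w (g • c) := by
  obtain ⟨x, hx, rfl⟩ := sc_surj c
  rw [smul_sc g hx, si_sc _ hx, si_sc w (In_ne g hx)]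
  rfl

theorem tp_smul (g : K ≃ₐ[ℚ] K) {v : HeightOneSpectrum (𝓞 K)} (hv : OddP v) (c c' : SC K) :
    tp (g • v) (g • c) (g • c') = tp v c c' := by
  obtain ⟨x, hx, rfl⟩ := sc_surj c
  obtain ⟨y, hy, rfl⟩ := sc_surj c'
  have hgv : OddP (g • v) := (odd_smul g v).2 hv
  obtain ⟨ψ, d, h⟩ := exists_psi K
  have h1 := exists_loc h (g • v) (unif_spec (g • v))
  have h2 := exists_loc h (g • v) (π := g (unif v)) (by rw [val_smul, unif_spec])
  rw [smul_sc g hx, smul_sc g hy, In_tp hgv (In_ne g hx) (In_ne g hy), In_tp hv hx hy,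
    In_tm h1 h2 hgv (In_ne g hx) (In_ne g hy)]
  unfold tm
  rw [In_ord, In_ord, In_lam, In_lam]
  have h3 : (-1 : K) = g (-1) := by rw [map_neg, map_one]
  have h4 := In_lam g v (unif v) (-1)
  rw [← h3] at h4
  rw [h4]

end H24TD
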