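import Pool.Agent.H24.TD.Mul
import Pool.Agent.H24.TD.Iso

/-!
Row Idx. (about 150 lines): N <= N' stable of finite index (N.relIndex N' <> 0): h(N'/2N') h(N[2]) = h(N/2N) h(N'[2]), where dbl A = 2A, tor A = A[2]. Use only hq_mul and hq_iso.
 Step (2N' <= N): chain 2N <= 2N' <= N <= N'.
   (a) hq N' (2N') = hq N (2N') * hq N' N   (hq_mul with A = N', B = N, C = 2N')
   (b) hq N (2N) = hq (2N') (2N) * hq N (2N')   (hq_mul with A = N, B = 2N', C = 2N)
   (c) let N1 = N sup tor N'. hq N' N = hq N1 N * hq N' N1 (hq_mul, 2N' <= N); hq N' N1 = hq (2N') (2N) (hq_iso with u = multiplication by two: x in N', 2x in 2N iff x in N + N'[2]; dbl N' = map);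
       hq N1 N = hq (tor N') (tor N) (hq_iso with u = id from A = tor N', B = tor N to A' = N1, B' = N: an element of N'[2] is in N iff it is in N[2]).
   (d) hq (tor N') bot = hq (tor N) bot * hq (tor N') (tor N) (hq_mul, 2 (tor N') = 0).
   So hq N' (2N') * hq (tor N) bot = hq N (2N') * hq (tor N') (tor N) * hq (2N') (2N) * hq (tor N) bot = hq N (2N) * hq (tor N') bot.
 Odd step: if N' = N sup 2N' and the index is finite then N'/N is a finite group with N'/N = 2 (N'/N), so multiplication by two is injective on it: x in N', 2x in N implies x in N. So N[2] = N'[2], N inf 2N' = 2N, and hq N' (2N') = hq N (2N) by hq_iso (u = id, A = N, B = 2N, A' = N', B' = 2N').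
 General case: strong induction on the index N.relIndex N': N1 := N sup dbl N' (stable). If N1 = N' use the odd step. Otherwise the index of N in N1 is smaller (relIndex N N1 * relIndex N1 N' = relIndex N N', AddSubgroup.relIndex_mul_relIndex, relIndex N1 N' >= 2),
   2N' <= N1: the step for (N1, N') and the induction hypothesis for (N, N1): h(N'/2) h(N1[2]) = h(N1/2) h(N'[2]), h(N1/2) h(N[2]) = h(N/2) h(N1[2]). Multiply: h(N'/2) h(N1[2]) h(N[2]) = h(N/2) h(N1[2]) h(N'[2]); cancel h(N1[2]), which is positive and finite: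
   this needs N1[2] finite and M finite: Hq is a finite set (M ->+ X/bot with values in the finite set N1[2]: hypothesis hT) and nonempty (the zero map). Use hT : (tor N' : Set X).Finite and [Finite M].
-/

set_option autoImplicit false

namespace H24TD

private lemma zs {X : Type*} [AddCommGroup X] (x : X) :
    (zsmulAddGroupHom (2 : ℤ) : X →+ X) x = (2 : ℤ) • x := rfl

private lemma gz {G X : Type*} [Group G] [AddCommGroup X] [DistribMulAction G X] (g : G) (x : X) :
    g • ((2 : ℤ) • x) = (2 : ℤ) • (g • x) :=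
  map_zsmul (DistribSMul.toAddMonoidHom X g) 2 x

private lemma stab_dbl {G X : Type*} [Group G] [AddCommGroup X] [DistribMulAction G X]
    {A : AddSubgroup X} (h : Stab G A) : Stab G (dbl A) := by
  rintro g _ ⟨a, ha, rfl⟩
  refine ⟨g • a, h g a ha, ?_⟩
  rw [zs, zs, gz]

private lemma stab_tor {G X : Type*} [Group G] [AddCommGroup X] [DistribMulAction G X]
    {A : AddSubgroup X} (h : Stab G A) : Stab G (tor A) := by
  intro g x hx
  rw [mem_tor] at hx ⊢
  refine ⟨h g x hx.1, ?_⟩
  rw [← gz, hx.2, smul_zero]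

private lemma stab_sup {G X : Type*} [Group G] [AddCommGroup X] [DistribMulAction G X]
    {A B : AddSubgroup X} (h : Stab G A) (h' : Stab G B) : Stab G (A ⊔ B) := by
  intro g x hx
  obtain ⟨a, ha, b, hb, rfl⟩ := AddSubgroup.mem_sup.1 hx
  rw [smul_add]
  exact AddSubgroup.mem_sup.2 ⟨_, h g a ha, _, h' g b hb, rfl⟩

private lemma stab_bot {G X : Type*} [Group G] [AddCommGroup X] [DistribMulAction G X] :
    Stab G (⊥ : AddSubgroup X) := by
  intro g x hx
  rw [AddSubgroup.mem_bot] at hx ⊢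
  rw [hx, smul_zero]

private lemma dbl_mono {X : Type*} [AddCommGroup X] {A B : AddSubgroup X} (h : A ≤ B) :
    dbl A ≤ dbl B := AddSubgroup.map_mono h

private lemma dbl_le {X : Type*} [AddCommGroup X] {A : AddSubgroup X} : dbl A ≤ A := by
  rintro _ ⟨a, ha, rfl⟩
  exact A.zsmul_mem ha 2

private lemma tor_mono {X : Type*} [AddCommGroup X] {A B : AddSubgroup X} (h : A ≤ B) :
    tor A ≤ tor B := inf_le_inf_right _ h

private lemma dbl_tor {X : Type*} [AddCommGroup X] {A : AddSubgroup X} : dbl (tor A) ≤ ⊥ := by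
  rintro _ ⟨a, ha, rfl⟩
  exact (mem_tor.1 ha).2

private lemma hq_step {G M X : Type*} [Group G] [Finite G] [AddCommGroup X] [DistribMulAction G X]
    [AddCommGroup M] [DistribMulAction G M] (hG : Odd (Nat.card G))
    {N N' : AddSubgroup X} (hN : Stab G N) (hN' : Stab G N') (hle : N ≤ N')
    (h2 : dbl N' ≤ N) :
    hq G M N' (dbl N') * hq G M (tor N) ⊥ = hq G M N (dbl N) * hq G M (tor N') ⊥ := by
  have sd := stab_dbl hN
  have sd' := stab_dbl hN'
  have st := stab_tor hN
  have st' := stab_tor hN'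
  have s1 : Stab G (N ⊔ tor N') := stab_sup hN st'
  have ha : hq G M N' (dbl N') = hq G M N (dbl N') * hq G M N' N :=
    hq_mul hG hN' hN sd' h2 hle le_rfl
  have hb : hq G M N (dbl N) = hq G M (dbl N') (dbl N) * hq G M N (dbl N') :=
    hq_mul hG hN sd' sd (dbl_mono hle) h2 le_rfl
  have hc : hq G M N' N = hq G M (N ⊔ tor N') N * hq G M N' (N ⊔ tor N') :=
    hq_mul hG hN' s1 hN le_sup_left (sup_le hle inf_le_left) h2
  have hc1 : hq G M N' (N ⊔ tor N') = hq G M (dbl N') (dbl N) := by
    refine hq_iso (zsmulAddGroupHom (2 : ℤ) : X →+ X) (fun g x => ?_) hN' s1 sd' sd le_rfl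
      le_sup_right ?_
    · rw [zs, zs, gz]
    · intro a ha
      constructor
      · rintro ⟨n, hn, h⟩
        rw [zs, zs] at h
        refine AddSubgroup.mem_sup.2 ⟨n, hn, a - n, mem_tor.2 ⟨N'.sub_mem ha (hle hn), ?_⟩, ?_⟩
        · rw [smul_sub, h, sub_self]
        · abel
      · intro h
        obtain ⟨n, hn, t, ht, rfl⟩ := AddSubgroup.mem_sup.1 h
        refine ⟨n, hn, ?_⟩
        rw [zs, zs, smul_add, (mem_tor.1 ht).2, add_zero]
  have hc2 : hq G M (tor N') (tor N) = hq G M (N ⊔ tor N') N := by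
    refine hq_iso (AddMonoidHom.id X) (fun g x => rfl) st' st s1 hN ?_ ?_ ?_
    · rw [AddSubgroup.map_id]
      exact le_sup_right
    · rw [AddSubgroup.map_id]
    · intro a ha
      rw [mem_tor] at ha
      rw [mem_tor, AddMonoidHom.id_apply]
      exact ⟨fun h => ⟨h, ha.2⟩, fun h => h.1⟩
  have hd : hq G M (tor N') ⊥ = hq G M (tor N) ⊥ * hq G M (tor N') (tor N) :=
    hq_mul hG st' st stab_bot bot_le (tor_mono hle) dbl_tor
  rw [ha, hb, hd, hc, hc1, hc2]
  ring

private lemma hq_odd {G M X : Type*} [Group G] [AddCommGroup X] [DistribMulAction G X]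
    [AddCommGroup M] [DistribMulAction G M]
    {N N' : AddSubgroup X} (hN : Stab G N) (hN' : Stab G N') (hle : N ≤ N')
    (hi : N.relIndex N' ≠ 0) (h2 : N' ≤ N ⊔ dbl N') :
    hq G M N' (dbl N') * hq G M (tor N) ⊥ = hq G M N (dbl N) * hq G M (tor N') ⊥ := by
  -- multiplication by two is injective on `N' / N`
  have key : ∀ x ∈ N', (2 : ℤ) • x ∈ N → x ∈ N := by
    have hfin : Finite (N' ⧸ N.addSubgroupOf N') := by
      have : (N.addSubgroupOf N').FiniteIndex := ⟨hi⟩
      infer_instance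
    let φ : (N' ⧸ N.addSubgroupOf N') →+ (N' ⧸ N.addSubgroupOf N') := zsmulAddGroupHom (2 : ℤ)
    have hφ : ∀ q, φ q = (2 : ℤ) • q := fun q => rfl
    have hs : Function.Surjective φ := by
      intro q
      obtain ⟨⟨y, hy⟩, rfl⟩ := QuotientAddGroup.mk_surjective q
      obtain ⟨n, hn, d, hd, hnd⟩ := AddSubgroup.mem_sup.1 (h2 hy)
      obtain ⟨z, hz, rfl⟩ := hd
      refine ⟨((⟨z, hz⟩ : N') : N' ⧸ N.addSubgroupOf N'), ?_⟩
      rw [hφ, ← QuotientAddGroup.mk_zsmul, QuotientAddGroup.eq, AddSubgroup.mem_addSubgroupOf]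
      have e : ((-((2 : ℤ) • (⟨z, hz⟩ : N')) + ⟨y, hy⟩ : N') : X) = n := by
        push_cast
        rw [← hnd, zs]
        abel
      rw [e]
      exact hn
    have hinj : Function.Injective φ := Finite.injective_iff_surjective.2 hs
    intro x hx h
    have h0 : φ ((⟨x, hx⟩ : N') : N' ⧸ N.addSubgroupOf N') = φ 0 := by
      rw [hφ, hφ, smul_zero, ← QuotientAddGroup.mk_zsmul, QuotientAddGroup.eq_zero_iff,
        AddSubgroup.mem_addSubgroupOf]
      exact h
    have h1 := hinj h0
    rw [QuotientAddGroup.eq_zero_iff, AddSubgroup.mem_addSubgroupOf] at h1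
    exact h1
  have e1 : tor N' = tor N := by
    apply le_antisymm _ (tor_mono hle)
    intro x hx
    rw [mem_tor] at hx ⊢
    refine ⟨key x hx.1 ?_, hx.2⟩
    rw [hx.2]
    exact N.zero_mem
  have e2 : hq G M N (dbl N) = hq G M N' (dbl N') := by
    refine hq_iso (AddMonoidHom.id X) (fun g x => rfl) hN (stab_dbl hN) hN' (stab_dbl hN') ?_ ?_ ?_
    · rw [AddSubgroup.map_id]
      exact hle
    · rw [AddSubgroup.map_id, sup_comm]
      exact h2
    · intro a ha
      rw [AddMonoidHom.id_apply]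
      constructor
      · rintro ⟨x, hx, rfl⟩
        exact ⟨x, key x hx ha, rfl⟩
      · exact fun h => dbl_mono hle h
  rw [e1, e2]

private lemma hq_pos' {G M X : Type*} [Group G] [AddCommGroup X] [DistribMulAction G X]
    [AddCommGroup M] [Finite M] [DistribMulAction G M] {T : AddSubgroup X}
    (hT : (T : Set X).Finite) : 0 < hq G M T ⊥ := by
  have hS : ((fun x : X => (x : X ⧸ (⊥ : AddSubgroup X))) '' (T : Set X)).Finite := hT.image _
  have hF : Finite ↥(Hq G M T ⊥) := by
    have : Finite ↥((fun x : X => (x : X ⧸ (⊥ : AddSubgroup X))) '' (T : Set X)) := hS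
    let j : ↥(Hq G M T ⊥) → M → ↥((fun x : X => (x : X ⧸ (⊥ : AddSubgroup X))) '' (T : Set X)) :=
      fun f m => ⟨f.1 m, by
        obtain ⟨a, ha, h⟩ := f.2.1 m
        exact ⟨a, ha, h.symm⟩⟩
    refine Finite.of_injective j ?_
    intro f g h
    apply Subtype.ext
    ext m
    have := congrArg Subtype.val (congrFun h m)
    exact this
  have hne : Nonempty ↥(Hq G M T ⊥) := by
    refine ⟨⟨0, ?_, ?_⟩⟩
    · intro m
      exact ⟨0, T.zero_mem, rfl⟩
    · intro g m x hx
      rw [AddMonoidHom.zero_apply] at hx ⊢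
      have h1 : x = 0 := by
        have := (QuotientAddGroup.eq_zero_iff x).1 hx.symm
        exact AddSubgroup.mem_bot.1 this
      rw [h1, smul_zero]
      rfl
  exact Nat.card_pos

theorem hq_index {G M X : Type*} [Group G] [Finite G] [AddCommGroup X] [DistribMulAction G X]
    [AddCommGroup M] [Finite M] [DistribMulAction G M] (hG : Odd (Nat.card G))
    {N N' : AddSubgroup X} (hN : Stab G N) (hN' : Stab G N') (hle : N ≤ N')
    (hi : N.relIndex N' ≠ 0) (hT : (tor N' : Set X).Finite) :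
    hq G M N' (dbl N') * hq G M (tor N) ⊥ = hq G M N (dbl N) * hq G M (tor N') ⊥ := by
  induction hk : N.relIndex N' using Nat.strong_induction_on generalizing N' with
  | _ k ih =>
    by_cases h : N' ≤ N ⊔ dbl N'
    · exact hq_odd hN hN' hle hi h
    have hs1 : Stab G (N ⊔ dbl N') := stab_sup hN (stab_dbl hN')
    have hl1 : N ⊔ dbl N' ≤ N' := sup_le hle dbl_le
    have hmul := AddSubgroup.relIndex_mul_relIndex N (N ⊔ dbl N') N' le_sup_left hl1
    have h0 : N.relIndex (N ⊔ dbl N') ≠ 0 := by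
      intro h0
      rw [h0, zero_mul] at hmul
      exact hi hmul.symm
    have h0' : (N ⊔ dbl N').relIndex N' ≠ 0 := by
      intro h0
      rw [h0, mul_zero] at hmul
      exact hi hmul.symm
    have h1 : (N ⊔ dbl N').relIndex N' ≠ 1 := by
      intro h1
      exact h (AddSubgroup.relIndex_eq_one.1 h1)
    have hlt : N.relIndex (N ⊔ dbl N') < k := by
      rw [← hk, ← hmul]
      have : 1 < (N ⊔ dbl N').relIndex N' := by omega
      exact lt_mul_of_one_lt_right (Nat.pos_of_ne_zero h0) this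
    have hT1 : (tor (N ⊔ dbl N') : Set X).Finite := hT.subset (tor_mono hl1)
    have e1 := ih _ hlt hs1 le_sup_left h0 hT1 rfl
    have e2 := hq_step (M := M) hG hs1 hN' hl1 le_sup_right
    have hp := hq_pos' (G := G) (M := M) hT1
    apply Nat.eq_of_mul_eq_mul_right hp
    calc hq G M N' (dbl N') * hq G M (tor N) ⊥ * hq G M (tor (N ⊔ dbl N')) ⊥
        = hq G M N' (dbl N') * hq G M (tor (N ⊔ dbl N')) ⊥ * hq G M (tor N) ⊥ := by ring
      _ = hq G M (N ⊔ dbl N') (dbl (N ⊔ dbl N')) * hq G M (tor N') ⊥ * hq G M (tor N) ⊥ := by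
          rw [e2]
      _ = hq G M (N ⊔ dbl N') (dbl (N ⊔ dbl N')) * hq G M (tor N) ⊥ * hq G M (tor N') ⊥ := by ring
      _ = hq G M N (dbl N) * hq G M (tor (N ⊔ dbl N')) ⊥ * hq G M (tor N') ⊥ := by rw [e1]
      _ = _ := by ring

end H24TD
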