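import Pool.Agent.H24.TD.JJ
import Pool.Agent.H24.TD.Idx
import Pool.Agent.H24.TD.Pm

/-!
Row SuF. (about 220 lines): the S-unit theorem. G = K ≃ₐ[ℚ] K of odd order, J from exists_J, Y := top.prod (supp Z S), N := Y.map J, N' := SUa K S, c0 := the constant function 1 in Fn G Z. Use only the statements of the imported files.
 (1) hq_index for N <= N': hq N' (dbl N') * hq (tor N) bot = hq N (dbl N) * hq (tor N') bot. tor N' = {0, class of -1} (2 x = 0 means x^2 = 1 in Kˣ: finite), tor N = bot: an element 2 z (z in Additive Kˣ) of N killed by two is x = z^2 with x^2 = 1, x = 1 or -1, -1 is not a square as K is totally real (has a real place). hq bot bot = 1 (hq_self).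
 (2) hq N (dbl N) = hq Y B with B := {y in Y : y.1 has all values of the same parity, y.2 has even values}: hq_iso with u = J (A = Y, B, A' = N, B' = dbl N): J y in dbl N iff J y = 2 J y' for some y' in Y iff J (y - 2 y') = 0 iff y.1 - 2 y'.1 is constant and y.2 = 2 y'.2.
 (3) hq_mul with dbl Y <= B <= Y: hq Y (dbl Y) = hq B (dbl Y) * hq Y B. B / dbl Y has two elements (classes of 0 and (c0, 0)), so hq B (dbl Y) = hq (tor N') bot by hq_triv (both have relIndex two).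
 (4) hence hq N' (dbl N') = hq Y B * hq (tor N') bot = hq Y (dbl Y) = hq (top) (dbl top) * hq (supp Z S) (dbl (supp Z S)) (hq_prod; dbl (A.prod A') = (dbl A).prod (dbl A')) = hq (top : Fn G (ZMod 2)) bot * hq (supp (ZMod 2) S) bot (pm_mod; top = supp univ).
 (5) hq (US K S) bot = hq N' (dbl N') by hq_iso with u = cls K (equivariant), A = N', B = dbl N', A' = US K S = map, B' = bot: cls x = 0 iff x is a square z^2 in Kˣ, and then z in N' (its valuations outside S are one), so x in dbl N'.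
-/

set_option autoImplicit false
open scoped Classical

open NumberField IsDedekindDomain H38T1

namespace H24TD

section Gen

variable {G X Y : Type*} [Group G] [AddCommGroup X] [DistribMulAction G X]
  [AddCommGroup Y] [DistribMulAction G Y]

lemma SuF_dbl_stab {A : AddSubgroup X} (hA : Stab G A) : Stab G (dbl A) := by
  rintro g x hx
  obtain ⟨a, ha, rfl⟩ := mem_dbl.mp hx
  exact mem_dbl.mpr ⟨g • a, hA g a ha, (map_zsmul (DistribSMul.toAddMonoidHom X g) 2 a).symm⟩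

lemma SuF_tor_stab {A : AddSubgroup X} (hA : Stab G A) : Stab G (tor A) := by
  rintro g x hx
  obtain ⟨ha, h2⟩ := mem_tor.mp hx
  refine mem_tor.mpr ⟨hA g x ha, ?_⟩
  have h3 := map_zsmul (DistribSMul.toAddMonoidHom X g) 2 x
  rw [h2, map_zero] at h3
  exact h3.symm

lemma SuF_bot_stab : Stab G (⊥ : AddSubgroup X) := by
  rintro g x hx
  rw [AddSubgroup.mem_bot] at hx ⊢
  rw [hx, smul_zero]

lemma SuF_map_stab {A : AddSubgroup X} (u : X →+ Y) (hu : ∀ (g : G) x, u (g • x) = g • u x)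
    (hA : Stab G A) : Stab G (A.map u) := by
  rintro g x ⟨a, ha, rfl⟩
  exact ⟨g • a, hA g a ha, hu g a⟩

omit [DistribMulAction G X] [DistribMulAction G Y] [Group G] in
lemma SuF_dbl_prod (A : AddSubgroup X) (A' : AddSubgroup Y) :
    dbl (A.prod A') = (dbl A).prod (dbl A') := by
  ext ⟨x, y⟩
  rw [mem_dbl, AddSubgroup.mem_prod, mem_dbl, mem_dbl]
  constructor
  · rintro ⟨⟨a, a'⟩, h1, h2⟩
    rw [AddSubgroup.mem_prod] at h1
    rw [Prod.smul_mk, Prod.mk.injEq] at h2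
    exact ⟨⟨a, h1.1, h2.1⟩, ⟨a', h1.2, h2.2⟩⟩
  · rintro ⟨⟨a, h1, h2⟩, ⟨a', h3, h4⟩⟩
    refine ⟨(a, a'), ⟨h1, h3⟩, ?_⟩
    rw [Prod.smul_mk, h2, h4]

end Gen

section Perm

variable {G ι : Type*} [Group G] [MulAction G ι]

/-- Functions whose values on the group have the same parity. -/
def SuF_B (G : Type*) [Group G] {ι : Type*} (S : Set ι) : AddSubgroup (Fn G ℤ × Fn ι ℤ) where
  carrier := {y | (∀ g, (2 : ℤ) ∣ y.1 g - y.1 1) ∧ (∀ i, (2 : ℤ) ∣ y.2 i) ∧ y.2 ∈ supp ℤ S}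
  zero_mem' := ⟨fun g => by change (2 : ℤ) ∣ 0 - 0; simp, fun i => dvd_zero _,
    (supp ℤ S).zero_mem⟩
  add_mem' := by
    rintro x y ⟨h1, h2, h3⟩ ⟨h4, h5, h6⟩
    refine ⟨fun g => ?_, fun i => dvd_add (h2 i) (h5 i), (supp ℤ S).add_mem h3 h6⟩
    have h7 := h1 g
    have h8 := h4 g
    change (2 : ℤ) ∣ (x.1 g + y.1 g) - (x.1 1 + y.1 1)
    omega
  neg_mem' := by
    rintro x ⟨h1, h2, h3⟩
    refine ⟨fun g => ?_, fun i => (dvd_neg.mpr (h2 i)), (supp ℤ S).neg_mem h3⟩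
    have h7 := h1 g
    change (2 : ℤ) ∣ (- x.1 g) - (- x.1 1)
    omega

omit [MulAction G ι] in
lemma SuF_mem_B {S : Set ι} {y : Fn G ℤ × Fn ι ℤ} : y ∈ SuF_B G S ↔
    (∀ g, (2 : ℤ) ∣ y.1 g - y.1 1) ∧ (∀ i, (2 : ℤ) ∣ y.2 i) ∧ y.2 ∈ supp ℤ S := Iff.rfl

omit [Group G] [MulAction G ι] in
lemma SuF_mem_dblY {S : Set ι} {y : Fn G ℤ × Fn ι ℤ} :
    y ∈ dbl ((⊤ : AddSubgroup (Fn G ℤ)).prod (supp ℤ S)) ↔
    (∀ g, (2 : ℤ) ∣ y.1 g) ∧ (∀ i, (2 : ℤ) ∣ y.2 i) ∧ y.2 ∈ supp ℤ S := by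
  rw [mem_dbl]
  constructor
  · rintro ⟨a, h1, rfl⟩
    rw [AddSubgroup.mem_prod] at h1
    refine ⟨fun g => ⟨a.1 g, ?_⟩, fun i => ⟨a.2 i, ?_⟩, ?_⟩
    · exact smul_eq_mul _ _
    · exact smul_eq_mul _ _
    · exact (supp ℤ S).zsmul_mem h1.2 2
  · rintro ⟨h1, h2, h3⟩
    refine ⟨(fun g => y.1 g / 2, fun i => y.2 i / 2), ?_, ?_⟩
    · rw [AddSubgroup.mem_prod]
      refine ⟨AddSubgroup.mem_top _, fun i hi => ?_⟩
      change y.2 i / 2 = 0
      rw [h3 i hi]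
      rfl
    · refine Prod.ext ?_ ?_
      · funext g
        change (2 : ℤ) • (y.1 g / 2) = y.1 g
        rw [smul_eq_mul]
        exact Int.mul_ediv_cancel' (h1 g)
      · funext i
        change (2 : ℤ) • (y.2 i / 2) = y.2 i
        rw [smul_eq_mul]
        exact Int.mul_ediv_cancel' (h2 i)

lemma SuF_B_stab {S : Set ι} (hst : StS G S) : Stab G (SuF_B G S) := by
  rintro g y ⟨h1, h2, h3⟩
  refine ⟨fun h => ?_, fun i => ?_, supp_stab hst g y.2 h3⟩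
  · have e1 : (g • y).1 h = y.1 (g⁻¹ * h) := rfl
    have e2 : (g • y).1 1 = y.1 (g⁻¹ * 1) := rfl
    rw [e1, e2]
    have h7 := h1 (g⁻¹ * h)
    have h8 := h1 (g⁻¹ * 1)
    omega
  · exact h2 (g⁻¹ • i)

lemma SuF_Y_stab {S : Set ι} (hst : StS G S) :
    Stab G ((⊤ : AddSubgroup (Fn G ℤ)).prod (supp ℤ S)) := by
  rintro g y hy
  rw [AddSubgroup.mem_prod] at hy ⊢
  exact ⟨AddSubgroup.mem_top _, supp_stab hst g y.2 hy.2⟩

omit [MulAction G ι] in
lemma SuF_idx {S : Set ι} :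
    (dbl ((⊤ : AddSubgroup (Fn G ℤ)).prod (supp ℤ S))).relIndex (SuF_B G S) = 2 := by
  rw [AddSubgroup.relIndex_eq_two_iff_exists_notMem_and]
  refine ⟨((fun _ => 1 : Fn G ℤ), 0), ⟨fun g => ?_, fun i => dvd_zero _, (supp ℤ S).zero_mem⟩,
    ?_, ?_⟩
  · change (2 : ℤ) ∣ 1 - 1
    simp
  · rw [SuF_mem_dblY]
    rintro ⟨h1, -⟩
    have h2 : (2 : ℤ) ∣ 1 := h1 1
    omega
  · rintro y ⟨h1, h2, h3⟩
    rw [SuF_mem_dblY, SuF_mem_dblY]
    rcases Int.even_or_odd (y.1 1) with h4 | h4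
    · right
      refine ⟨fun g => ?_, h2, h3⟩
      have h5 := h1 g
      have h6 := h4.two_dvd
      omega
    · left
      refine ⟨fun g => ?_, fun i => ?_, (supp ℤ S).add_mem h3 (supp ℤ S).zero_mem⟩
      · change (2 : ℤ) ∣ y.1 g + 1
        have h5 := h1 g
        obtain ⟨k, hk⟩ := h4
        omega
      · change (2 : ℤ) ∣ y.2 i + 0
        rw [add_zero]
        exact h2 i

end Perm

section Field

variable {K : Type} [Field K] [NumberField K]

omit [NumberField K] in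
lemma SuF_two (z : Additive Kˣ) : Additive.toMul ((2 : ℤ) • z) = (Additive.toMul z) ^ 2 := by
  change (Additive.toMul z) ^ (2 : ℤ) = _
  norm_cast

omit [NumberField K] in
lemma SuF_sq1 {z : Additive Kˣ} (h : (2 : ℤ) • z = 0) : z = 0 ∨ z = Additive.ofMul (-1) := by
  have h1 : (Additive.toMul z) ^ 2 = 1 := by
    rw [← SuF_two, h]
    rfl
  have h2 : ((Additive.toMul z : Kˣ) : K) * ((Additive.toMul z : Kˣ) : K) = 1 := by
    rw [← Units.val_mul, ← pow_two, h1, Units.val_one]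
  rcases mul_self_eq_one_iff.mp h2 with h3 | h3
  · left
    apply Additive.toMul.injective
    exact Units.ext h3
  · right
    apply Additive.toMul.injective
    exact Units.ext h3

end Field

section Main

variable {K : Type} [Field K] [NumberField K]

lemma SuF_SUa_stab {S : Set (HeightOneSpectrum (𝓞 K))} (hst : StS (K ≃ₐ[ℚ] K) S) :
    Stab (K ≃ₐ[ℚ] K) (SUa K S) := by
  intro g u hu
  rw [mem_SUa] at hu ⊢
  intro v hv
  rw [smul_val]
  have h1 : g⁻¹ • v ∉ S := by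
    intro h0
    apply hv
    have := hst g _ h0
    rwa [smul_inv_smul] at this
  have h2 := hu _ h1
  rw [← val_smul g, smul_inv_smul] at h2
  exact h2

lemma SuF_neg_one {S : Set (HeightOneSpectrum (𝓞 K))} :
    (Additive.ofMul (-1 : Kˣ)) ∈ tor (SUa K S) := by
  rw [mem_tor, mem_SUa]
  constructor
  · intro v hv
    change v.valuation K (((-1 : Kˣ) : Kˣ) : K) = 1
    rw [Units.val_neg, Units.val_one, Valuation.map_neg, map_one]
  · apply Additive.toMul.injective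
    rw [SuF_two]
    change (-1 : Kˣ) ^ 2 = 1
    simp

lemma SuF_tor_fin {S : Set (HeightOneSpectrum (𝓞 K))} :
    (tor (SUa K S) : Set (Additive Kˣ)).Finite := by
  refine Set.Finite.subset (Set.toFinite {0, Additive.ofMul (-1 : Kˣ)}) ?_
  intro z hz
  exact SuF_sq1 (mem_tor.mp hz).2

lemma SuF_tor_idx {S : Set (HeightOneSpectrum (𝓞 K))} :
    (⊥ : AddSubgroup (Additive Kˣ)).relIndex (tor (SUa K S)) = 2 := by
  rw [AddSubgroup.relIndex_eq_two_iff_exists_notMem_and]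
  refine ⟨Additive.ofMul (-1 : Kˣ), SuF_neg_one, ?_, ?_⟩
  · rw [AddSubgroup.mem_bot]
    intro h0
    have h1 : (-1 : Kˣ) = 1 := congrArg Additive.toMul h0
    have h2 : ((-1 : Kˣ) : K) = 1 := by rw [h1, Units.val_one]
    rw [Units.val_neg, Units.val_one] at h2
    have h3 : (2 : K) = 0 := by linear_combination -h2
    exact two_ne_zero h3
  · intro z hz
    rcases SuF_sq1 (mem_tor.mp hz).2 with h | h
    · right
      rw [h]
      exact AddSubgroup.zero_mem _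
    · left
      rw [AddSubgroup.mem_bot, h]
      apply Additive.toMul.injective
      change (-1 : Kˣ) * (-1 : Kˣ) = 1
      simp

lemma SuF_real [IsTotallyReal K] {w : Additive Kˣ} (h : (2 : ℤ) • ((2 : ℕ) • w) = 0) :
    (2 : ℕ) • w = 0 := by
  obtain ⟨v⟩ := (inferInstance : Nonempty (InfinitePlace K))
  have hv : v.IsReal := IsTotallyReal.isReal v
  set φ := InfinitePlace.embedding_of_isReal hv
  rcases SuF_sq1 h with h1 | h1
  · exact h1
  · exfalso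
    have h2 : (Additive.toMul w) ^ 2 = -1 := congrArg Additive.toMul h1
    have h3 : ((Additive.toMul w : Kˣ) : K) ^ 2 = -1 := by
      rw [← Units.val_pow_eq_pow_val, h2, Units.val_neg, Units.val_one]
    have h4 := congrArg φ h3
    rw [map_pow, map_neg, map_one] at h4
    have := sq_nonneg (φ ((Additive.toMul w : Kˣ) : K))
    linarith

omit [NumberField K] in
lemma SuF_cls_zero {z : Additive Kˣ} (h : cls K z = 0) : ∃ y : Additive Kˣ, (2 : ℤ) • y = z := by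
  have h1 : QuotientGroup.mk' (powMonoidHom 2 : Kˣ →* Kˣ).range (Additive.toMul z) = 1 := h
  rw [QuotientGroup.mk'_apply, QuotientGroup.eq_one_iff] at h1
  obtain ⟨y, hy⟩ := h1
  refine ⟨Additive.ofMul y, ?_⟩
  apply Additive.toMul.injective
  rw [SuF_two]
  exact hy

omit [NumberField K] in
lemma SuF_cls_dbl (y : Additive Kˣ) : cls K ((2 : ℤ) • y) = 0 := by
  have h1 : QuotientGroup.mk' (powMonoidHom 2 : Kˣ →* Kˣ).range
      (Additive.toMul ((2 : ℤ) • y)) = 1 := by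
    rw [QuotientGroup.mk'_apply, QuotientGroup.eq_one_iff, SuF_two]
    exact ⟨_, rfl⟩
  exact h1

lemma SuF_cls_mem {S : Set (HeightOneSpectrum (𝓞 K))} {a : Additive Kˣ} (ha : a ∈ SUa K S) :
    cls K a ∈ (⊥ : ASC K) ↔ a ∈ dbl (SUa K S) := by
  rw [mem_dbl]
  constructor
  · intro h
    obtain ⟨y, hy⟩ := SuF_cls_zero (AddSubgroup.mem_bot.mp h)
    refine ⟨y, ?_, hy⟩
    rw [mem_SUa] at ha ⊢
    intro v hv
    have h1 := ha v hv
    rw [← hy, SuF_two, Units.val_pow_eq_pow_val, map_pow] at h1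
    exact (pow_left_inj₀ zero_le zero_le two_ne_zero).mp (h1.trans (one_pow 2).symm)
  · rintro ⟨y, -, rfl⟩
    exact AddSubgroup.mem_bot.mpr (SuF_cls_dbl y)

lemma SuF_cls_smul (g : K ≃ₐ[ℚ] K) (z : Additive Kˣ) : cls K (g • z) = g • cls K z := rfl

lemma SuF_US_stab {S : Set (HeightOneSpectrum (𝓞 K))} (hst : StS (K ≃ₐ[ℚ] K) S) :
    Stab (K ≃ₐ[ℚ] K) (US K S) := by
  rintro g _ ⟨a, ha, rfl⟩
  exact ⟨g • a, SuF_SUa_stab hst g a ha, SuF_cls_smul g a⟩

lemma SuF_five {S : Set (HeightOneSpectrum (𝓞 K))} (hst : StS (K ≃ₐ[ℚ] K) S) (M : Type)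
    [AddCommGroup M] [DistribMulAction (K ≃ₐ[ℚ] K) M] :
    hq (K ≃ₐ[ℚ] K) M (SUa K S) (dbl (SUa K S)) = hq (K ≃ₐ[ℚ] K) M (US K S) ⊥ := by
  have hNs := SuF_SUa_stab hst
  have hUs := SuF_US_stab hst
  have hbs : Stab (K ≃ₐ[ℚ] K) (⊥ : ASC K) := SuF_bot_stab
  refine hq_iso (cls K) (SuF_cls_smul) hNs (SuF_dbl_stab hNs) hUs hbs ?_ ?_ ?_
  · rintro _ ⟨a, ha, rfl⟩
    exact ⟨a, ha, rfl⟩
  · refine le_trans ?_ le_sup_right
    rintro _ ⟨a, ha, rfl⟩
    exact ⟨a, ha, rfl⟩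
  · intro a ha
    exact SuF_cls_mem ha

theorem sunit_count {K : Type} [Field K] [NumberField K] [IsGalois ℚ K] [IsTotallyReal K]
    (hodd : Odd (Nat.card (K ≃ₐ[ℚ] K))) {S : Set (HeightOneSpectrum (𝓞 K))} (hS : S.Finite)
    (hst : StS (K ≃ₐ[ℚ] K) S) (M : Type) [AddCommGroup M] [Finite M]
    [DistribMulAction (K ≃ₐ[ℚ] K) M] :
    hq (K ≃ₐ[ℚ] K) M (US K S) ⊥ = Nat.card (M →+ ZMod 2) *
      hq (K ≃ₐ[ℚ] K) M (supp (ZMod 2) S : AddSubgroup (Fn (HeightOneSpectrum (𝓞 K)) (ZMod 2))) ⊥ := by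
  obtain ⟨J, hJe, hJm, hJ2, hJk, hJi⟩ := exists_J K hS hst
  have hYs := SuF_Y_stab hst
  have hBs := SuF_B_stab hst
  have hNs := SuF_SUa_stab hst
  set Y : AddSubgroup (Fn (K ≃ₐ[ℚ] K) ℤ × Fn (HeightOneSpectrum (𝓞 K)) ℤ) :=
    (⊤ : AddSubgroup (Fn (K ≃ₐ[ℚ] K) ℤ)).prod (supp ℤ S) with hY
  have hNst : Stab (K ≃ₐ[ℚ] K) (Y.map J) := SuF_map_stab J hJe hYs
  have hle : Y.map J ≤ SUa K S := by
    rintro _ ⟨y, -, rfl⟩
    exact hJm y
  -- (1)
  have e1 := hq_index (G := K ≃ₐ[ℚ] K) (M := M) hodd hNst hNs hle hJi SuF_tor_fin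
  have etor : tor (Y.map J) = ⊥ := by
    rw [eq_bot_iff]
    intro z hz
    obtain ⟨⟨y, -, rfl⟩, h2⟩ := mem_tor.mp hz
    obtain ⟨w, hw⟩ := hJ2 y
    rw [hw] at h2
    rw [AddSubgroup.mem_bot, hw]
    exact SuF_real h2
  rw [etor, hq_self SuF_bot_stab, mul_one] at e1
  -- (2)
  have e2 : hq (K ≃ₐ[ℚ] K) M Y (SuF_B (K ≃ₐ[ℚ] K) S) =
      hq (K ≃ₐ[ℚ] K) M (Y.map J) (dbl (Y.map J)) := by
    refine hq_iso J hJe hYs hBs hNst (SuF_dbl_stab hNst) le_rfl le_sup_right ?_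
    intro a ha
    rw [mem_dbl, SuF_mem_B]
    constructor
    · rintro ⟨_, ⟨y, hy, rfl⟩, h1⟩
      have h2 : J (a - (2 : ℤ) • y) = 0 := by
        rw [map_sub, map_zsmul, h1, sub_self]
      have h3 := (Y.sub_mem ha (Y.zsmul_mem hy 2))
      rw [hY, AddSubgroup.mem_prod] at h3
      obtain ⟨h4, h5⟩ := (hJk _ h3.2).mp h2
      have h4' : ∀ g, a.1 g - 2 * y.1 g = a.1 1 - 2 * y.1 1 := h4
      have h5' : ∀ i, a.2 i - 2 * y.2 i = 0 := fun i => congrFun h5 i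
      rw [hY, AddSubgroup.mem_prod] at ha
      refine ⟨fun g => ?_, fun i => ?_, ha.2⟩
      · have := h4' g
        omega
      · have := h5' i
        omega
    · rintro ⟨h1, h2, h3⟩
      choose c hc using h1
      choose d hd using h2
      have hyY : ((c, d) : Fn (K ≃ₐ[ℚ] K) ℤ × Fn (HeightOneSpectrum (𝓞 K)) ℤ) ∈ Y := by
        rw [hY, AddSubgroup.mem_prod]
        refine ⟨AddSubgroup.mem_top _, fun i hi => ?_⟩
        have h4 := h3 i hi
        have h5 := hd i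
        change d i = 0
        omega
      refine ⟨J (c, d), ⟨_, hyY, rfl⟩, ?_⟩
      have h3' : (a - (2 : ℤ) • ((c, d) : Fn (K ≃ₐ[ℚ] K) ℤ × Fn (HeightOneSpectrum (𝓞 K)) ℤ)) ∈ Y :=
        Y.sub_mem ha (Y.zsmul_mem hyY 2)
      rw [hY, AddSubgroup.mem_prod] at h3'
      have h4 : J (a - (2 : ℤ) • ((c, d) : Fn (K ≃ₐ[ℚ] K) ℤ × Fn (HeightOneSpectrum (𝓞 K)) ℤ)) = 0 := by
        refine (hJk _ h3'.2).mpr ⟨fun g => ?_, ?_⟩
        · change a.1 g - 2 * c g = a.1 1 - 2 * c 1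
          have h5 := hc g
          have h6 := hc 1
          omega
        · funext i
          change a.2 i - 2 * d i = 0
          have h5 := hd i
          omega
      rw [map_sub, map_zsmul, sub_eq_zero] at h4
      exact h4.symm
  -- (3)
  have hdB : dbl Y ≤ SuF_B (K ≃ₐ[ℚ] K) S := by
    intro y hy
    rw [hY, SuF_mem_dblY] at hy
    obtain ⟨h1, h2, h3⟩ := hy
    refine ⟨fun g => dvd_sub (h1 g) (h1 1), h2, h3⟩
  have hBY : SuF_B (K ≃ₐ[ℚ] K) S ≤ Y := by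
    rintro y ⟨h1, h2, h3⟩
    rw [hY, AddSubgroup.mem_prod]
    exact ⟨AddSubgroup.mem_top _, h3⟩
  have e3 := hq_mul (G := K ≃ₐ[ℚ] K) (M := M) hodd hYs hBs (SuF_dbl_stab hYs) hdB hBY le_rfl
  have e4 : hq (K ≃ₐ[ℚ] K) M (SuF_B (K ≃ₐ[ℚ] K) S) (dbl Y) =
      hq (K ≃ₐ[ℚ] K) M (tor (SUa K S)) ⊥ :=
    hq_triv hBs (SuF_dbl_stab hYs) (SuF_tor_stab hNs) SuF_bot_stab SuF_idx SuF_tor_idx hdB bot_le
  -- (4)
  have e5 : hq (K ≃ₐ[ℚ] K) M Y (dbl Y) = Nat.card (M →+ ZMod 2) *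
      hq (K ≃ₐ[ℚ] K) M
        (supp (ZMod 2) S : AddSubgroup (Fn (HeightOneSpectrum (𝓞 K)) (ZMod 2))) ⊥ := by
    rw [hY, SuF_dbl_prod, hq_prod, pm_mod hst]
    congr 1
    have h1 : ∀ (R : Type) [AddCommGroup R],
        (⊤ : AddSubgroup (Fn (K ≃ₐ[ℚ] K) R)) = supp R Set.univ := by
      intro R _
      symm
      rw [eq_top_iff]
      intro f _ i hi
      exact absurd (Set.mem_univ i) hi
    rw [h1 ℤ, pm_mod (fun _ _ _ => Set.mem_univ _), ← h1 (ZMod 2), pm_free]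
  rw [← SuF_five hst M, e1, ← e2, ← e4, ← e5, e3, mul_comm]

end Main

end H24TD
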