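import Pool.Agent.H24.TD.Gx
import Pool.Agent.H24.TD.Emb
import Pool.Agent.H24.TD.SuF
import Pool.Agent.H24.TD.In

/-!
Assembly (helper24): the first group modulo `b` embeds into a free module.
-/

set_option autoImplicit false
open scoped Classical

open WithZero NumberField IsDedekindDomain H38RT H38T1

namespace H24TD

variable {K : Type} [Field K] [NumberField K]

lemma SC_neg (c : SC K) : -c = c := neg_eq_of_add_eq_zero_left (SC_add_self c)

lemma tp_add {v : HeightOneSpectrum (𝓞 K)} (hv : OddP v) (c c' e : SC K) :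
    tp v (c + c') e = tp v c e + tp v c' e := by
  unfold tp
  rw [eo_add, la_add hv]
  ring

lemma tp_zero {v : HeightOneSpectrum (𝓞 K)} (hv : OddP v) (e : SC K) : tp v 0 e = 0 := by
  unfold tp
  rw [eo_zero, la_zero hv]
  ring

/-- The first group as a subgroup. -/
noncomputable def XA (L : LD K) (hL : L.Good) : AddSubgroup (SC K) where
  carrier := XX L
  zero_mem' := ⟨fun v _ _ => eo_zero v, fun v hv => tp_zero (hL.oddSg v hv) _,
    fun v hv => la_zero (hL.oddP v hv), fun _ w => si_zero w⟩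
  add_mem' := by
    rintro c c' ⟨h1, h2, h3, h4⟩ ⟨h1', h2', h3', h4'⟩
    refine ⟨fun v hv hv' => ?_, fun v hv => ?_, fun v hv => ?_, fun hτ w => ?_⟩
    · rw [eo_add, h1 v hv hv', h1' v hv hv', add_zero]
    · rw [tp_add (hL.oddSg v hv), h2 v hv, h2' v hv, add_zero]
    · rw [la_add (hL.oddP v hv), h3 v hv, h3' v hv, add_zero]
    · rw [si_add, h4 hτ w, h4' hτ w, add_zero]
  neg_mem' := by
    intro c hc
    rw [SC_neg]
    exact hc

lemma mem_XA {L : LD K} {hL : L.Good} {c : SC K} : c ∈ XA L hL ↔ c ∈ XX L := Iff.rfl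

/-- The subgroup generated by a class. -/
def two (b : SC K) : AddSubgroup (SC K) where
  carrier := {0, b}
  zero_mem' := Or.inl rfl
  add_mem' := by
    rintro x y (rfl | rfl) (rfl | rfl)
    · exact Or.inl (add_zero _)
    · exact Or.inr (zero_add _)
    · exact Or.inr (add_zero _)
    · exact Or.inl (SC_add_self _)
  neg_mem' := by
    intro c hc
    rw [SC_neg]
    exact hc

lemma mem_two {b c : SC K} : c ∈ two b ↔ c = 0 ∨ c = b := Iff.rfl

/-- The localization map. -/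
noncomputable def Th (L : LD K) (hL : L.Good) (w₀ : K →+* ℝ) :
    SC K →+ Fn (HeightOneSpectrum (𝓞 K)) (ZMod 2) ×
      (Fn (HeightOneSpectrum (𝓞 K)) (ZMod 2) × Fn (K ≃ₐ[ℚ] K) (ZMod 2)) :=
  AddMonoidHom.mk' (fun c => (fun v => if v ∈ L.Sg then tp v c (L.g v) else 0,
      (fun v => if OddP v then 0 else eo v c,
      fun γ => if L.τ = true then 0 else si (w₀.comp ((γ⁻¹ : K ≃ₐ[ℚ] K) : K →+* K)) c))) (by
    intro c c'
    refine Prod.ext ?_ (Prod.ext ?_ ?_)
    · funext v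
      change (if v ∈ L.Sg then tp v (c + c') (L.g v) else 0) =
        (if v ∈ L.Sg then tp v c (L.g v) else 0) + (if v ∈ L.Sg then tp v c' (L.g v) else 0)
      split_ifs with h
      · exact tp_add (hL.oddSg v h) _ _ _
      · rw [add_zero]
    · funext v
      change (if OddP v then 0 else eo v (c + c')) =
        (if OddP v then 0 else eo v c) + (if OddP v then 0 else eo v c')
      split_ifs with h
      · rw [add_zero]
      · exact eo_add _ _ _
    · funext γ
      change (if L.τ = true then 0 else si (w₀.comp ((γ⁻¹ : K ≃ₐ[ℚ] K) : K →+* K)) (c + c')) =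
        (if L.τ = true then 0 else si (w₀.comp ((γ⁻¹ : K ≃ₐ[ℚ] K) : K →+* K)) c) +
        (if L.τ = true then 0 else si (w₀.comp ((γ⁻¹ : K ≃ₐ[ℚ] K) : K →+* K)) c')
      split_ifs with h
      · rw [add_zero]
      · exact si_add _ _ _)

lemma Th_smul {L : LD K} {hL : L.Good} {w₀ : K →+* ℝ}
    (hSg : ∀ (γ : K ≃ₐ[ℚ] K), ∀ v ∈ L.Sg, γ • v ∈ L.Sg)
    (hg : ∀ (γ : K ≃ₐ[ℚ] K), ∀ v, L.g (γ • v) = L.g v ∧ γ • L.g v = L.g v)
    (γ : K ≃ₐ[ℚ] K) (c : SC K) : Th L hL w₀ (γ • c) = γ • Th L hL w₀ c := by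
  refine Prod.ext ?_ (Prod.ext ?_ ?_)
  · funext v
    change (if v ∈ L.Sg then tp v (γ • c) (L.g v) else 0) =
      (if γ⁻¹ • v ∈ L.Sg then tp (γ⁻¹ • v) c (L.g (γ⁻¹ • v)) else 0)
    have h1 : v ∈ L.Sg ↔ γ⁻¹ • v ∈ L.Sg := by
      constructor
      · exact hSg γ⁻¹ v
      · intro h
        have := hSg γ _ h
        rwa [smul_inv_smul] at this
    by_cases hv : v ∈ L.Sg
    · rw [if_pos hv, if_pos (h1.1 hv)]
      have h2 := tp_smul γ (hL.oddSg _ (h1.1 hv)) c (L.g (γ⁻¹ • v))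
      rw [smul_inv_smul] at h2
      rw [← h2]
      congr 1
      rw [(hg γ⁻¹ v).1, (hg γ v).2]
    · rw [if_neg hv, if_neg (fun h => hv (h1.2 h))]
  · funext v
    change (if OddP v then 0 else eo v (γ • c)) = (if OddP (γ⁻¹ • v) then 0 else eo (γ⁻¹ • v) c)
    have h1 := odd_smul γ⁻¹ v
    have h2 := eo_smul γ (γ⁻¹ • v) c
    rw [smul_inv_smul] at h2
    by_cases hv : OddP v
    · rw [if_pos hv, if_pos (h1.2 hv)]
    · rw [if_neg hv, if_neg (fun h => hv (h1.1 h)), h2]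
  · funext δ
    change (if L.τ = true then 0 else si (w₀.comp ((δ⁻¹ : K ≃ₐ[ℚ] K) : K →+* K)) (γ • c)) =
      (if L.τ = true then 0 else si (w₀.comp (((γ⁻¹ • δ)⁻¹ : K ≃ₐ[ℚ] K) : K →+* K)) c)
    split_ifs with h
    · rfl
    · rw [← si_smul]
      congr 1

lemma real_trans [IsGalois ℚ K] (w₀ w : K →+* ℝ) :
    ∃ γ : K ≃ₐ[ℚ] K, w = w₀.comp ((γ⁻¹ : K ≃ₐ[ℚ] K) : K →+* K) := by
  obtain ⟨σ, hσ⟩ := ComplexEmbedding.exists_comp_symm_eq_of_comp_eq (k := ℚ)
    (Complex.ofRealHom.comp w₀) (Complex.ofRealHom.comp w) (Subsingleton.elim _ _)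
  refine ⟨σ, ?_⟩
  ext x
  have := RingHom.congr_fun hσ x
  change ((w₀ (σ.symm x) : ℝ) : ℂ) = ((w x : ℝ) : ℂ) at this
  exact (Complex.ofReal_injective this).symm

lemma totallyReal [IsGalois ℚ K] (hodd : Odd (Module.finrank ℚ K)) : IsTotallyReal K := by
  constructor
  intro w
  have h1 : w.IsUnramified ℚ := by
    by_contra h
    exact Nat.not_even_iff_odd.2 hodd (InfinitePlace.even_finrank_of_not_isUnramified h)
  rcases InfinitePlace.isUnramified_iff.1 h1 with h | h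
  · exact h
  · exfalso
    have h2 : (w.comap (algebraMap ℚ K)).IsReal := IsTotallyReal.isReal _
    exact InfinitePlace.not_isReal_iff_isComplex.2 h h2

end H24TD
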