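import Pool.Agent.H24.TD.Em

/-!
Assembly (helper24): the first group modulo `b` embeds into a free module, end of the proof.
-/

set_option autoImplicit false
open scoped Classical

open WithZero NumberField IsDedekindDomain H38RT H38T1

namespace H24TD

variable {K : Type} [Field K] [NumberField K]

lemma ncard_supp {ι : Type*} {S : Set ι} (hS : S.Finite) :
    Nat.card (supp (ZMod 2) S) = 2 ^ S.ncard := by
  haveI : Fintype S := hS.fintype
  have e : supp (ZMod 2) S ≃ (S → ZMod 2) :=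
    { toFun := fun f i => f.1 i.1
      invFun := fun f => ⟨fun i => if h : i ∈ S then f ⟨i, h⟩ else 0, fun i hi => dif_neg hi⟩
      left_inv := by
        intro f
        apply Subtype.ext
        funext i
        by_cases h : i ∈ S
        · exact dif_pos h
        · exact (dif_neg h).trans (f.2 i h).symm
      right_inv := by
        intro f
        funext i
        exact dif_pos i.2 }
  rw [Nat.card_congr e, Nat.card_fun, Nat.card_zmod, Nat.card_eq_fintype_card,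
    ← Set.toFinset_card, ← Set.ncard_eq_toFinset_card']

/-- The main count. -/
theorem count [IsGalois ℚ K] (hodd : Odd (Module.finrank ℚ K)) {L : LD K} (hL : L.Good)
    (hP : L.P = ∅) (hN : NS (L.Sg ∪ L.P') ⊆ {(0 : SC K)})
    (hSg : ∀ (γ : K ≃ₐ[ℚ] K), ∀ v ∈ L.Sg, γ • v ∈ L.Sg)
    (hg : ∀ (γ : K ≃ₐ[ℚ] K), ∀ v, L.g (γ • v) = L.g v ∧ γ • L.g v = L.g v)
    (hP' : ∀ (γ : K ≃ₐ[ℚ] K), ∀ v ∈ L.P', γ • v ∈ L.P')
    (hfree : ∀ (γ : K ≃ₐ[ℚ] K), ∀ v ∈ L.P', γ • v = v → γ = 1) {m' : ℕ}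
    (hm : L.P'.ncard = m' * Module.finrank ℚ K) {b : SC K} (hD : ∃ d, d ≠ 0 ∧ XX' L = {0, d})
    (hb : b ∈ XX L) (hb0 : b ≠ 0) (hbγ : ∀ γ : K ≃ₐ[ℚ] K, γ • b = b) :
    (two b).relIndex (XA L hL) ≠ 0 ∧ Stab (K ≃ₐ[ℚ] K) (XA L hL) ∧
    Stab (K ≃ₐ[ℚ] K) (two b) ∧ two b ≤ XA L hL ∧
    ∀ (M : Type) [AddCommGroup M] [DistribMulAction (K ≃ₐ[ℚ] K) M] [Finite M],
      hq (K ≃ₐ[ℚ] K) M (XA L hL) (two b) =
        Nat.card (M →+ ZMod 2) ^ (m' + (if L.τ = true then 1 else 0)) := by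
  haveI : IsTotallyReal K := totallyReal hodd
  set n := Module.finrank ℚ K with hn
  have hcG : Nat.card (K ≃ₐ[ℚ] K) = n := IsGalois.card_aut_eq_finrank ℚ K
  have hG : Odd (Nat.card (K ≃ₐ[ℚ] K)) := by rw [hcG]; exact hodd
  -- the place `w₀`
  have hR : Nonempty (K →+* ℝ) := by
    rw [← Fintype.card_pos_iff, card_real]
    exact Module.finrank_pos
  obtain ⟨w₀⟩ := hR
  obtain ⟨So, hSo⟩ : ∃ So, So = L.Sg ∪ L.P' := ⟨_, rfl⟩
  rw [← hSo] at hN
  have hf : So.Finite := hSo ▸ (hL.finSg.union hL.finP')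
  have ho : ∀ v ∈ So, OddP v := by
    intro v hv
    rw [hSo] at hv
    rcases hv with hv | hv
    · exact hL.oddSg v hv
    · exact hL.oddP' v hv
  have hSon : So.ncard = L.Sg.ncard + L.P'.ncard := by
    rw [hSo, Set.ncard_union_eq hL.d2 hL.finSg hL.finP']
  have hdis : Disjoint So (S2 K) := by
    rw [Set.disjoint_left]
    intro v hv hv'
    exact hv' (ho v hv)
  haveI : Fintype So := hf.fintype
  haveI : Fintype (S2 K) := S2_fin.fintype
  -- the group of S-units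
  have hUcard : (UU So : Set (SC K)).ncard = 2 ^ (So.ncard + (S2 K).ncard + n) :=
    (cards hf ho hN ⊥ ⊤ (by
      intro y
      refine ⟨fun _ x hx => ?_, fun _ => trivial⟩
      rw [Submodule.mem_bot] at hx
      rw [hx, map_zero]
      rfl)).1
  have hUScard : (US K (So ∪ S2 K) : Set (SC K)).ncard = 2 ^ (So.ncard + (S2 K).ncard + n) := by
    have h1 := card_US (K := K) (S := So ∪ S2 K) (hf.union S2_fin)
    rw [Set.ncard_union_eq hdis hf S2_fin] at h1
    exact h1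
  have hUS : (US K (So ∪ S2 K) : Set (SC K)) = UU So :=
    Set.eq_of_subset_of_ncard_le US_le (by rw [hUScard, hUcard]) (UU_fin hf)
  have hUSm : ∀ c, c ∈ US K (So ∪ S2 K) ↔ c ∈ UU So := fun c => by
    rw [← hUS]
    rfl
  -- stability
  have stSg : StS (K ≃ₐ[ℚ] K) L.Sg := hSg
  have stP' : StS (K ≃ₐ[ℚ] K) L.P' := hP'
  have stS2 : StS (K ≃ₐ[ℚ] K) (S2 K) := fun γ v hv h => hv ((odd_smul γ v).1 h)
  have stSo : StS (K ≃ₐ[ℚ] K) So := by
    intro γ v hv
    rw [hSo] at hv ⊢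
    rcases hv with hv | hv
    · exact Or.inl (hSg γ v hv)
    · exact Or.inr (hP' γ v hv)
  have stS : StS (K ≃ₐ[ℚ] K) (So ∪ S2 K) := by
    rintro γ v (hv | hv)
    · exact Or.inl (stSo γ v hv)
    · exact Or.inr (stS2 γ v hv)
  have stUS : Stab (K ≃ₐ[ℚ] K) (US K (So ∪ S2 K)) := by
    intro γ c hc
    rw [hUSm] at hc ⊢
    intro v hv hv'
    have h2 := eo_smul γ (γ⁻¹ • v) c
    rw [smul_inv_smul] at h2
    rw [h2]
    refine hc _ (fun h => hv ?_) ((odd_smul γ⁻¹ v).2 hv')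
    have := stSo γ _ h
    rwa [smul_inv_smul] at this
  set Θ := Th L hL w₀ with hΘ
  have Θs : ∀ (γ : K ≃ₐ[ℚ] K) c, Θ (γ • c) = γ • Θ c := Th_smul hSg hg
  -- the kernel
  have hker : ∀ c, c ∈ US K (So ∪ S2 K) → (Θ c = 0 ↔ c ∈ XA L hL) := by
    intro c hc
    rw [hUSm] at hc
    rw [mem_XA]
    constructor
    · intro h
      have h1 : ∀ v, (if v ∈ L.Sg then tp v c (L.g v) else 0) = 0 := fun v =>
        congrFun (congrArg Prod.fst h) v
      have h2 : ∀ v, (if OddP v then 0 else eo v c) = 0 := fun v =>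
        congrFun (congrArg (fun x => x.2.1) h) v
      have h3 : ∀ γ : K ≃ₐ[ℚ] K, (if L.τ = true then 0 else
        si (w₀.comp ((γ⁻¹ : K ≃ₐ[ℚ] K) : K →+* K)) c) = 0 := fun γ =>
        congrFun (congrArg (fun x => x.2.2) h) γ
      refine ⟨fun v hv hv' => ?_, fun v hv => ?_, fun v hv => ?_, fun hτ w => ?_⟩
      · by_cases hvo : OddP v
        · refine hc v ?_ hvo
          rw [hSo]
          rintro (h | h)
          · exact hv h
          · exact hv' h
        · have := h2 v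
          rwa [if_neg hvo] at this
      · have := h1 v
        rwa [if_pos hv] at this
      · rw [hP] at hv
        exact absurd hv (Set.notMem_empty _)
      · obtain ⟨γ, rfl⟩ := real_trans w₀ w
        have := h3 γ
        rwa [if_neg (by rw [hτ]; decide)] at this
    · rintro ⟨h1, h2, h3, h4⟩
      refine Prod.ext ?_ (Prod.ext ?_ ?_)
      · funext v
        change (if v ∈ L.Sg then tp v c (L.g v) else 0) = 0
        split_ifs with h
        · exact h2 v h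
        · rfl
      · funext v
        change (if OddP v then 0 else eo v c) = 0
        split_ifs with h
        · rfl
        · refine h1 v ?_ ?_
          · exact fun h' => h (hL.oddSg _ h')
          · exact fun h' => h (hL.oddP' _ h')
      · funext γ
        change (if L.τ = true then 0 else si (w₀.comp ((γ⁻¹ : K ≃ₐ[ℚ] K) : K →+* K)) c) = 0
        split_ifs with h
        · rfl
        · exact h4 (by simpa using h) _
  have hXU : XA L hL ≤ US K (So ∪ S2 K) := by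
    intro c hc
    rw [hUSm]
    intro v hv hv'
    rw [hSo, Set.mem_union, not_or] at hv
    exact hc.1 v hv.1 hv.2
  have stX : Stab (K ≃ₐ[ℚ] K) (XA L hL) := by
    intro γ c hc
    have h1 := (hker c (hXU hc)).2 hc
    refine (hker (γ • c) (stUS γ c (hXU hc))).1 ?_
    rw [Θs, h1, smul_zero]
  have stb : Stab (K ≃ₐ[ℚ] K) (two b) := by
    rintro γ c (rfl | rfl)
    · exact Or.inl (smul_zero γ)
    · exact Or.inr (hbγ γ)
  have hbX : two b ≤ XA L hL := by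
    rintro c (rfl | rfl)
    · exact zero_mem _
    · exact hb
  have hXfin : (XX L).Finite := (UU_fin hf).subset fun c hc => (hUSm c).1 (hXU hc)
  have hfinr : (two b).relIndex (XA L hL) ≠ 0 := by
    haveI : Finite (XA L hL) := hXfin.to_subtype
    exact AddSubgroup.index_ne_zero_of_finite
  refine ⟨hfinr, stX, stb, hbX, ?_⟩
  intro M _ _ _
  -- the target
  set RT : AddSubgroup (Fn (K ≃ₐ[ℚ] K) (ZMod 2)) := if L.τ = true then ⊥ else ⊤ with hRT
  have stRT : Stab (K ≃ₐ[ℚ] K) RT := by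
    intro γ x hx
    rw [hRT] at hx ⊢
    split_ifs at hx ⊢ with h
    · rw [AddSubgroup.mem_bot] at hx ⊢
      rw [hx, smul_zero]
    · exact trivial
  set T := (supp (ZMod 2) L.Sg).prod ((supp (ZMod 2) (S2 K)).prod RT) with hT
  have stT : Stab (K ≃ₐ[ℚ] K) T := by
    rintro γ x ⟨h1, h2, h3⟩
    exact ⟨supp_stab stSg γ _ h1, supp_stab stS2 γ _ h2, stRT γ _ h3⟩
  have hΘT : (US K (So ∪ S2 K)).map Θ ≤ T := by
    rintro _ ⟨c, hc, rfl⟩
    refine ⟨fun v hv => ?_, fun v hv => ?_, ?_⟩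
    · exact if_neg hv
    · exact if_pos (not_not.1 hv)
    · change (Θ c).2.2 ∈ RT
      rw [hRT]
      split_ifs with h
      · rw [AddSubgroup.mem_bot]
        funext γ
        exact if_pos h
      · exact trivial
  have stI : Stab (K ≃ₐ[ℚ] K) ((US K (So ∪ S2 K)).map Θ) := by
    rintro γ _ ⟨c, hc, rfl⟩
    exact ⟨γ • c, stUS γ c hc, Θs γ c⟩
  have stbot1 : Stab (K ≃ₐ[ℚ] K) (⊥ : AddSubgroup (SC K)) := by
    intro γ x hx
    rw [AddSubgroup.mem_bot] at hx ⊢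
    rw [hx, smul_zero]
  have stbot2 : Stab (K ≃ₐ[ℚ] K) (⊥ : AddSubgroup (Fn (HeightOneSpectrum (𝓞 K)) (ZMod 2) ×
      (Fn (HeightOneSpectrum (𝓞 K)) (ZMod 2) × Fn (K ≃ₐ[ℚ] K) (ZMod 2)))) := by
    intro γ x hx
    rw [AddSubgroup.mem_bot] at hx ⊢
    rw [hx, smul_zero]
  -- cardinalities
  have hcardRT : Nat.card RT = 2 ^ (if L.τ = true then 0 else n) := by
    rw [hRT]
    split_ifs with h
    · rw [pow_zero]
      exact AddSubgroup.card_bot
    · rw [AddSubgroup.card_top]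
      have : Nat.card (Fn (K ≃ₐ[ℚ] K) (ZMod 2)) = Nat.card ((K ≃ₐ[ℚ] K) → ZMod 2) := rfl
      rw [this, Nat.card_fun, Nat.card_zmod, hcG]
  have hcardT : Nat.card T = 2 ^ (L.Sg.ncard + ((S2 K).ncard + (if L.τ = true then 0 else n))) := by
    rw [hT, Nat.card_congr (AddSubgroup.prodEquiv _ _).toEquiv, Nat.card_prod,
      Nat.card_congr (AddSubgroup.prodEquiv _ _).toEquiv, Nat.card_prod, ncard_supp hL.finSg,
      ncard_supp S2_fin, hcardRT, ← pow_add, ← pow_add]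
  have hgw := gw (K := K) hL (by
    rw [hP, Set.union_empty, ← hSo]
    exact hN)
  obtain ⟨d, hd0, hd⟩ := hD
  rw [hd, Set.ncard_pair (Ne.symm hd0), hP, Set.ncard_empty, pow_zero, mul_one] at hgw
  have hcardX : Nat.card (XA L hL) = 2 * 2 ^ (L.P'.ncard + (if L.τ = true then n else 0)) := by
    rw [hgw]
    rfl
  have hcardI : Nat.card (US K (So ∪ S2 K)) =
      Nat.card (XA L hL) * Nat.card ((US K (So ∪ S2 K)).map Θ) := by
    set ρ := (Θ.comp (US K (So ∪ S2 K)).subtype) with hρ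
    have h1 := AddSubgroup.card_mul_index ρ.ker
    rw [AddSubgroup.index_ker] at h1
    rw [← h1]
    congr 1
    · refine Nat.card_congr ⟨fun x => ⟨x.1.1, (hker _ x.1.2).1 x.2⟩,
        fun x => ⟨⟨x.1, hXU x.2⟩, (hker _ (hXU x.2)).2 x.2⟩, fun x => rfl, fun x => rfl⟩
    · have h2 : ρ.range = (US K (So ∪ S2 K)).map Θ := by
        ext x
        constructor
        · rintro ⟨c, rfl⟩
          exact ⟨c.1, c.2, rfl⟩
        · rintro ⟨c, hc, rfl⟩
          exact ⟨⟨c, hc⟩, rfl⟩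
      rw [h2]
  have hindex : ((US K (So ∪ S2 K)).map Θ).relIndex T = 2 := by
    have h1 : Nat.card ((US K (So ∪ S2 K)).map Θ) * ((US K (So ∪ S2 K)).map Θ).relIndex T =
        Nat.card T := by
      have := AddSubgroup.card_mul_index (((US K (So ∪ S2 K)).map Θ).addSubgroupOf T)
      rw [← this]
      congr 1
      exact Nat.card_congr (AddSubgroup.addSubgroupOfEquivOfLe hΘT).symm.toEquiv
    have h2 : Nat.card (US K (So ∪ S2 K)) = 2 ^ (So.ncard + (S2 K).ncard + n) := hUScard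
    rw [hcardI, hcardX, hSon] at h2
    rw [hcardT] at h1
    have h3 : 2 ^ (L.P'.ncard + (if L.τ = true then n else 0)) *
        (2 * Nat.card ((US K (So ∪ S2 K)).map Θ)) =
        2 ^ (L.P'.ncard + (if L.τ = true then n else 0)) *
        2 ^ (L.Sg.ncard + ((S2 K).ncard + (if L.τ = true then 0 else n))) := by
      rw [← pow_add]
      calc _ = 2 * 2 ^ (L.P'.ncard + (if L.τ = true then n else 0)) *
            Nat.card ((US K (So ∪ S2 K)).map Θ) := by ring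
        _ = _ := by
          rw [h2]
          congr 1
          split_ifs <;> ring
    have h4 := Nat.eq_of_mul_eq_mul_left (by positivity) h3
    rw [← h4] at h1
    have h5 : 0 < Nat.card ((US K (So ∪ S2 K)).map Θ) := by
      rcases Nat.eq_zero_or_pos (Nat.card ((US K (So ∪ S2 K)).map Θ)) with h | h
      · rw [h, mul_zero] at h4
        exact absurd h4.symm (by positivity)
      · exact h
    refine Nat.eq_of_mul_eq_mul_left h5 ?_
    rw [h1]
    ring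
  have hI2 : ∀ {X : Type} [AddCommGroup X], (∀ x : X, x + x = 0) → ∀ A : AddSubgroup X,
      dbl A ≤ ⊥ := by
    rintro X _ h A _ ⟨a, _, rfl⟩
    rw [AddSubgroup.mem_bot]
    change (2 : ℤ) • a = 0
    rw [two_zsmul]
    exact h a
  have hFn : ∀ {ι : Type} (x : Fn ι (ZMod 2)), x + x = 0 := by
    intro ι x
    funext i
    exact CharTwo.add_self_eq_zero (x i)
  have hY2 : ∀ x : Fn (HeightOneSpectrum (𝓞 K)) (ZMod 2) ×
      (Fn (HeightOneSpectrum (𝓞 K)) (ZMod 2) × Fn (K ≃ₐ[ℚ] K) (ZMod 2)), x + x = 0 := by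
    intro x
    exact Prod.ext (hFn _) (Prod.ext (hFn _) (hFn _))
  -- the counts
  have e1 := hq_mul (M := M) hG stUS stX stbot1 bot_le hXU (hI2 SC_add_self _)
  have e2 : hq (K ≃ₐ[ℚ] K) M (US K (So ∪ S2 K)) (XA L hL) =
      hq (K ≃ₐ[ℚ] K) M ((US K (So ∪ S2 K)).map Θ) ⊥ := by
    refine hq_iso Θ Θs stUS stX stI stbot2 le_rfl le_sup_right ?_
    intro a ha
    rw [AddSubgroup.mem_bot]
    exact hker a ha
  have e3 := hq_mul (M := M) hG stT stI stbot2 bot_le hΘT (hI2 hY2 _)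
  have h2b : (⊥ : AddSubgroup (SC K)).relIndex (two b) = 2 := by
    rw [AddSubgroup.relIndex_bot_left]
    have : Nat.card (two b) = ({0, b} : Set (SC K)).ncard := rfl
    rw [this, Set.ncard_pair (Ne.symm hb0)]
  have e4 : hq (K ≃ₐ[ℚ] K) M T ((US K (So ∪ S2 K)).map Θ) = hq (K ≃ₐ[ℚ] K) M (two b) ⊥ :=
    hq_triv stT stI stb stbot1 hindex h2b hΘT bot_le
  have e5 : hq (K ≃ₐ[ℚ] K) M T ⊥ = hq (K ≃ₐ[ℚ] K) M (supp (ZMod 2) L.Sg) ⊥ *
      (hq (K ≃ₐ[ℚ] K) M (supp (ZMod 2) (S2 K)) ⊥ * hq (K ≃ₐ[ℚ] K) M RT ⊥) := by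
    rw [← hq_prod, ← hq_prod, AddSubgroup.bot_prod_bot, AddSubgroup.bot_prod_bot]
  have e6 := sunit_count hG (hf.union S2_fin) stS M
  have e7 : hq (K ≃ₐ[ℚ] K) M (supp (ZMod 2) (So ∪ S2 K)) ⊥ =
      hq (K ≃ₐ[ℚ] K) M (supp (ZMod 2) L.Sg) ⊥ * hq (K ≃ₐ[ℚ] K) M (supp (ZMod 2) L.P') ⊥ *
      hq (K ≃ₐ[ℚ] K) M (supp (ZMod 2) (S2 K)) ⊥ := by
    rw [pm_union stSo stS2 hdis, hSo, pm_union stSg stP' hL.d2]
  have e8 := pm_orbits (M := M) stP' hL.finP' hfree (m := m') (by rw [hm, hcG])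
  have e9 := hq_mul (M := M) hG stX stb stbot1 bot_le hbX (hI2 SC_add_self _)
  have p1 : 0 < hq (K ≃ₐ[ℚ] K) M (supp (ZMod 2) L.Sg) ⊥ := by
    refine hq_pos (supp_stab stSg) ?_ ?_
    · intro γ x hx
      rw [AddSubgroup.mem_bot] at hx ⊢
      rw [hx, smul_zero]
    · rw [AddSubgroup.relIndex_bot_left, ncard_supp hL.finSg]
      positivity
  have p2 : 0 < hq (K ≃ₐ[ℚ] K) M (supp (ZMod 2) (S2 K)) ⊥ := by
    refine hq_pos (supp_stab stS2) ?_ ?_
    · intro γ x hx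
      rw [AddSubgroup.mem_bot] at hx ⊢
      rw [hx, smul_zero]
    · rw [AddSubgroup.relIndex_bot_left, ncard_supp S2_fin]
      positivity
  have p3 : 0 < hq (K ≃ₐ[ℚ] K) M (two b) ⊥ :=
    hq_pos stb stbot1 (by rw [h2b]; decide)
  have e10 : hq (K ≃ₐ[ℚ] K) M RT ⊥ = (if L.τ = true then 1 else Nat.card (M →+ ZMod 2)) := by
    rw [hRT]
    split_ifs with h
    · refine hq_self ?_
      intro γ x hx
      rw [AddSubgroup.mem_bot] at hx ⊢
      rw [hx, smul_zero]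
    · exact pm_free
  have p4 : 0 < Nat.card (M →+ ZMod 2) := by
    haveI : Finite (M →+ ZMod 2) := Finite.of_injective (fun f => (f : M → ZMod 2))
      DFunLike.coe_injective
    exact Nat.card_pos
  rw [e2] at e1
  rw [e4] at e3
  rw [e7, e8] at e6
  rw [e5] at e3
  obtain ⟨X, hX⟩ : ∃ X, X = Nat.card (M →+ ZMod 2) := ⟨_, rfl⟩
  rw [← hX] at e6 e10 p4 ⊢
  have main : hq (K ≃ₐ[ℚ] K) M (supp (ZMod 2) L.Sg) ⊥ * hq (K ≃ₐ[ℚ] K) M (supp (ZMod 2) (S2 K)) ⊥ *
      hq (K ≃ₐ[ℚ] K) M (two b) ⊥ * (hq (K ≃ₐ[ℚ] K) M (XA L hL) (two b) *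
        hq (K ≃ₐ[ℚ] K) M RT ⊥) =
      hq (K ≃ₐ[ℚ] K) M (supp (ZMod 2) L.Sg) ⊥ * hq (K ≃ₐ[ℚ] K) M (supp (ZMod 2) (S2 K)) ⊥ *
      hq (K ≃ₐ[ℚ] K) M (two b) ⊥ * (X * X ^ m') := by
    calc _ = (hq (K ≃ₐ[ℚ] K) M (two b) ⊥ * hq (K ≃ₐ[ℚ] K) M (XA L hL) (two b)) *
          (hq (K ≃ₐ[ℚ] K) M (supp (ZMod 2) L.Sg) ⊥ * (hq (K ≃ₐ[ℚ] K) M (supp (ZMod 2) (S2 K)) ⊥ *
            hq (K ≃ₐ[ℚ] K) M RT ⊥)) := by ring
      _ = (hq (K ≃ₐ[ℚ] K) M (XA L hL) ⊥ * hq (K ≃ₐ[ℚ] K) M ((US K (So ∪ S2 K)).map Θ) ⊥) *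
          hq (K ≃ₐ[ℚ] K) M (two b) ⊥ := by rw [← e9, e3]; ring
      _ = _ := by rw [← e1, e6]; ring
  have main2 := Nat.eq_of_mul_eq_mul_left (by positivity) main
  rw [e10] at main2
  split_ifs at main2 ⊢ with h
  · rw [mul_one] at main2
    rw [main2]
    ring
  · rw [add_zero]
    have h3 : X * hq (K ≃ₐ[ℚ] K) M (XA L hL) (two b) = X * X ^ m' := by
      rw [← main2]
      ring
    exact Nat.eq_of_mul_eq_mul_left p4 h3

/-- The first group modulo `b` is a free module over the group ring. -/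
theorem embed [IsGalois ℚ K] (hodd : Odd (Module.finrank ℚ K)) {L : LD K} (hL : L.Good)
    (hP : L.P = ∅) (hN : NS (L.Sg ∪ L.P') ⊆ {(0 : SC K)})
    (hSg : ∀ (γ : K ≃ₐ[ℚ] K), ∀ v ∈ L.Sg, γ • v ∈ L.Sg)
    (hg : ∀ (γ : K ≃ₐ[ℚ] K), ∀ v, L.g (γ • v) = L.g v ∧ γ • L.g v = L.g v)
    (hP' : ∀ (γ : K ≃ₐ[ℚ] K), ∀ v ∈ L.P', γ • v ∈ L.P')
    (hfree : ∀ (γ : K ≃ₐ[ℚ] K), ∀ v ∈ L.P', γ • v = v → γ = 1) {m' : ℕ}
    (hm : L.P'.ncard = m' * Module.finrank ℚ K) {b δ : SC K} (hD : ∃ d, d ≠ 0 ∧ XX' L = {0, d})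
    (hb : b ∈ XX L) (hb0 : b ≠ 0) (hbγ : ∀ γ : K ≃ₐ[ℚ] K, γ • b = b) (hδ0 : δ ≠ 0) (hδb : δ ≠ b)
    (hδγ : ∀ γ : K ≃ₐ[ℚ] K, γ • δ = δ) :
    ∃ φ : Fin (m' + (if L.τ = true then 1 else 0)) → (SC K →+ ZMod 2), (∀ j, φ j b = 0) ∧
      (∀ c ∈ XX L, (∀ j, ∀ γ : K ≃ₐ[ℚ] K, φ j (γ • c) = 0) → c = 0 ∨ c = b) ∧
      (δ ∈ XX L → ∀ j, φ j δ = 1) := by
  obtain ⟨k1, k2, k3, k4, k5⟩ := count hodd hL hP hN hSg hg hP' hfree hm hD hb hb0 hbγ
  have hcG : Nat.card (K ≃ₐ[ℚ] K) = Module.finrank ℚ K := IsGalois.card_aut_eq_finrank ℚ K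
  have hG : Odd (Nat.card (K ≃ₐ[ℚ] K)) := by rw [hcG]; exact hodd
  obtain ⟨φ, h1, h2⟩ := hq_embed hG SC_add_self k2 k3 k4 k1
    (m' + (if L.τ = true then 1 else 0)) (fun M _ _ _ _ => (k5 M).le)
  by_cases hδ : δ ∈ XX L
  · have h3 : ∃ j, φ j δ ≠ 0 := by
      by_contra hcon
      push Not at hcon
      rcases h2 δ hδ (fun j γ => by rw [hδγ]; exact hcon j) with h | h
      · exact hδ0 h
      · exact hδb h
    obtain ⟨j₀, hj₀⟩ := h3
    have hj1 : φ j₀ δ = 1 := by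
      have h01 : ∀ x : ZMod 2, x ≠ 0 → x = 1 := by decide
      exact h01 _ hj₀
    refine ⟨fun j => if j = j₀ then φ j₀ else φ j + (if φ j δ = 0 then φ j₀ else 0), ?_, ?_, ?_⟩
    · intro j
      by_cases h : j = j₀
      · simp only [h, if_true]
        exact h1 j₀ b (Or.inr rfl)
      · simp only [h, if_false]
        rw [AddMonoidHom.add_apply, h1 j b (Or.inr rfl), zero_add]
        split_ifs
        · exact h1 j₀ b (Or.inr rfl)
        · rfl
    · intro c hc hh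
      refine h2 c hc (fun j γ => ?_)
      have e0 := hh j₀ γ
      simp only [if_true] at e0
      by_cases h : j = j₀
      · rw [h]
        exact e0
      · have e1 := hh j γ
        simp only [h, if_false] at e1
        rw [AddMonoidHom.add_apply] at e1
        split_ifs at e1
        · rw [e0, add_zero] at e1
          exact e1
        · rw [AddMonoidHom.zero_apply, add_zero] at e1
          exact e1
    · intro _ j
      by_cases h : j = j₀
      · simp only [h, if_true]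
        exact hj1
      · simp only [h, if_false]
        rw [AddMonoidHom.add_apply]
        split_ifs with h'
        · rw [h', zero_add, hj1]
        · have h01 : ∀ x : ZMod 2, x ≠ 0 → x = 1 := by decide
          rw [AddMonoidHom.zero_apply, add_zero]
          exact h01 _ h'
  · refine ⟨φ, fun j => h1 j b (Or.inr rfl), fun c hc hh => h2 c hc hh, fun h => absurd h hδ⟩

end H24TD
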