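import Pool.Agent.H24.TD.Un
import Pool.Agent.H24.TD.Dg

/-!
Row Ep. (about 200 lines): an equivariant family of units. K/Q Galois, totally real. Use units_indep. Fix a place w0. By dirichletUnitTheorem.exists_unit there is t in (𝓞 K)ˣ with log (w t) < 0 for all w <> w0. For g in G = Gal(K/Q) put e g := (g t)^2 (as an element of Kˣ). |g t| at w is |t| at g^-1 w (InfinitePlace.smul_apply or so: (g . w) x = w (g^-1 x));
 the places are g w0, g in G, all different (K totally real: the action is simply transitive: NumberField.InfinitePlace.exists_smul_eq_of_comap_eq gives transitivity; card of G = finrank = number of real places = card of places (IsTotallyReal.finrank), so the surjection g |-> g w0 is a bijection). So log (w (g t)) < 0 for w <> g w0.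
 (1) valuations one: units of 𝓞 K. (2) e (g h) = g (e h). (3) prod over g of e g = (norm t)^2 = 1: the product over g of g t is the image of the norm (Algebra.norm_eq_prod_automorphisms) which is +-1 for a unit (NumberField.isUnit_iff_norm or: the product x is fixed by G, so rational, and a unit of 𝓞 K: +-1). Its square is 1.
 (4) squares. (5) if prod (e g)^(c g) = 1 then, dividing by (prod e g)^(c 1) = 1: prod (e g)^(c g - c 1) = 1, a relation among the u w := t-conjugates squared with exponent zero at w0 (g = 1); units_indep (a) applied to u (g w0) := g t, exponents 2 (c g - c 1): so c g = c 1.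
 (6) the group of units of 𝓞 K, as the additive subgroup SUa K (empty) of Additive Kˣ, contains the closure of the e g with finite index: the closure of the g t, g <> 1, has finite index in (𝓞 K)ˣ (units_indep (b)), and squares of a finitely generated abelian group have finite index; or: every unit x has x^n in the closure of
   the g t for n = index, so x^(2n) in the closure of the e g, and (𝓞 K)ˣ is finitely generated, so the quotient is a finitely generated torsion abelian group, finite. SUa K (empty) corresponds to the units of 𝓞 K: a nonzero x in K with all valuations one is a unit (HeightOneSpectrum.mem_integers_of_valuation_le_one for x and x^-1).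
-/

set_option autoImplicit false
open scoped Classical

open NumberField IsDedekindDomain H38T1

namespace H24TD

section Ep

variable {K : Type} [Field K] [NumberField K]

/-- The action on the units. -/
noncomputable def Ep_act (g : K ≃ₐ[ℚ] K) : (𝓞 K)ˣ →* (𝓞 K)ˣ :=
  (Units.mapEquiv (RingOfIntegers.mapRingEquiv (g : K ≃+* K)).toMulEquiv).toMonoidHom

lemma Ep_act_val (g : K ≃ₐ[ℚ] K) (t : (𝓞 K)ˣ) :
    ((Ep_act g t : 𝓞 K) : K) = g ((t : 𝓞 K) : K) := rfl

variable (K) in
/-- The units of the integers as elements of `K`. -/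
noncomputable def Ep_kap : Additive (𝓞 K)ˣ →+ Additive Kˣ :=
  MonoidHom.toAdditive (Units.map (algebraMap (𝓞 K) K : 𝓞 K →* K))

lemma Ep_kap_val (t : (𝓞 K)ˣ) :
    ((Additive.toMul (Ep_kap K (Additive.ofMul t)) : Kˣ) : K) = ((t : 𝓞 K) : K) := rfl

lemma Ep_kap_smul (g : K ≃ₐ[ℚ] K) (t : (𝓞 K)ˣ) :
    Ep_kap K (Additive.ofMul (Ep_act g t)) = g • Ep_kap K (Additive.ofMul t) := by
  apply Additive.toMul.injective
  apply Units.ext
  rfl

lemma Ep_kap_inj : Function.Injective (Ep_kap K) := by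
  intro x y h
  have h1 : ((Additive.toMul (Ep_kap K x) : Kˣ) : K) = ((Additive.toMul (Ep_kap K y) : Kˣ) : K) := by
    rw [h]
  apply Additive.toMul.injective
  apply Units.ext
  exact RingOfIntegers.coe_injective h1

lemma Ep_val_unit (v : HeightOneSpectrum (𝓞 K)) (t : (𝓞 K)ˣ) :
    v.valuation K ((t : 𝓞 K) : K) = 1 := by
  have h1 := v.valuation_le_one (K := K) (t : 𝓞 K)
  have h2 := v.valuation_le_one (K := K) ((t⁻¹ : (𝓞 K)ˣ) : 𝓞 K)
  have h3 : v.valuation K ((t : 𝓞 K) : K) * v.valuation K (((t⁻¹ : (𝓞 K)ˣ) : 𝓞 K) : K) = 1 := by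
    rw [← map_mul, ← map_mul, Units.mul_inv, map_one, map_one]
  refine le_antisymm h1 ?_
  rw [← h3]
  exact mul_le_of_le_one_right' h2

lemma Ep_range : (Ep_kap K).range = SUa K ∅ := by
  ext u
  constructor
  · rintro ⟨t, rfl⟩ v _
    exact Ep_val_unit v (Additive.toMul t)
  · intro hu
    have h1 : ∀ v : HeightOneSpectrum (𝓞 K), v.valuation K ((Additive.toMul u : Kˣ) : K) = 1 :=
      fun v => hu v (Set.notMem_empty v)
    obtain ⟨x, hx⟩ := HeightOneSpectrum.mem_integers_of_valuation_le_one K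
      ((Additive.toMul u : Kˣ) : K) (fun v => (h1 v).le)
    obtain ⟨y, hy⟩ := HeightOneSpectrum.mem_integers_of_valuation_le_one K
      (((Additive.toMul u)⁻¹ : Kˣ) : K) (fun v => by
        rw [Units.val_inv_eq_inv_val, map_inv₀, h1 v, inv_one])
    have hxy : x * y = 1 := by
      apply RingOfIntegers.coe_injective
      have h2 : algebraMap (𝓞 K) K (x * y) = algebraMap (𝓞 K) K 1 := by
        rw [map_mul, hx, hy, map_one, Units.mul_inv]
      exact h2
    refine ⟨Additive.ofMul ⟨x, y, hxy, by rw [mul_comm]; exact hxy⟩, ?_⟩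
    apply Additive.toMul.injective
    apply Units.ext
    exact hx

lemma Ep_norm [IsGalois ℚ K] (t : (𝓞 K)ˣ) : (∏ g : K ≃ₐ[ℚ] K, Ep_act g t) ^ 2 = 1 := by
  apply Units.ext
  apply RingOfIntegers.coe_injective
  have h1 : |((RingOfIntegers.norm ℚ (t : 𝓞 K) : 𝓞 ℚ) : ℚ)| = 1 := isUnit_iff_norm.1 t.isUnit
  have h2 : ((RingOfIntegers.norm ℚ (t : 𝓞 K) : 𝓞 ℚ) : ℚ) = Algebra.norm ℚ ((t : 𝓞 K) : K) :=
    RingOfIntegers.coe_norm ℚ (t : 𝓞 K)
  have h3 := Algebra.norm_eq_prod_automorphisms ℚ ((t : 𝓞 K) : K)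
  have h4 : ((((∏ g : K ≃ₐ[ℚ] K, Ep_act g t) ^ 2 : (𝓞 K)ˣ) : 𝓞 K) : K) =
      (∏ g : K ≃ₐ[ℚ] K, g ((t : 𝓞 K) : K)) ^ 2 := by
    show algebraMap (𝓞 K) K (((∏ g : K ≃ₐ[ℚ] K, Ep_act g t) ^ 2 : (𝓞 K)ˣ) : 𝓞 K) = _
    rw [Units.val_pow_eq_pow_val, map_pow, Units.coe_prod, map_prod]
    rfl
  change ((((∏ g : K ≃ₐ[ℚ] K, Ep_act g t) ^ 2 : (𝓞 K)ˣ) : 𝓞 K) : K) = algebraMap (𝓞 K) K ((1 : (𝓞 K)ˣ) : 𝓞 K)
  rw [h4, ← h3, ← map_pow, ← h2, ← sq_abs, h1, one_pow, map_one, Units.val_one, map_one]

lemma Ep_bij [IsGalois ℚ K] [IsTotallyReal K] (w₀ : InfinitePlace K) :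
    Function.Bijective (fun g : K ≃ₐ[ℚ] K => g • w₀) := by
  rw [Fintype.bijective_iff_surjective_and_card]
  constructor
  · intro w
    obtain ⟨g, hg⟩ := InfinitePlace.exists_smul_eq_of_comap_eq (k := ℚ) (w := w₀) (w' := w)
      (Subsingleton.elim _ _)
    exact ⟨g, hg⟩
  · rw [← Nat.card_eq_fintype_card, IsGalois.card_aut_eq_finrank, IsTotallyReal.finrank K,
      InfinitePlace.card_eq_nrRealPlaces_add_nrComplexPlaces,
      IsTotallyReal.nrComplexPlaces_eq_zero, add_zero]

end Ep

theorem exists_eps (K : Type) [Field K] [NumberField K] [IsGalois ℚ K] [IsTotallyReal K] :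
    ∃ e : (K ≃ₐ[ℚ] K) → Additive Kˣ, (∀ g, e g ∈ SUa K ∅) ∧ (∀ g h, e (g * h) = g • e h) ∧
      ∑ g, e g = 0 ∧ (∀ g, ∃ x : Additive Kˣ, e g = 2 • x) ∧
      (∀ c : (K ≃ₐ[ℚ] K) → ℤ, ∑ g, c g • e g = 0 → ∀ g, c g = c 1) ∧
      (AddSubgroup.closure (Set.range e)).relIndex (SUa K ∅) ≠ 0 := by
  obtain ⟨w₀⟩ : Nonempty (InfinitePlace K) := inferInstance
  obtain ⟨t, ht⟩ := NumberField.Units.dirichletUnitTheorem.exists_unit K w₀
  let E : (K ≃ₐ[ℚ] K) ≃ InfinitePlace K := Equiv.ofBijective _ (Ep_bij w₀)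
  have hE : ∀ g, E g = g • w₀ := fun g => rfl
  have hE1 : E.symm w₀ = 1 := by
    rw [Equiv.symm_apply_eq, hE, one_smul]
  let u : InfinitePlace K → (𝓞 K)ˣ := fun w => Ep_act (E.symm w) t
  have hu : ∀ w w' : InfinitePlace K, w' ≠ w → Real.log (w' ((u w : 𝓞 K) : K)) < 0 := by
    intro w w' hw
    have h1 : w' ((u w : 𝓞 K) : K) = ((E.symm w)⁻¹ • w') ((t : 𝓞 K) : K) := by
      rw [InfinitePlace.smul_apply]
      rfl
    rw [h1]
    apply ht
    intro h2
    apply hw
    rw [inv_smul_eq_iff, ← hE, E.apply_symm_apply] at h2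
    exact h2
  obtain ⟨hind, hfin⟩ := units_indep K w₀ u hu
  let e : (K ≃ₐ[ℚ] K) → Additive Kˣ := fun g => 2 • Ep_kap K (Additive.ofMul (Ep_act g t))
  have he : ∀ g, e g = Ep_kap K (Additive.ofMul (Ep_act g t ^ 2)) := by
    intro g
    rw [ofMul_pow, map_nsmul]
  have hsum : ∑ g, e g = 0 := by
    have h1 : ∑ g, e g = Ep_kap K (Additive.ofMul ((∏ g : K ≃ₐ[ℚ] K, Ep_act g t) ^ 2)) := by
      rw [← Finset.prod_pow, ofMul_prod, map_sum]
      exact Finset.sum_congr rfl fun g _ => he g
    rw [h1, Ep_norm, ofMul_one, map_zero]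
  refine ⟨e, ?_, ?_, hsum, ?_, ?_, ?_⟩
  · intro g
    rw [← Ep_range, he]
    exact ⟨_, rfl⟩
  · intro g h
    show 2 • Ep_kap K (Additive.ofMul (Ep_act (g * h) t)) =
      g • (2 • Ep_kap K (Additive.ofMul (Ep_act h t)))
    rw [Ep_kap_smul, Ep_kap_smul, mul_smul]
    rw [two_nsmul, two_nsmul, smul_add]
  · intro g
    exact ⟨_, rfl⟩
  · intro c hc g
    have h1 : ∑ g, (c g - c 1) • e g = 0 := by
      have h2 : ∑ g, (c g - c 1) • e g = ∑ g, c g • e g - c 1 • ∑ g, e g := by
        rw [← Finset.sum_zsmul, ← Finset.sum_sub_distrib]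
        exact Finset.sum_congr rfl fun g _ => sub_zsmul _ _ _
      rw [h2, hc, hsum, zsmul_zero, sub_zero]
    have h3 : ∏ w, (u w) ^ (2 * (c (E.symm w) - c 1)) = 1 := by
      have h4 : Ep_kap K (Additive.ofMul (∏ w, (u w) ^ (2 * (c (E.symm w) - c 1)))) = 0 := by
        rw [ofMul_prod, map_sum, ← h1, ← Equiv.sum_comp E]
        refine Finset.sum_congr rfl fun g _ => ?_
        rw [E.symm_apply_apply, ofMul_zpow, map_zsmul]
        show (2 * (c g - c 1)) • Ep_kap K (Additive.ofMul (Ep_act (E.symm (E g)) t)) =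
          (c g - c 1) • (2 • Ep_kap K (Additive.ofMul (Ep_act g t)))
        rw [E.symm_apply_apply, mul_comm, mul_smul]
        rfl
      have h5 := Ep_kap_inj (h4.trans (map_zero (Ep_kap K)).symm)
      exact h5
    have h6 := hind (fun w => 2 * (c (E.symm w) - c 1)) (by rw [hE1, sub_self, mul_zero])
      (by rw [h3]; exact IsOfFinOrder.one)
    have h7 := congrFun h6 (E g)
    rw [E.symm_apply_apply, Pi.zero_apply] at h7
    omega
  · rw [← Ep_range, ← AddSubgroup.index_comap]
    set C : AddSubgroup (Additive (𝓞 K)ˣ) := (AddSubgroup.closure (Set.range e)).comap (Ep_kap K)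
      with hC
    haveI : AddGroup.FG (Additive (𝓞 K)ˣ) := Module.Finite.iff_addGroup_fg.1 inferInstance
    set H : Subgroup (𝓞 K)ˣ := Subgroup.closure {x | ∃ w, w ≠ w₀ ∧ x = u w} with hH
    have hsq : ∀ x ∈ H, Additive.ofMul (x ^ 2) ∈ C := by
      intro x hx
      rw [hH] at hx
      induction hx using Subgroup.closure_induction with
      | mem x hx =>
        obtain ⟨w, -, rfl⟩ := hx
        rw [hC, AddSubgroup.mem_comap]
        have h1 : Ep_kap K (Additive.ofMul (u w ^ 2)) = e (E.symm w) := (he _).symm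
        rw [h1]
        exact AddSubgroup.subset_closure ⟨_, rfl⟩
      | one =>
        rw [one_pow, ofMul_one]
        exact C.zero_mem
      | mul x y _ _ hx hy =>
        rw [mul_pow, ofMul_mul]
        exact C.add_mem hx hy
      | inv x _ hx =>
        rw [inv_pow, ofMul_inv]
        exact C.neg_mem hx
    have htor : IsAddTorsion (Additive (𝓞 K)ˣ ⧸ C) := by
      intro x
      obtain ⟨y, rfl⟩ := QuotientAddGroup.mk_surjective x
      rw [isOfFinAddOrder_iff_nsmul_eq_zero]
      have hn : 0 < H.index := Nat.pos_of_ne_zero hfin.index_ne_zero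
      refine ⟨H.index * 2, Nat.mul_pos hn two_pos, ?_⟩
      have h1 : (H.index * 2) • y ∈ C := by
        have h2 := hsq _ (Subgroup.pow_index_mem H (Additive.toMul y))
        rw [← pow_mul] at h2
        exact h2
      exact (QuotientAddGroup.eq_zero_iff _).2 h1
    haveI : Finite (Additive (𝓞 K)ˣ ⧸ C) := AddCommGroup.finite_of_fg_isAddTorsion _ htor
    have h1 : C.FiniteIndex := AddSubgroup.finiteIndex_of_finite_quotient
    exact h1.index_ne_zero

end H24TD
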