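import Pool.Agent.H24.TD.Dg
import Pool.Agent.H11.KSn

/-!
Row Fi. (about 60 lines): from Pool.Agent.H11.kSn_finite with n = 2: for c with eo v c = 0 for v not in S, the representative a = rep c has even order at v not in S: v.valuation K a = (v.valuation K z)^2 with z = (unif v)^(ord a / 2) (unif_spec, V a = exp (- ord V a) as a <> 0). So a = r b^2 with r in the finite set R, and
 c = sc a = sc r + sc (b^2) = sc r (sc_mul, sc_eq_zero). So the set is contained in the image of R under sc.
-/

set_option autoImplicit false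
open scoped Classical

open WithZero NumberField IsDedekindDomain H38RT H38T1

namespace H24TD

theorem fin_US {K : Type} [Field K] [NumberField K] {S : Set (HeightOneSpectrum (𝓞 K))}
    (hS : S.Finite) : {c : SC K | ∀ v, v ∉ S → eo v c = 0}.Finite := by
  obtain ⟨R, hR, hR0, hdec⟩ := Pool.Agent.H11.kSn_finite (F := K) S hS 2 two_ne_zero
  refine (hR.image sc).subset ?_
  intro c hc
  obtain ⟨r, hr, b, hb, hab⟩ := hdec (rep c) (rep_ne c) (by
    intro w hw
    have h1 := hc w hw
    unfold eo at h1
    have h2 : (2 : ℤ) ∣ ord (w.valuation K) (rep c) :=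
      (ZMod.intCast_zmod_eq_zero_iff_dvd _ 2).mp h1
    obtain ⟨k, hk⟩ := h2
    have hu0 : unif w ≠ 0 := by
      intro h0
      have h3 := unif_spec w
      rw [h0, map_zero] at h3
      exact (exp_ne_zero h3.symm)
    refine ⟨unif w ^ k, zpow_ne_zero _ hu0, ?_⟩
    have h4 : w.valuation K (rep c) = exp (-(ord (w.valuation K) (rep c))) := by
      unfold ord
      rw [neg_neg, exp_log ((Valuation.ne_zero_iff _).mpr (rep_ne c))]
    rw [h4, hk, map_zpow₀, unif_spec, ← exp_zsmul, ← exp_nsmul]
    congr 1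
    simp)
  have hr0 := hR0 r hr
  refine ⟨r, hr, ?_⟩
  have h5 : sc (b ^ 2) = 0 := (sc_eq_zero (pow_ne_zero 2 hb)).mpr ⟨b, sq b⟩
  have h6 := sc_mul hr0 (pow_ne_zero 2 hb)
  rw [h5, ← hab, sc_rep] at h6
  rw [h6]
  exact (_root_.add_zero (sc r)).symm

end H24TD
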