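import Mathlib

/-!
Row Li. (about 120 lines): linear algebra of annihilators over F = ZMod 2 (any finite field works). A finite dimensional (finite), B : A ->l A ->l F with B x y = 0 for all y implies x = 0 (so B is perfect and the annihilators W^perp = {y : B w y = 0 for all w in W} satisfy dim W^perp = dim A - dim W).
 I, J subspaces of A with B x y = 0 for x in I, y in J, and card A <= card I * card J. Then J = I^perp (J <= I^perp, dim J >= dim A - dim I = dim I^perp) and card A = card I * card J.
 (I inf W)^perp = I^perp + W^perp = J + W^perp: dim (I inf W) = dim A - dim (J + W^perp) = dim A - dim J - dim W^perp + dim (J inf W^perp) = dim I - dim A + dim W + dim (J inf W^perp): card (I inf W) * card A = card I * card W * card (J inf W^perp).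
 Mathlib: Submodule.dualAnnihilator, Subspace.finrank_add_finrank_dualAnnihilator..., LinearMap.BilinForm / finrank orthogonal (LinearMap.BilinForm.finrank_orthogonal for nondegenerate reflexive forms; here B need not be symmetric: use the equivalence A -> Dual A given by B, B.toDual, and dualAnnihilator / dualCoannihilator).
 Module.card_eq_pow_finrank / Module.natCard_eq_pow_finrank turns cards into dimensions.
-/

set_option autoImplicit false

namespace H24TD

lemma Li_card (V : Type) [AddCommGroup V] [Module (ZMod 2) V] [Finite V] :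
    Nat.card V = 2 ^ Module.finrank (ZMod 2) V := by
  have hp : Fact (Nat.Prime 2) := ⟨Nat.prime_two⟩
  have h := Module.natCard_eq_pow_finrank (K := ZMod 2) (V := V)
  rwa [Nat.card_zmod] at h

theorem lin_dual {A : Type} [AddCommGroup A] [Module (ZMod 2) A] [Finite A]
    (B : A →ₗ[ZMod 2] A →ₗ[ZMod 2] ZMod 2) (hB : ∀ x, (∀ y, B x y = 0) → x = 0)
    (I J W : Submodule (ZMod 2) A) (horth : ∀ x ∈ I, ∀ y ∈ J, B x y = 0)
    (hcard : Nat.card A ≤ Nat.card I * Nat.card J) (W' : Submodule (ZMod 2) A)
    (hW' : ∀ y, y ∈ W' ↔ ∀ x ∈ W, B x y = 0) :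
    Nat.card A = Nat.card I * Nat.card J ∧
      Nat.card (I ⊓ W : Submodule (ZMod 2) A) * Nat.card A =
        Nat.card I * Nat.card W * Nat.card (J ⊓ W' : Submodule (ZMod 2) A) := by
  have hp : Fact (Nat.Prime 2) := ⟨Nat.prime_two⟩
  have hBi : Function.Injective B := by
    intro x y hxy
    rw [← sub_eq_zero]
    apply hB
    intro z
    rw [map_sub, LinearMap.sub_apply, hxy, sub_self]
  obtain ⟨perp, hperp⟩ : ∃ perp : Submodule (ZMod 2) A → Submodule (ZMod 2) A,
      ∀ W, perp W = (W.map B).dualCoannihilator := ⟨_, fun _ => rfl⟩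
  have hmem : ∀ W y, y ∈ perp W ↔ ∀ x ∈ W, B x y = 0 := by
    intro W y
    rw [hperp, Submodule.mem_dualCoannihilator]
    constructor
    · intro h x hx
      exact h (B x) ⟨x, hx, rfl⟩
    · rintro h _ ⟨x, hx, rfl⟩
      exact h x hx
  have hdim : ∀ W : Submodule (ZMod 2) A, Module.finrank (ZMod 2) W + Module.finrank (ZMod 2) (perp W) =
      Module.finrank (ZMod 2) A := by
    intro W
    rw [hperp, ← Subspace.finrank_add_finrank_dualCoannihilator_eq (W.map B),
      (Submodule.equivMapOfInjective B hBi W).finrank_eq]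
  have hWp : W' = perp W := by
    ext y
    rw [hW', hmem]
  have hJI : J ≤ perp I := by
    intro y hy
    rw [hmem]
    exact fun x hx => horth x hx y hy
  rw [Li_card A, Li_card I, Li_card J, ← pow_add] at hcard
  have h1 : Module.finrank (ZMod 2) A ≤ Module.finrank (ZMod 2) I + Module.finrank (ZMod 2) J :=
    (Nat.pow_le_pow_iff_right (by norm_num)).1 hcard
  have h2 := hdim I
  have hJ : J = perp I := Submodule.eq_of_le_of_finrank_le hJI (by omega)
  have h3 := hdim W
  have h4 := hdim (I ⊔ W)
  have h5 : perp (I ⊔ W) = J ⊓ W' := by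
    rw [hJ, hWp]
    ext y
    rw [Submodule.mem_inf, hmem, hmem, hmem]
    constructor
    · intro h
      exact ⟨fun x hx => h x (Submodule.mem_sup_left hx), fun x hx => h x (Submodule.mem_sup_right hx)⟩
    · rintro ⟨k1, k2⟩ x hx
      obtain ⟨u, hu, v, hv, rfl⟩ := Submodule.mem_sup.1 hx
      rw [map_add, LinearMap.add_apply, k1 u hu, k2 v hv, add_zero]
  have h6 := Submodule.finrank_sup_add_finrank_inf_eq I W
  rw [h5] at h4
  rw [← hJ] at h2
  rw [Li_card A, Li_card I, Li_card J, Li_card W, Li_card (I ⊓ W : Submodule (ZMod 2) A),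
    Li_card (J ⊓ W' : Submodule (ZMod 2) A), ← pow_add, ← pow_add, ← pow_add, ← pow_add]
  constructor
  · rw [h2]
  · congr 1
    omega

end H24TD
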