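import Pool.Agent.H24.TD.Dg

/-!
Row Lo. (about 150 lines): the local functions are additive on square classes. Choose psi, d by exists_psi K (file H38/RT/Ps) and h := exists_loc (H38/RT/Rs) at v with the uniformizer unif v (unif_spec); then lam_mul, tm_mul_left, Prm_mul, Prm_sq, kp_eq, Prm_even (H38/RT/Ta, Kp, Kq) apply.
 eo_add: rep (c + c') and rep c * rep c' have the same square class (sc_mul, sc_rep), so rep (c + c') = rep c * rep c' * t^2 (from sc_eq_zero: sc (x / y) = 0), orders add up, 2 ord t = 0 in ZMod 2. General principle (lemma rep_eq): for nonzero x, y with sc x = sc y there is t <> 0 with x = y * t^2.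
 eo_sc: eo v (sc x) = ord x. la_add at odd v by lam_mul (lam (t^2) = 2 lam t = 0). si_add: w (x y) = w x * w y, signs. si_sc.
 Pri_add, ka_add, Pri_zero: Prm is invariant under multiplication by squares (Prm_sq, Prm_mul); rep 0 is a square. Pri_even: Prm_even.
 At v | 2 (not OddP v): V 2 < 1 since V 2 <= 1 (val_two_le in H38/RT/Rk) and V 2 <> 1; (2 : K) <> 0.
-/

set_option autoImplicit false
open scoped Classical

open WithZero NumberField IsDedekindDomain H38RT H38T1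

namespace H24TD

variable {K : Type} [Field K] [NumberField K]

theorem Lo_sc_sq {t : K} (ht : t ≠ 0) : sc (t ^ 2) = 0 :=
  (sc_eq_zero (pow_ne_zero 2 ht)).2 ⟨t, sq t⟩

theorem Lo_two (c : SC K) : c + c = 0 := by
  rw [← _root_.two_smul ℕ c]
  exact SC.two_smul c

theorem rep_eq {x y : K} (hx : x ≠ 0) (hy : y ≠ 0) (h : sc x = sc y) :
    ∃ t : K, t ≠ 0 ∧ x = y * t ^ 2 := by
  have h1 : sc (x * y) = 0 := by
    rw [sc_mul hx hy, h]
    exact Lo_two _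
  obtain ⟨s, hs⟩ := (sc_eq_zero (mul_ne_zero hx hy)).1 h1
  have hs0 : s ≠ 0 := by
    rintro rfl
    exact mul_ne_zero hx hy (by rw [hs, mul_zero])
  refine ⟨s / y, div_ne_zero hs0 hy, ?_⟩
  have : y * (s / y) ^ 2 = s * s / y := by field_simp
  rw [this, ← hs]
  field_simp

theorem Lo_loc (v : HeightOneSpectrum (𝓞 K)) : ∃ (q : ℕ) (d : ℤ) (ψ : AddChar K Circle),
    Loc (v.valuation K) (unif v) q d ψ := by
  obtain ⟨ψ, d, h⟩ := exists_psi K
  exact ⟨_, _, _, exists_loc h v (unif_spec v)⟩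

theorem Lo_rep (c c' : SC K) : ∃ t : K, t ≠ 0 ∧ rep (c + c') = rep c * rep c' * t ^ 2 := by
  apply rep_eq (rep_ne _) (mul_ne_zero (rep_ne _) (rep_ne _))
  rw [sc_rep, sc_mul (rep_ne _) (rep_ne _), sc_rep, sc_rep]

theorem Lo_rep_sc {x : K} (hx : x ≠ 0) : ∃ t : K, t ≠ 0 ∧ rep (sc x) = x * t ^ 2 :=
  rep_eq (rep_ne _) hx (sc_rep _)

theorem Lo_ord_sq (v : HeightOneSpectrum (𝓞 K)) {x t : K} (hx : x ≠ 0) (ht : t ≠ 0) :
    (ord (v.valuation K) (x * t ^ 2) : ZMod 2) = (ord (v.valuation K) x : ZMod 2) := by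
  rw [Ta_ord_mul hx (pow_ne_zero 2 ht), sq, Ta_ord_mul ht ht]
  push_cast
  rw [CharTwo.add_self_eq_zero, add_zero]

theorem eo_add (v : HeightOneSpectrum (𝓞 K)) (c c' : SC K) : eo v (c + c') = eo v c + eo v c' := by
  obtain ⟨t, ht, h⟩ := Lo_rep c c'
  unfold eo
  rw [h, Lo_ord_sq v (mul_ne_zero (rep_ne _) (rep_ne _)) ht, Ta_ord_mul (rep_ne _) (rep_ne _)]
  push_cast
  rfl

theorem eo_sc (v : HeightOneSpectrum (𝓞 K)) {x : K} (hx : x ≠ 0) :
    eo v (sc x) = (ord (v.valuation K) x : ZMod 2) := by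
  obtain ⟨t, ht, h⟩ := Lo_rep_sc hx
  unfold eo
  rw [h, Lo_ord_sq v hx ht]

theorem Lo_lam_sq {v : HeightOneSpectrum (𝓞 K)} (hv : OddP v) {x t : K} (hx : x ≠ 0)
    (ht : t ≠ 0) : lam (v.valuation K) (unif v) (x * t ^ 2) = lam (v.valuation K) (unif v) x := by
  obtain ⟨q, d, ψ, hl⟩ := Lo_loc v
  rw [lam_mul hl hv hx (pow_ne_zero 2 ht), sq, lam_mul hl hv ht ht, CharTwo.add_self_eq_zero,
    add_zero]

theorem la_add {v : HeightOneSpectrum (𝓞 K)} (hv : OddP v) (c c' : SC K) :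
    la v (c + c') = la v c + la v c' := by
  obtain ⟨t, ht, h⟩ := Lo_rep c c'
  obtain ⟨q, d, ψ, hl⟩ := Lo_loc v
  unfold la
  rw [h, Lo_lam_sq hv (mul_ne_zero (rep_ne _) (rep_ne _)) ht, lam_mul hl hv (rep_ne _) (rep_ne _)]

theorem la_sc {v : HeightOneSpectrum (𝓞 K)} (hv : OddP v) {x : K} (hx : x ≠ 0) :
    la v (sc x) = lam (v.valuation K) (unif v) x := by
  obtain ⟨t, ht, h⟩ := Lo_rep_sc hx
  unfold la
  rw [h, Lo_lam_sq hv hx ht]

theorem Lo_sw_mul (w : K →+* ℝ) {x y : K} (hx : x ≠ 0) (hy : y ≠ 0) :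
    sw w (x * y) = sw w x + sw w y := by
  have hwx : w x ≠ 0 := (map_ne_zero w).2 hx
  have hwy : w y ≠ 0 := (map_ne_zero w).2 hy
  unfold sw
  rw [map_mul]
  rcases lt_or_gt_of_ne hwx with h1 | h1 <;> rcases lt_or_gt_of_ne hwy with h2 | h2
  · rw [if_pos h1, if_pos h2, if_neg (not_lt.2 (mul_pos_of_neg_of_neg h1 h2).le)]
    decide
  · rw [if_pos h1, if_neg (not_lt.2 h2.le), if_pos (mul_neg_of_neg_of_pos h1 h2)]
    decide
  · rw [if_neg (not_lt.2 h1.le), if_pos h2, if_pos (mul_neg_of_pos_of_neg h1 h2)]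
    decide
  · rw [if_neg (not_lt.2 h1.le), if_neg (not_lt.2 h2.le), if_neg (not_lt.2 (mul_pos h1 h2).le)]
    decide

theorem Lo_sw_sq (w : K →+* ℝ) {x t : K} (hx : x ≠ 0) (ht : t ≠ 0) :
    sw w (x * t ^ 2) = sw w x := by
  rw [Lo_sw_mul w hx (pow_ne_zero 2 ht), sq, Lo_sw_mul w ht ht, CharTwo.add_self_eq_zero,
    add_zero]

theorem si_add (w : K →+* ℝ) (c c' : SC K) : si w (c + c') = si w c + si w c' := by
  obtain ⟨t, ht, h⟩ := Lo_rep c c'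
  unfold si
  rw [h, Lo_sw_sq w (mul_ne_zero (rep_ne _) (rep_ne _)) ht, Lo_sw_mul w (rep_ne _) (rep_ne _)]

theorem si_sc (w : K →+* ℝ) {x : K} (hx : x ≠ 0) : si w (sc x) = sw w x := by
  obtain ⟨t, ht, h⟩ := Lo_rep_sc hx
  unfold si
  rw [h, Lo_sw_sq w hx ht]

theorem Lo_v2 {v : HeightOneSpectrum (𝓞 K)} (hv : ¬ OddP v) : v.valuation K 2 < 1 :=
  lt_of_le_of_ne (val_two_le v) hv

theorem Lo_Prm_sq {v : HeightOneSpectrum (𝓞 K)} (hv : ¬ OddP v) {x t : K} (ht : t ≠ 0)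
    (h : Prm (v.valuation K) x) :
    Prm (v.valuation K) (x * t ^ 2) ∧ kp (v.valuation K) (x * t ^ 2) = kp (v.valuation K) x := by
  obtain ⟨q, d, ψ, hl⟩ := Lo_loc v
  have h1 := Prm_sq hl (Lo_v2 hv) two_ne_zero ht
  have h2 := Prm_mul hl (Lo_v2 hv) two_ne_zero h h1.1
  refine ⟨h2.1, ?_⟩
  rw [h2.2, h1.2, add_zero]

theorem Pri_add {v : HeightOneSpectrum (𝓞 K)} (hv : ¬ OddP v) {c c' : SC K} (h : Pri v c)
    (h' : Pri v c') : Pri v (c + c') ∧ ka v (c + c') = ka v c + ka v c' := by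
  obtain ⟨t, ht, hr⟩ := Lo_rep c c'
  obtain ⟨q, d, ψ, hl⟩ := Lo_loc v
  have h2 := Prm_mul hl (Lo_v2 hv) two_ne_zero h h'
  have h3 := Lo_Prm_sq hv ht h2.1
  unfold Pri ka
  rw [hr]
  exact ⟨h3.1, h3.2.trans h2.2⟩

theorem Pri_zero {v : HeightOneSpectrum (𝓞 K)} (hv : ¬ OddP v) :
    Pri v (0 : SC K) ∧ ka v (0 : SC K) = 0 := by
  obtain ⟨q, d, ψ, hl⟩ := Lo_loc v
  have h1 : IsSquare (rep (0 : SC K)) := (sc_eq_zero (rep_ne _)).1 (sc_rep _)
  obtain ⟨s, hs⟩ := h1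
  have hs0 : s ≠ 0 := by
    rintro rfl
    exact rep_ne (0 : SC K) (by rw [hs, mul_zero])
  unfold Pri ka
  rw [hs, ← sq]
  exact Prm_sq hl (Lo_v2 hv) two_ne_zero hs0

theorem Pri_sc {v : HeightOneSpectrum (𝓞 K)} (hv : ¬ OddP v) {x : K} (hx : x ≠ 0) :
    (Pri v (sc x) ↔ Prm (v.valuation K) x) := by
  obtain ⟨t, ht, hr⟩ := Lo_rep_sc hx
  unfold Pri
  rw [hr]
  constructor
  · intro h
    have h1 := (Lo_Prm_sq hv (inv_ne_zero ht) h).1
    have h2 : x * t ^ 2 * t⁻¹ ^ 2 = x := by field_simp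
    rwa [h2] at h1
  · intro h
    exact (Lo_Prm_sq hv ht h).1

theorem Pri_even {v : HeightOneSpectrum (𝓞 K)} (hv : ¬ OddP v) {c : SC K} (h : Pri v c) :
    eo v c = 0 := by
  obtain ⟨q, d, ψ, hl⟩ := Lo_loc v
  obtain ⟨k, hk⟩ := (Prm_even hl (Lo_v2 hv) h).2
  unfold eo
  rw [hk]
  push_cast
  exact CharTwo.add_self_eq_zero _

end H24TD
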