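import Pool.Agent.H24.TD.Dg

/-!
Row RkU. (about 220 lines): at least 2^(#S + n) square classes of S-units for a totally real field K of degree n, S finite (K not nec. Galois).
 Let N' = SUa K S, U = SUa K (empty) (= units of 𝓞 K). The map ord : N' -> (S -> Z), x |-> (ord_v x)_v has kernel U and its image Lambda contains h Z^S (h = class number, v^h principal), so Lambda is free of rank #S (Submodule of a free module: Module.Free over a PID; finrank: h Z^S <= Lambda <= Z^S). So N' -> Lambda splits (Lambda projective):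
 N' = U x Z^(#S) as groups, N' / 2 N' = U / 2U x (ZMod 2)^(#S). U / 2 U: U = {1,-1} x Z^(n-1) (NumberField.Units: torsion of a totally real field is {1,-1}: a root of unity in a real field; Units.rank K = card places - 1 = n - 1; basisModTorsion, or: Additive units = torsion x (Fin rank -> Z) by exist_unique_eq_mul_prod), so it has 2 * 2^(n-1) elements.
 The kernel of N' -> US K S (cls) is dbl N' (an S-unit which is a square z^2 in K: z is an S-unit). So card US = card (N'/dbl N') = 2^n * 2^(#S).
 It suffices to prove <=; Nat.card of US must be finite (nonzero): N' / dbl N' is finite because N' is finitely generated (U finitely generated, Lambda finitely generated).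
-/

set_option autoImplicit false
open scoped Classical

open NumberField IsDedekindDomain H38T1

namespace H24TD

theorem RkU_fin (T : Type) [AddCommGroup T] [Finite T] (f : T →+ T) :
    Nat.card (T ⧸ f.range) = Nat.card f.ker := by
  have h1 := AddSubgroup.card_eq_card_quotient_mul_card_addSubgroup f.range
  have h2 := AddSubgroup.card_eq_card_quotient_mul_card_addSubgroup f.ker
  have h3 : Nat.card (T ⧸ f.ker) = Nat.card f.range :=
    Nat.card_congr (QuotientAddGroup.quotientKerEquivRange f).toEquiv
  rw [h3] at h2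
  have h4 : 0 < Nat.card f.range := Nat.card_pos
  apply Nat.eq_of_mul_eq_mul_right h4
  rw [← h1, h2, mul_comm]

/-- doubling -/
abbrev RkU_two (A : Type) [AddCommGroup A] : A →+ A := zsmulAddGroupHom (2 : ℤ)

theorem RkU_prod {A T : Type} [AddCommGroup A] [AddCommGroup T] [Finite T] (r : ℕ)
    (e : A ≃+ T × (Fin r → ℤ)) :
    Nat.card (A ⧸ (RkU_two A).range) = Nat.card (RkU_two A).ker * 2 ^ r := by
  let φ : A →+ (T ⧸ (RkU_two T).range) × (Fin r → ZMod 2) :=
    { toFun := fun a => (((e a).1 : T ⧸ (RkU_two T).range), fun i => (((e a).2 i : ℤ) : ZMod 2))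
      map_zero' := by
        rw [map_zero]
        refine Prod.ext rfl (funext fun i => ?_)
        change (((0 : ℤ)) : ZMod 2) = 0
        exact Int.cast_zero
      map_add' := fun a b => by
        rw [map_add]
        refine Prod.ext rfl (funext fun i => ?_)
        change ((((e a).2 i + (e b).2 i : ℤ)) : ZMod 2) = ((e a).2 i : ZMod 2) + ((e b).2 i : ZMod 2)
        exact Int.cast_add _ _ }
  have hφ : Function.Surjective φ := by
    rintro ⟨t, z⟩
    obtain ⟨t, rfl⟩ := QuotientAddGroup.mk_surjective t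
    choose y hy using fun i => ZMod.intCast_surjective (z i)
    refine ⟨e.symm (t, y), ?_⟩
    refine Prod.ext ?_ (funext fun i => ?_)
    · change (((e (e.symm (t, y))).1 : T ⧸ (RkU_two T).range)) = _
      rw [e.apply_symm_apply]
    · change ((((e (e.symm (t, y))).2 i : ℤ)) : ZMod 2) = _
      rw [e.apply_symm_apply]
      exact hy i
  have hk : φ.ker = (RkU_two A).range := by
    ext a
    constructor
    · intro ha
      have h1 : (((e a).1 : T ⧸ (RkU_two T).range)) = 0 := congrArg Prod.fst ha
      have h2 : ∀ i, (((e a).2 i : ℤ) : ZMod 2) = 0 := fun i => congrFun (congrArg Prod.snd ha) i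
      rw [QuotientAddGroup.eq_zero_iff] at h1
      obtain ⟨t, ht⟩ := h1
      choose y hy using fun i => (ZMod.intCast_zmod_eq_zero_iff_dvd ((e a).2 i) 2).1 (h2 i)
      refine ⟨e.symm (t, y), ?_⟩
      apply e.injective
      change e ((2 : ℤ) • e.symm (t, y)) = e a
      rw [map_zsmul, e.apply_symm_apply]
      refine Prod.ext ht (funext fun i => ?_)
      change (2 : ℤ) • y i = (e a).2 i
      rw [hy i]
      rfl
    · rintro ⟨a, rfl⟩
      refine Prod.ext ?_ (funext fun i => ?_)
      · change (((e ((2 : ℤ) • a)).1 : T ⧸ (RkU_two T).range)) = 0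
        rw [QuotientAddGroup.eq_zero_iff]
        refine ⟨(e a).1, ?_⟩
        change (2 : ℤ) • (e a).1 = (e ((2 : ℤ) • a)).1
        rw [map_zsmul]
        rfl
      · change ((((e ((2 : ℤ) • a)).2 i : ℤ)) : ZMod 2) = 0
        rw [map_zsmul]
        change (((2 : ℤ) • (e a).2 i : ℤ) : ZMod 2) = 0
        rw [ZMod.intCast_zmod_eq_zero_iff_dvd]
        exact ⟨(e a).2 i, rfl⟩
  have h1 : Nat.card (A ⧸ (RkU_two A).range) = Nat.card ((T ⧸ (RkU_two T).range) × (Fin r → ZMod 2)) := by
    rw [← hk]
    exact Nat.card_congr (QuotientAddGroup.quotientKerEquivOfSurjective φ hφ).toEquiv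
  have h2 : Nat.card (RkU_two T).ker = Nat.card (RkU_two A).ker := by
    symm
    refine Nat.card_eq_of_bijective (fun a => (⟨(e a.1).1, ?_⟩ : (RkU_two T).ker)) ⟨?_, ?_⟩
    · have h : (2 : ℤ) • a.1 = 0 := a.2
      change (2 : ℤ) • (e a.1).1 = 0
      have h' : (e ((2 : ℤ) • a.1)).1 = (e 0).1 := congrArg (fun z => (e z).1) h
      rw [map_zsmul, map_zero] at h'
      exact h'
    · intro a b hab
      have hab' : (e a.1).1 = (e b.1).1 := congrArg Subtype.val hab
      have key : ∀ c : (RkU_two A).ker, (e c.1).2 = 0 := by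
        intro c
        have h : (2 : ℤ) • c.1 = 0 := c.2
        have h' := congrArg (fun z => (e z).2) h
        simp only [map_zsmul, map_zero] at h'
        funext i
        have h3 := congrFun h' i
        change (2 : ℤ) • (e c.1).2 i = 0 at h3
        rw [smul_eq_mul] at h3
        exact (mul_eq_zero.1 h3).resolve_left (by norm_num)
      apply Subtype.ext
      apply e.injective
      exact Prod.ext hab' ((key a).trans (key b).symm)
    · rintro ⟨t, ht⟩
      refine ⟨⟨e.symm (t, 0), ?_⟩, ?_⟩
      · change (2 : ℤ) • e.symm (t, 0) = 0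
        apply e.injective
        rw [map_zsmul, e.apply_symm_apply, map_zero]
        refine Prod.ext ht ?_
        change (2 : ℤ) • (0 : Fin r → ℤ) = 0
        exact smul_zero _
      · apply Subtype.ext
        change (e (e.symm (t, 0))).1 = t
        rw [e.apply_symm_apply]
  rw [h1, Nat.card_prod, RkU_fin, h2, Nat.card_fun, Nat.card_zmod, Nat.card_fin]

theorem RkU_gen (A : Type) [AddCommGroup A] [Module.Finite ℤ A] :
    Nat.card (A ⧸ (RkU_two A).range) = Nat.card (RkU_two A).ker * 2 ^ Module.finrank ℤ A := by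
  have hfr : Module.Free ℤ (A ⧸ Submodule.torsion ℤ A) := Module.free_of_finite_type_torsion_free'
  obtain ⟨f, hf⟩ := Module.projective_lifting_property _ LinearMap.id
    (Submodule.torsion ℤ A).mkQ_surjective
  have hn : Module.finrank ℤ (A ⧸ Submodule.torsion ℤ A) = Module.finrank ℤ A :=
    finrank_quotient_eq_of_le_torsion le_rfl
  have hT : Finite (Submodule.torsion ℤ A) :=
    Module.finite_of_fg_torsion _ (Submodule.torsion_isTorsion)
  rw [← hn]
  refine RkU_prod (T := Submodule.torsion ℤ A) _ ?_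
  refine LinearEquiv.toAddEquiv ((lequivProdOfRightSplitExact
    (Submodule.torsion ℤ A).injective_subtype ?_ hf).symm.trans
      ((LinearEquiv.refl ℤ _).prodCongr (Module.finBasis ℤ (A ⧸ Submodule.torsion ℤ A)).equivFun))
  rw [Submodule.range_subtype, Submodule.ker_mkQ]

section

variable {K : Type} [Field K] [NumberField K] {S : Set (HeightOneSpectrum (𝓞 K))}

theorem RkU_ne (v : HeightOneSpectrum (𝓞 K)) (u : Additive Kˣ) :
    v.valuation K ((Additive.toMul u : Kˣ) : K) ≠ 0 :=
  (Valuation.ne_zero_iff _).mpr (Units.ne_zero _)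

/-- the valuations -/
noncomputable def RkU_ord (K : Type) [Field K] [NumberField K]
    (S : Set (HeightOneSpectrum (𝓞 K))) : ↥(SUa K S) →ₗ[ℤ] (S → ℤ) :=
  AddMonoidHom.toIntLinearMap
  { toFun := fun u v => WithZero.log (v.1.valuation K ((Additive.toMul u.1 : Kˣ) : K))
    map_zero' := by
      funext v
      change WithZero.log (v.1.valuation K ((1 : Kˣ) : K)) = 0
      rw [Units.val_one, map_one, WithZero.log_one]
    map_add' := fun u u' => by
      funext v
      change WithZero.log (v.1.valuation K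
        (((Additive.toMul u.1 * Additive.toMul u'.1 : Kˣ)) : K)) = _ + _
      rw [Units.val_mul, map_mul, WithZero.log_mul (RkU_ne _ _) (RkU_ne _ _)] }

theorem RkU_ord_apply (u : ↥(SUa K S)) (v : S) :
    RkU_ord K S u v = WithZero.log (v.1.valuation K ((Additive.toMul u.1 : Kˣ) : K)) := rfl

theorem RkU_unit (v : HeightOneSpectrum (𝓞 K)) (u : (𝓞 K)ˣ) :
    v.valuation K (algebraMap (𝓞 K) K (u : 𝓞 K)) = 1 := by
  rw [HeightOneSpectrum.valuation_eq_one_iff_notMem]
  intro h
  exact v.isPrime.ne_top (Ideal.eq_top_of_isUnit_mem _ h u.isUnit)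

/-- the units -/
noncomputable def RkU_j (K : Type) [Field K] [NumberField K]
    (S : Set (HeightOneSpectrum (𝓞 K))) : Additive (𝓞 K)ˣ →ₗ[ℤ] ↥(SUa K S) :=
  AddMonoidHom.toIntLinearMap
  { toFun := fun u => ⟨Additive.ofMul
      (Units.map ((algebraMap (𝓞 K) K : 𝓞 K →+* K) : 𝓞 K →* K) (Additive.toMul u)),
      fun v _ => RkU_unit v _⟩
    map_zero' := by
      apply Subtype.ext
      apply Additive.toMul.injective
      ext
      change algebraMap (𝓞 K) K ((1 : (𝓞 K)ˣ) : 𝓞 K) = 1
      rw [Units.val_one, map_one]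
    map_add' := fun u u' => by
      apply Subtype.ext
      apply Additive.toMul.injective
      ext
      change algebraMap (𝓞 K) K ((Additive.toMul u * Additive.toMul u' : (𝓞 K)ˣ) : 𝓞 K) =
        algebraMap (𝓞 K) K ((Additive.toMul u : (𝓞 K)ˣ) : 𝓞 K) *
          algebraMap (𝓞 K) K ((Additive.toMul u' : (𝓞 K)ˣ) : 𝓞 K)
      rw [Units.val_mul, map_mul] }

theorem RkU_j_val (u : Additive (𝓞 K)ˣ) :
    ((Additive.toMul (RkU_j K S u).1 : Kˣ) : K) =
      algebraMap (𝓞 K) K ((Additive.toMul u : (𝓞 K)ˣ) : 𝓞 K) := rfl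

theorem RkU_j_inj : Function.Injective (RkU_j K S) := by
  intro u u' h
  apply Additive.toMul.injective
  apply Units.ext
  apply FaithfulSMul.algebraMap_injective (𝓞 K) K
  exact congrArg (fun z : ↥(SUa K S) => ((Additive.toMul z.1 : Kˣ) : K)) h

theorem RkU_ker : LinearMap.ker (RkU_ord K S) = LinearMap.range (RkU_j K S) := by
  ext u
  constructor
  · intro hu
    have h1 : ∀ v : HeightOneSpectrum (𝓞 K),
        v.valuation K ((Additive.toMul u.1 : Kˣ) : K) = 1 := by
      intro v
      by_cases hv : v ∈ S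
      · have h2 : WithZero.log (v.valuation K ((Additive.toMul u.1 : Kˣ) : K)) = 0 :=
          congrFun (LinearMap.mem_ker.1 hu) ⟨v, hv⟩
        rw [← WithZero.exp_log (RkU_ne v u.1), h2, WithZero.exp_zero]
      · exact u.2 v hv
    have h2 : ∀ v : HeightOneSpectrum (𝓞 K),
        v.valuation K (((Additive.toMul u.1 : Kˣ) : K)⁻¹) = 1 := by
      intro v
      rw [map_inv₀, h1 v, inv_one]
    obtain ⟨a, ha⟩ := HeightOneSpectrum.mem_integers_of_valuation_le_one K _ (fun v => (h1 v).le)
    obtain ⟨b, hb⟩ := HeightOneSpectrum.mem_integers_of_valuation_le_one K _ (fun v => (h2 v).le)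
    have hab : a * b = 1 := by
      apply FaithfulSMul.algebraMap_injective (𝓞 K) K
      rw [map_mul, ha, hb, map_one, mul_inv_cancel₀ (Units.ne_zero _)]
    refine ⟨Additive.ofMul ⟨a, b, hab, by rw [mul_comm, hab]⟩, ?_⟩
    apply Subtype.ext
    apply Additive.toMul.injective
    ext
    rw [RkU_j_val]
    exact ha
  · rintro ⟨u, rfl⟩
    rw [LinearMap.mem_ker]
    funext v
    rw [RkU_ord_apply, RkU_j_val, RkU_unit, WithZero.log_one]
    rfl

/-- an element supported at one place -/
theorem RkU_el (v : HeightOneSpectrum (𝓞 K)) : ∃ u : Additive Kˣ,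
    (∀ w : HeightOneSpectrum (𝓞 K), w ≠ v → w.valuation K ((Additive.toMul u : Kˣ) : K) = 1) ∧
      v.valuation K ((Additive.toMul u : Kˣ) : K) < 1 := by
  have hv0 : v.asIdeal ∈ nonZeroDivisors (Ideal (𝓞 K)) :=
    mem_nonZeroDivisors_iff_ne_zero.2 v.ne_bot
  have hpos : 0 < Fintype.card (ClassGroup (𝓞 K)) := Fintype.card_pos
  have h1 : (ClassGroup.mk0 ⟨v.asIdeal, hv0⟩) ^ Fintype.card (ClassGroup (𝓞 K)) = 1 :=
    pow_card_eq_one
  rw [← map_pow] at h1
  have h2 : (v.asIdeal ^ Fintype.card (ClassGroup (𝓞 K))).IsPrincipal := by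
    have := (ClassGroup.mk0_eq_one_iff (pow_mem hv0 _)).1 h1
    exact this
  obtain ⟨t, ht⟩ := h2
  have ht' : Ideal.span {t} = v.asIdeal ^ Fintype.card (ClassGroup (𝓞 K)) := ht.symm
  have ht0 : t ≠ 0 := by
    rintro rfl
    have : v.asIdeal ^ Fintype.card (ClassGroup (𝓞 K)) = ⊥ := by
      rw [← ht']
      simp
    exact v.ne_bot (pow_eq_zero_iff hpos.ne' |>.1 this)
  have hm : t ∈ v.asIdeal ^ Fintype.card (ClassGroup (𝓞 K)) := by
    rw [← ht']
    exact Ideal.mem_span_singleton_self t
  have htK : algebraMap (𝓞 K) K t ≠ 0 := by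
    rwa [Ne, FaithfulSMul.algebraMap_eq_zero_iff]
  refine ⟨Additive.ofMul (Units.mk0 _ htK), fun w hw => ?_, ?_⟩
  · change w.valuation K (algebraMap (𝓞 K) K t) = 1
    rw [HeightOneSpectrum.valuation_eq_one_iff_notMem]
    intro h
    have h3 : v.asIdeal ^ Fintype.card (ClassGroup (𝓞 K)) ≤ w.asIdeal := by
      rw [← ht', Ideal.span_singleton_le_iff_mem]
      exact h
    have h4 : v.asIdeal ≤ w.asIdeal := (Ideal.IsPrime.pow_le_iff hpos.ne').1 h3
    have h5 : v.asIdeal = w.asIdeal :=
      (v.isPrime.isMaximal v.ne_bot).eq_of_le w.isPrime.ne_top h4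
    exact hw (HeightOneSpectrum.ext h5.symm)
  · change v.valuation K (algebraMap (𝓞 K) K t) < 1
    rw [HeightOneSpectrum.valuation_lt_one_iff_mem]
    exact Ideal.pow_le_self hpos.ne' hm

theorem RkU_range (hS : S.Finite) :
    Module.finrank ℤ (LinearMap.range (RkU_ord K S)) = S.ncard := by
  have : Fintype S := hS.fintype
  apply le_antisymm
  · refine (Submodule.finrank_le _).trans ?_
    rw [Module.finrank_fintype_fun_eq_card, ← Nat.card_eq_fintype_card]
    exact le_rfl
  · choose u hu hu' using fun v : S => RkU_el v.1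
    have hmem : ∀ v : S, u v ∈ SUa K S := fun v w hw =>
      hu v w (fun h => hw (h ▸ v.2))
    have hli : LinearIndependent ℤ (fun v : S =>
        (⟨RkU_ord K S ⟨u v, hmem v⟩, LinearMap.mem_range_self _ _⟩ :
          LinearMap.range (RkU_ord K S))) := by
      rw [Fintype.linearIndependent_iff]
      intro g hg v
      have h1 := congrArg (fun z : LinearMap.range (RkU_ord K S) => (z : S → ℤ) v) hg
      simp only [AddSubmonoidClass.coe_finsetSum, Submodule.coe_smul, Finset.sum_apply,
        Pi.smul_apply, smul_eq_mul, ZeroMemClass.coe_zero, Pi.zero_apply] at h1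
      rw [Finset.sum_eq_single v] at h1
      · refine (mul_eq_zero.1 h1).resolve_right fun h2 => ?_
        rw [RkU_ord_apply] at h2
        have h3 := hu' v
        rw [← WithZero.exp_log (RkU_ne v.1 (u v)), h2, WithZero.exp_zero] at h3
        exact lt_irrefl _ h3
      · intro w _ hw
        rw [RkU_ord_apply]
        have h3 := hu w v.1 (fun h => hw (Subtype.ext h).symm)
        rw [h3, WithZero.log_one, mul_zero]
      · intro h
        exact absurd (Finset.mem_univ _) h
    have := hli.fintype_card_le_finrank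
    rw [← Nat.card_eq_fintype_card] at this
    exact this

theorem RkU_A (hS : S.Finite) : Module.Finite ℤ ↥(SUa K S) ∧
    Module.finrank ℤ ↥(SUa K S) = S.ncard + NumberField.Units.rank K := by
  have : Fintype S := hS.fintype
  have h1 : Module.Finite ℤ (LinearMap.ker (RkU_ord K S)) := by
    rw [RkU_ker]
    infer_instance
  have h2 : Module.Finite ℤ (↥(SUa K S) ⧸ LinearMap.ker (RkU_ord K S)) :=
    Module.Finite.equiv (RkU_ord K S).quotKerEquivRange.symm
  have h3 : Module.Finite ℤ ↥(SUa K S) := Module.Finite.of_submodule_quotient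
    (LinearMap.ker (RkU_ord K S))
  refine ⟨h3, ?_⟩
  rw [← (LinearMap.ker (RkU_ord K S)).finrank_quotient_add_finrank,
    (RkU_ord K S).quotKerEquivRange.finrank_eq, RkU_range hS, RkU_ker,
    ← (LinearEquiv.ofInjective (RkU_j K S) RkU_j_inj).finrank_eq, NumberField.Units.finrank_eq]

theorem RkU_tor : Nat.card (RkU_two ↥(SUa K S)).ker = 2 := by
  have hm : Additive.ofMul (-1 : Kˣ) ∈ SUa K S := by
    intro v _
    change v.valuation K (((-1 : Kˣ)) : K) = 1
    rw [Units.val_neg, Units.val_one, Valuation.map_neg, map_one]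
  rw [Nat.card_eq_two_iff]
  refine ⟨0, ⟨⟨Additive.ofMul (-1 : Kˣ), hm⟩, ?_⟩, ?_, ?_⟩
  · rw [AddMonoidHom.mem_ker]
    apply Subtype.ext
    apply Additive.toMul.injective
    change ((-1 : Kˣ)) ^ (2 : ℤ) = 1
    norm_num
  · intro h
    have h1 : (0 : Additive Kˣ) = Additive.ofMul (-1 : Kˣ) :=
      congrArg (fun z : (RkU_two ↥(SUa K S)).ker => (z.1 : Additive Kˣ)) h
    have h2 : (1 : Kˣ) = -1 := h1
    have h3 : (1 : K) = -1 := congrArg (fun z : Kˣ => (z : K)) h2
    have h4 : (2 : K) = 0 := by linear_combination h3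
    exact two_ne_zero h4
  · ext ⟨⟨u, hu⟩, hu2⟩
    simp only [Set.mem_insert_iff, Set.mem_singleton_iff, Set.mem_univ, iff_true]
    have h1 : (2 : ℤ) • u = 0 := congrArg Subtype.val (AddMonoidHom.mem_ker.1 hu2)
    have h2 : (Additive.toMul u) ^ (2 : ℤ) = 1 := h1
    have h3 : ((Additive.toMul u : Kˣ) : K) ^ 2 = 1 := by
      have := congrArg (fun z : Kˣ => (z : K)) h2
      simpa using this
    have h4 : (((Additive.toMul u : Kˣ) : K) - 1) * (((Additive.toMul u : Kˣ) : K) + 1) = 0 := by
      linear_combination h3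
    rcases mul_eq_zero.1 h4 with h | h
    · left
      apply Subtype.ext
      apply Subtype.ext
      apply Additive.toMul.injective
      apply Units.ext
      exact sub_eq_zero.1 h
    · right
      apply Subtype.ext
      apply Subtype.ext
      apply Additive.toMul.injective
      apply Units.ext
      exact eq_neg_of_add_eq_zero_left h


theorem RkU_cls : Nat.card (US K S) = Nat.card (↥(SUa K S) ⧸ (RkU_two ↥(SUa K S)).range) := by
  let φ : ↥(SUa K S) →+ US K S :=
    { toFun := fun u => ⟨cls K u.1, ⟨u.1, u.2, rfl⟩⟩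
      map_zero' := Subtype.ext (map_zero _)
      map_add' := fun a b => Subtype.ext (map_add _ _ _) }
  have hφ : Function.Surjective φ := by
    rintro ⟨_, ⟨u, hu, rfl⟩⟩
    exact ⟨⟨u, hu⟩, rfl⟩
  have hk : φ.ker = (RkU_two ↥(SUa K S)).range := by
    ext u
    constructor
    · intro hu
      have h1 : cls K u.1 = 0 := congrArg Subtype.val (AddMonoidHom.mem_ker.1 hu)
      have h2 : (QuotientGroup.mk (Additive.toMul u.1) : Kˣ ⧸ (powMonoidHom 2 : Kˣ →* Kˣ).range)
        = 1 := h1
      rw [QuotientGroup.eq_one_iff] at h2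
      obtain ⟨z, hz⟩ := h2
      have hz' : z ^ 2 = Additive.toMul u.1 := hz
      have hm : Additive.ofMul z ∈ SUa K S := by
        intro v hv
        have h3 := u.2 v hv
        rw [← hz', Units.val_pow_eq_pow_val, map_pow] at h3
        change v.valuation K (z : K) = 1
        have h4 := RkU_ne v (Additive.ofMul z)
        change v.valuation K (z : K) ≠ 0 at h4
        have h5 := congrArg WithZero.log h3
        rw [WithZero.log_pow, WithZero.log_one] at h5
        have h6 : WithZero.log (v.valuation K (z : K)) = 0 := by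
          have h7 : (2 : ℤ) * WithZero.log (v.valuation K (z : K)) = 0 := by
            rw [← h5, nsmul_eq_mul]
            norm_num
          exact (mul_eq_zero.1 h7).resolve_left (by norm_num)
        rw [← WithZero.exp_log h4, h6, WithZero.exp_zero]
      refine ⟨⟨Additive.ofMul z, hm⟩, ?_⟩
      apply Subtype.ext
      apply Additive.toMul.injective
      change z ^ (2 : ℤ) = _
      rw [← hz']
      norm_cast
    · rintro ⟨z, rfl⟩
      rw [AddMonoidHom.mem_ker]
      apply Subtype.ext
      change (QuotientGroup.mk ((Additive.toMul z.1) ^ (2 : ℤ)) :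
        Kˣ ⧸ (powMonoidHom 2 : Kˣ →* Kˣ).range) = 1
      rw [QuotientGroup.eq_one_iff]
      refine ⟨Additive.toMul z.1, ?_⟩
      change (Additive.toMul z.1) ^ 2 = _
      norm_cast
  rw [← hk]
  exact (Nat.card_congr (QuotientAddGroup.quotientKerEquivOfSurjective φ hφ).toEquiv).symm

end

theorem card_US {K : Type} [Field K] [NumberField K] [IsTotallyReal K]
    {S : Set (HeightOneSpectrum (𝓞 K))} (hS : S.Finite) :
    Nat.card (US K S) = 2 ^ (S.ncard + Module.finrank ℚ K) := by
  obtain ⟨h1, h2⟩ := RkU_A (K := K) hS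
  rw [RkU_cls, RkU_gen, RkU_tor, h2]
  have h3 : Module.finrank ℚ K = NumberField.Units.rank K + 1 := by
    unfold NumberField.Units.rank
    have h4 : 0 < Fintype.card (InfinitePlace K) := Fintype.card_pos
    rw [IsTotallyReal.finrank, InfinitePlace.card_eq_nrRealPlaces_add_nrComplexPlaces,
      IsTotallyReal.nrComplexPlaces_eq_zero] at *
    omega
  rw [h3, ← pow_succ', add_assoc]

end H24TD
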