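import Pool.Agent.H24.TD.Ya
import Pool.Agent.H24.TD.RkU
import Pool.Agent.H24.TD.Lo

/-!
Row Yb. (about 200 lines): many primary classes. So = finite set of odd places. Claim: the classes c with eo v c = 0 for v not in So and Pri v c for all v | 2 number at least 2^(#So).
 Let N' = SUa K So. Define rho : N' -> (units of 𝓞 K / 4) modulo squares: x in N' is a unit at all v | 2; write x = a / b with a, b in 𝓞 K prime to 2 (for every x in K which is a unit at the places above two there are such a, b: choose b in 𝓞 K with b x in 𝓞 K; make b prime to two: the denominator ideal I = {b : b x in 𝓞 K} is prime to 2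
   (x integral at v | 2), so I + (2) = 1 and contains an element b = 1 mod 2); a = b x is then also prime to 2 at each v | 2 (x unit). The class of a / b in (𝓞 K / 4)^* is well defined: a b' = a' b. (a mod 4 is a unit of 𝓞 K / 4 iff a is in no prime above two.) rho is a homomorphism.
 If rho x is a square: a = b s^2 mod 4 in 𝓞 K with s prime to 2, i.e. a b = (b s)^2 mod 4, x = a / b = (a b)/b^2 = (z^2 - 4 c) / b^2 with z = b s, c in 𝓞 K: so Prm (v.valuation K) x for all v | 2 (t = 1 / b).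
 The kernel P of rho : N' -> (units/squares) has index at most 2^n (index_sq), contains dbl N' (the classes of squares: rho (2 x) = 1; so P / dbl N' is defined). card of cls(P) = card (P / dbl N') (kernel of cls on N' is dbl N') >= card (N'/dbl N') / 2^n = 2^(#So + n) / 2^n = 2^(#So) by card_US.
 Each c in cls(P) satisfies eo v c = 0 for v not in So (eo_sc, order zero) and Pri v c at v | 2 (Pri_sc). The set of all such c is finite (contained in the finite set of fin_US if needed; to have ncard monotone use the finiteness hypothesis hfin in the statement).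
-/

set_option autoImplicit false
open scoped Classical

open WithZero NumberField IsDedekindDomain H38RT H38T1

namespace H24TD

theorem Yb_cancel {K : Type} [Field K] {c c' d : SC K} (h : c + d = c' + d) : c = c' := by
  letI : AddCommGroup (SC K) := Additive.addCommGroup
  exact add_right_cancel (G := SC K) h

section Yb_aux

variable {K : Type} [Field K] [NumberField K]

theorem Yb_two_mem {v : HeightOneSpectrum (𝓞 K)} (h : (4 : 𝓞 K) ∈ v.asIdeal) : ¬ OddP v := by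
  have h1 : (2 : 𝓞 K) * 2 ∈ v.asIdeal := by
    have : (2 : 𝓞 K) * 2 = 4 := by norm_num
    rw [this]
    exact h
  have h2 : (2 : 𝓞 K) ∈ v.asIdeal := by
    rcases v.isPrime.mem_or_mem h1 with h | h <;> exact h
  have h3 : v.valuation K ((2 : 𝓞 K) : K) < 1 :=
    (v.valuation_lt_one_iff_mem (K := K) (2 : 𝓞 K)).2 h2
  have h6 : ((2 : 𝓞 K) : K) = 2 := map_ofNat (algebraMap (𝓞 K) K) 2
  rw [h6] at h3
  intro h4
  unfold OddP at h4
  rw [h4] at h3
  exact lt_irrefl _ h3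

theorem Yb_mem_two {v : HeightOneSpectrum (𝓞 K)} (h : ¬ OddP v) : (4 : 𝓞 K) ∈ v.asIdeal := by
  have h6 : ((2 : 𝓞 K) : K) = 2 := map_ofNat (algebraMap (𝓞 K) K) 2
  have h1 : v.valuation K ((2 : 𝓞 K) : K) < 1 := by
    refine lt_of_le_of_ne (v.valuation_le_one 2) ?_
    rw [h6]
    exact h
  have h2 := (v.valuation_lt_one_iff_mem (K := K) (2 : 𝓞 K)).1 h1
  have h3 : (4 : 𝓞 K) = 2 * 2 := by norm_num
  rw [h3]
  exact Ideal.mul_mem_left _ _ h2

/-- An ideal which is in no prime above two is coprime to four. -/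
theorem Yb_sup (I : Ideal (𝓞 K)) (h : ∀ v : HeightOneSpectrum (𝓞 K), ¬ OddP v → ¬ I ≤ v.asIdeal) :
    I ⊔ Ideal.span {(4 : 𝓞 K)} = ⊤ := by
  by_contra hne
  obtain ⟨M, hM, hle⟩ := Ideal.exists_le_maximal _ hne
  have h4 : (4 : 𝓞 K) ∈ M := hle (Ideal.mem_sup_right (Ideal.subset_span rfl))
  have hb : M ≠ ⊥ := by
    rintro rfl
    rw [Ideal.mem_bot] at h4
    exact (by norm_num : (4 : 𝓞 K) ≠ 0) h4
  exact h ⟨M, hM.isPrime, hb⟩ (Yb_two_mem h4) (le_sup_left.trans hle)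

theorem Yb_unit (a : 𝓞 K) (h : ∀ v : HeightOneSpectrum (𝓞 K), ¬ OddP v → a ∉ v.asIdeal) :
    IsUnit (Ideal.Quotient.mk (Ideal.span {(4 : 𝓞 K)}) a) := by
  have h1 := Yb_sup (Ideal.span {a}) (fun v hv hle => h v hv (hle (Ideal.subset_span rfl)))
  rw [Ideal.eq_top_iff_one, Submodule.mem_sup] at h1
  obtain ⟨y, hy, z, hz, hyz⟩ := h1
  obtain ⟨m, rfl⟩ := Ideal.mem_span_singleton'.1 hy
  refine IsUnit.of_mul_eq_one (Ideal.Quotient.mk _ m) ?_
  rw [← map_mul, ← map_one (Ideal.Quotient.mk (Ideal.span {(4 : 𝓞 K)})), Ideal.Quotient.eq]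
  have h2 : a * m - 1 = -z := by
    rw [← hyz]
    ring
  rw [h2]
  exact neg_mem hz

theorem Yb_not_mem {a : 𝓞 K} (h : IsUnit (Ideal.Quotient.mk (Ideal.span {(4 : 𝓞 K)}) a))
    {v : HeightOneSpectrum (𝓞 K)} (hv : ¬ OddP v) : a ∉ v.asIdeal := by
  intro ha
  obtain ⟨b, hb⟩ := h.exists_right_inv
  obtain ⟨b, rfl⟩ := Ideal.Quotient.mk_surjective b
  rw [← map_mul, ← map_one (Ideal.Quotient.mk (Ideal.span {(4 : 𝓞 K)})), Ideal.Quotient.eq] at hb
  obtain ⟨m, hm⟩ := Ideal.mem_span_singleton'.1 hb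
  apply v.isPrime.ne_top
  rw [Ideal.eq_top_iff_one]
  have h2 : (1 : 𝓞 K) = a * b - m * 4 := by
    rw [hm]
    ring
  rw [h2]
  exact sub_mem (Ideal.mul_mem_right _ _ ha) (Ideal.mul_mem_left _ _ (Yb_mem_two hv))

theorem Yb_val_one {a : 𝓞 K} {v : HeightOneSpectrum (𝓞 K)} (h : a ∉ v.asIdeal) :
    v.valuation K (a : K) = 1 := by
  refine le_antisymm (v.valuation_le_one a) (not_lt.1 fun h1 => ?_)
  exact h ((v.valuation_lt_one_iff_mem (K := K) a).1 h1)

/-- An element integral at `v` has a denominator outside `v`. -/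
theorem Yb_den (v : HeightOneSpectrum (𝓞 K)) {x : K} (hx : v.valuation K x ≤ 1) :
    ∃ b a : 𝓞 K, b ∉ v.asIdeal ∧ (b : K) * x = a := by
  obtain ⟨α, β, hβ, hab⟩ := IsFractionRing.div_surjective (A := 𝓞 K) x
  have hβ0 : β ≠ 0 := nonZeroDivisors.ne_zero hβ
  have hβK : (β : K) ≠ 0 := by
    intro h0
    apply hβ0
    apply FaithfulSMul.algebraMap_injective (𝓞 K) K
    rw [map_zero]
    exact h0
  have hle : v.intValuation α ≤ v.intValuation β := by
    have h1 : v.valuation K (α : K) = v.intValuation α := v.valuation_of_algebraMap α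
    have h2 : v.valuation K (β : K) = v.intValuation β := v.valuation_of_algebraMap β
    rw [← h1, ← h2]
    have h3 : (α : K) = x * β := by
      rw [← hab]
      exact (div_mul_cancel₀ _ hβK).symm
    rw [h3, map_mul]
    calc v.valuation K x * v.valuation K (β : K) ≤ 1 * v.valuation K (β : K) :=
          mul_le_mul_left hx _
      _ = _ := one_mul _
  have hk := v.intValuation_if_neg hβ0
  set k := (Associates.mk v.asIdeal).count
    (Associates.mk (Ideal.span {β} : Ideal (𝓞 K))).factors with hkdef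
  have h1 : v.asIdeal ^ k ∣ Ideal.span {β} := by
    rw [← v.intValuation_le_pow_iff_dvd, hk]
  have h2 : α ∈ v.asIdeal ^ k := by
    rw [← v.intValuation_le_pow_iff_mem]
    exact hle.trans hk.le
  obtain ⟨J, hJ⟩ := h1
  have h3 : ¬ J ≤ v.asIdeal := by
    intro hle'
    have h4 : v.asIdeal ^ (k + 1) ∣ Ideal.span {β} := by
      rw [hJ, pow_succ]
      exact mul_dvd_mul_left _ (Ideal.dvd_iff_le.2 hle')
    rw [← v.intValuation_le_pow_iff_dvd, hk, exp_le_exp] at h4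
    push_cast at h4
    omega
  obtain ⟨b, hbJ, hbv⟩ := SetLike.not_le_iff_exists.1 h3
  have h5 : α * b ∈ Ideal.span {β} := by
    rw [hJ]
    exact Ideal.mul_mem_mul h2 hbJ
  obtain ⟨γ, hγ⟩ := Ideal.mem_span_singleton'.1 h5
  refine ⟨b, γ, hbv, ?_⟩
  rw [← hab]
  have h6 : (γ : K) * (β : K) = (α : K) * (b : K) := by
    have := congrArg (algebraMap (𝓞 K) K) hγ
    rw [map_mul, map_mul] at this
    exact this
  change (b : K) * ((α : K) / (β : K)) = γ
  rw [mul_div_assoc', div_eq_iff hβK, h6, mul_comm]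

/-- Fractions prime to two. -/
theorem Yb_frac {x : K} (hx0 : x ≠ 0)
    (hx : ∀ v : HeightOneSpectrum (𝓞 K), ¬ OddP v → v.valuation K x = 1) :
    ∃ b a : 𝓞 K, (b : K) ≠ 0 ∧ (b : K) * x = a ∧
      IsUnit (Ideal.Quotient.mk (Ideal.span {(4 : 𝓞 K)}) b) ∧
      IsUnit (Ideal.Quotient.mk (Ideal.span {(4 : 𝓞 K)}) a) := by
  let I : Ideal (𝓞 K) :=
    { carrier := {b | ∃ a : 𝓞 K, (b : K) * x = a}
      zero_mem' := ⟨0, by simp⟩
      add_mem' := by
        rintro b b' ⟨a, ha⟩ ⟨a', ha'⟩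
        refine ⟨a + a', ?_⟩
        have h1 : ((b + b' : 𝓞 K) : K) = (b : K) + b' := map_add (algebraMap (𝓞 K) K) b b'
        have h2 : ((a + a' : 𝓞 K) : K) = (a : K) + a' := map_add (algebraMap (𝓞 K) K) a a'
        rw [h1, h2, add_mul, ha, ha']
      smul_mem' := by
        rintro m b ⟨a, ha⟩
        refine ⟨m * a, ?_⟩
        have h1 : ((m • b : 𝓞 K) : K) = (m : K) * b := map_mul (algebraMap (𝓞 K) K) m b
        have h2 : ((m * a : 𝓞 K) : K) = (m : K) * a := map_mul (algebraMap (𝓞 K) K) m a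
        rw [h1, h2, mul_assoc, ha] }
  have hI : I ⊔ Ideal.span {(4 : 𝓞 K)} = ⊤ := by
    refine Yb_sup I fun v hv hle => ?_
    obtain ⟨b, a, hb, hba⟩ := Yb_den v (x := x) (hx v hv).le
    exact hb (hle ⟨a, hba⟩)
  rw [Ideal.eq_top_iff_one, Submodule.mem_sup] at hI
  obtain ⟨b, ⟨a, hba⟩, z, hz, hbz⟩ := hI
  obtain ⟨m, rfl⟩ := Ideal.mem_span_singleton'.1 hz
  have hb1 : Ideal.Quotient.mk (Ideal.span {(4 : 𝓞 K)}) b = 1 := by
    rw [← map_one (Ideal.Quotient.mk (Ideal.span {(4 : 𝓞 K)})), Ideal.Quotient.eq]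
    have h2 : b - 1 = -(m * 4) := by
      rw [← hbz]
      ring
    rw [h2]
    exact neg_mem hz
  have hbu : IsUnit (Ideal.Quotient.mk (Ideal.span {(4 : 𝓞 K)}) b) := by
    rw [hb1]
    exact isUnit_one
  have hau : IsUnit (Ideal.Quotient.mk (Ideal.span {(4 : 𝓞 K)}) a) := by
    refine Yb_unit a fun v hv ha => ?_
    have h1 := (v.valuation_lt_one_iff_mem (K := K) a).2 ha
    have h2 : v.valuation K (a : K) = 1 := by
      rw [← hba, map_mul, hx v hv, Yb_val_one (Yb_not_mem hbu hv), one_mul]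
    change v.valuation K (a : K) < 1 at h1
    rw [h2] at h1
    exact lt_irrefl _ h1
  refine ⟨b, a, ?_, hba, hbu, hau⟩
  intro h0
  -- then the ring modulo four is trivial
  have hb0 : b = 0 := by
    apply FaithfulSMul.algebraMap_injective (𝓞 K) K
    rw [map_zero]
    exact h0
  rw [hb0, map_zero] at hb1
  haveI : Subsingleton (𝓞 K ⧸ (Ideal.span {(4 : 𝓞 K)})) := subsingleton_of_zero_eq_one hb1
  have h3 := card_sq_one K
  have h4 : Nat.card {x : (𝓞 K ⧸ (Ideal.span {(4 : 𝓞 K)}))ˣ // x ^ 2 = 1} ≤ 1 := by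
    haveI : Subsingleton {x : (𝓞 K ⧸ (Ideal.span {(4 : 𝓞 K)}))ˣ // x ^ 2 = 1} := by
      refine ⟨fun x y => Subtype.ext (Units.ext (Subsingleton.elim _ _))⟩
    exact Finite.card_le_one_iff_subsingleton.2 this
  have h5 : 0 < Module.finrank ℚ K := Module.finrank_pos
  have h6 : 1 < 2 ^ Module.finrank ℚ K := Nat.one_lt_two_pow h5.ne'
  omega

/-- The product of two elements with the same class modulo squares is primary. -/
theorem Yb_prm {x x' : K} {a b a' b' : 𝓞 K} (hb : (b : K) ≠ 0) (hb' : (b' : K) ≠ 0)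
    (hab : (b : K) * x = a) (hab' : (b' : K) * x' = a')
    {α β α' β' σ : (𝓞 K ⧸ (Ideal.span {(4 : 𝓞 K)}))ˣ}
    (hα : (α : 𝓞 K ⧸ (Ideal.span {(4 : 𝓞 K)})) = Ideal.Quotient.mk _ a)
    (hβ : (β : 𝓞 K ⧸ (Ideal.span {(4 : 𝓞 K)})) = Ideal.Quotient.mk _ b)
    (hα' : (α' : 𝓞 K ⧸ (Ideal.span {(4 : 𝓞 K)})) = Ideal.Quotient.mk _ a')
    (hβ' : (β' : 𝓞 K ⧸ (Ideal.span {(4 : 𝓞 K)})) = Ideal.Quotient.mk _ b')
    (h : α' * β' = α * β * σ ^ 2) {v : HeightOneSpectrum (𝓞 K)} (hv : ¬ OddP v) :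
    Prm (v.valuation K) (x * x') := by
  obtain ⟨z, hz⟩ := Ideal.Quotient.mk_surjective (I := Ideal.span {(4 : 𝓞 K)})
    ((α * β * σ : (𝓞 K ⧸ (Ideal.span {(4 : 𝓞 K)}))ˣ) : 𝓞 K ⧸ (Ideal.span {(4 : 𝓞 K)}))
  have h1 : Ideal.Quotient.mk (Ideal.span {(4 : 𝓞 K)}) (z ^ 2) =
      Ideal.Quotient.mk (Ideal.span {(4 : 𝓞 K)}) (a * b * (a' * b')) := by
    rw [map_pow, hz, map_mul, map_mul, map_mul, ← hα, ← hβ, ← hα', ← hβ']
    have h2 : (α * β * σ) ^ 2 = α * β * (α' * β') := by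
      rw [h, mul_pow, sq (α * β)]
      exact mul_assoc _ _ _
    have h3 := congrArg (fun u : (𝓞 K ⧸ (Ideal.span {(4 : 𝓞 K)}))ˣ =>
      (u : 𝓞 K ⧸ (Ideal.span {(4 : 𝓞 K)}))) h2
    simp only [Units.val_mul, Units.val_pow_eq_pow_val] at h3 ⊢
    exact h3
  rw [Ideal.Quotient.eq] at h1
  obtain ⟨m, hm⟩ := Ideal.mem_span_singleton'.1 h1
  have hzu : IsUnit (Ideal.Quotient.mk (Ideal.span {(4 : 𝓞 K)}) z) := by
    rw [hz]
    exact Units.isUnit _
  refine ⟨((b : K) * (b' : K))⁻¹, (z : K), (m : K), inv_ne_zero (mul_ne_zero hb hb'),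
    Yb_val_one (Yb_not_mem hzu hv), v.valuation_le_one m, ?_⟩
  have h4 : (m : K) * 4 = (z : K) ^ 2 - (a : K) * b * ((a' : K) * b') := by
    have h5 := congrArg (algebraMap (𝓞 K) K) hm
    rw [map_mul, map_sub, map_pow, map_mul, map_mul, map_mul, map_ofNat] at h5
    exact h5
  have h5 : (z : K) ^ 2 - 4 * m = (b * x) * b * ((b' * x') * b') := by
    rw [hab, hab']
    linear_combination -h4
  rw [h5]
  field_simp

end Yb_aux

theorem card_Y {K : Type} [Field K] [NumberField K] [IsTotallyReal K]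
    {So : Set (HeightOneSpectrum (𝓞 K))} (hS : So.Finite) (hodd : ∀ v ∈ So, OddP v)
    (hfin : {c : SC K | (∀ v, v ∉ So → eo v c = 0) ∧ ∀ v, ¬ OddP v → Pri v c}.Finite) :
    2 ^ So.ncard ≤ {c : SC K | (∀ v, v ∉ So → eo v c = 0) ∧ ∀ v, ¬ OddP v → Pri v c}.ncard := by
  set Y := {c : SC K | (∀ v, v ∉ So → eo v c = 0) ∧ ∀ v, ¬ OddP v → Pri v c} with hY
  have hcard := card_US (K := K) hS
  haveI hfinUS : Finite (US K So) := Nat.finite_of_card_ne_zero (by rw [hcard]; positivity)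
  have hidx := index_sq K
  rw [Subgroup.index_eq_card] at hidx
  haveI hfinQ : Finite ((𝓞 K ⧸ (Ideal.span {(4 : 𝓞 K)}))ˣ ⧸
      (powMonoidHom 2 : (𝓞 K ⧸ (Ideal.span {(4 : 𝓞 K)}))ˣ →*
        (𝓞 K ⧸ (Ideal.span {(4 : 𝓞 K)}))ˣ).range) :=
    Nat.finite_of_card_ne_zero (by rw [hidx]; positivity)
  have hex : ∀ c : US K So, ∃ (x : K) (b a : 𝓞 K) (α β : (𝓞 K ⧸ (Ideal.span {(4 : 𝓞 K)}))ˣ),
      x ≠ 0 ∧ sc x = (c : SC K) ∧ (∀ v, v ∉ So → v.valuation K x = 1) ∧ (b : K) ≠ 0 ∧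
      (b : K) * x = a ∧ (α : 𝓞 K ⧸ (Ideal.span {(4 : 𝓞 K)})) = Ideal.Quotient.mk _ a ∧
      (β : 𝓞 K ⧸ (Ideal.span {(4 : 𝓞 K)})) = Ideal.Quotient.mk _ b := by
    rintro ⟨c, u, hu, rfl⟩
    have hx0 : ((Additive.toMul u : Kˣ) : K) ≠ 0 := Units.ne_zero _
    obtain ⟨b, a, hb0, hba, hbu, hau⟩ := Yb_frac hx0 (fun v hv => hu v (fun h => hv (hodd v h)))
    refine ⟨((Additive.toMul u : Kˣ) : K), b, a, hau.unit, hbu.unit, hx0, ?_, hu, hb0, hba,
      rfl, rfl⟩
    rw [← cls_ofMul _ hx0]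
    have h1 : Units.mk0 ((Additive.toMul u : Kˣ) : K) hx0 = Additive.toMul u := by
      ext
      rfl
    rw [h1]
    rfl
  choose x b a α β hx0 hsc hval hb0 hba hα hβ using hex
  cases nonempty_fintype (US K So)
  cases nonempty_fintype ((𝓞 K ⧸ (Ideal.span {(4 : 𝓞 K)}))ˣ ⧸
      (powMonoidHom 2 : (𝓞 K ⧸ (Ideal.span {(4 : 𝓞 K)}))ˣ →*
        (𝓞 K ⧸ (Ideal.span {(4 : 𝓞 K)}))ˣ).range)
  rw [Nat.card_eq_fintype_card] at hcard hidx
  obtain ⟨y, hy⟩ := Fintype.exists_le_card_fiber_of_mul_le_card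
    (f := fun c : US K So => (QuotientGroup.mk (α c * β c) : (𝓞 K ⧸ (Ideal.span {(4 : 𝓞 K)}))ˣ ⧸
      (powMonoidHom 2 : (𝓞 K ⧸ (Ideal.span {(4 : 𝓞 K)}))ˣ →*
        (𝓞 K ⧸ (Ideal.span {(4 : 𝓞 K)}))ˣ).range)) (n := 2 ^ So.ncard) (by
      rw [hcard, hidx, ← pow_add, add_comm])
  have hpos : 0 < 2 ^ So.ncard := by positivity
  obtain ⟨c₀, hc₀⟩ := Finset.card_pos.1 (lt_of_lt_of_le hpos hy)
  rw [Finset.mem_filter] at hc₀
  rw [Set.ncard_eq_toFinset_card Y hfin]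
  refine hy.trans (Finset.card_le_card_of_injOn (fun c => (c : SC K) + (c₀ : SC K)) ?_ ?_)
  · intro c hc
    rw [Finset.mem_coe, Finset.mem_filter] at hc
    rw [Finset.mem_coe, Set.Finite.mem_toFinset]
    have h1 : (c : SC K) + (c₀ : SC K) = sc (x c * x c₀) := by
      rw [sc_mul (hx0 c) (hx0 c₀), hsc, hsc]
    have hxx : x c * x c₀ ≠ 0 := mul_ne_zero (hx0 c) (hx0 c₀)
    have h2 := hc.2.trans hc₀.2.symm
    rw [QuotientGroup.eq] at h2
    obtain ⟨σ, hσ⟩ := h2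
    have h3 : α c₀ * β c₀ = α c * β c * σ ^ 2 := by
      have h4 : σ ^ 2 = (α c * β c)⁻¹ * (α c₀ * β c₀) := hσ
      rw [h4, mul_inv_cancel_left]
    change (∀ v, v ∉ So → eo v ((c : SC K) + (c₀ : SC K)) = 0) ∧
      ∀ v, ¬ OddP v → Pri v ((c : SC K) + (c₀ : SC K))
    rw [h1]
    constructor
    · intro v hv
      rw [eo_sc v hxx]
      unfold ord
      rw [map_mul, hval c v hv, hval c₀ v hv, one_mul, log_one, neg_zero, Int.cast_zero]
    · intro v hv
      rw [Pri_sc hv hxx]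
      exact Yb_prm (hb0 c) (hb0 c₀) (hba c) (hba c₀) (hα c) (hβ c) (hα c₀) (hβ c₀) h3 hv
  · intro c _ c' _ h
    exact Subtype.ext (Yb_cancel h)

end H24TD
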