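import Pool.Agent.H24.TD.Rc
import Pool.Agent.H24.TD.Yb
import Pool.Agent.H24.TD.Li
import Pool.Agent.H24.TD.Al
import Pool.Agent.H24.TD.Fi

/-!
Assembly (helper24): the duality theorem and the Greenberg-Wiles formula.
-/

set_option autoImplicit false
open scoped Classical

open WithZero NumberField IsDedekindDomain H38RT H38T1

namespace H24TD

variable {K : Type} [Field K] [NumberField K]

/-- The places above two. -/
def S2 (K : Type) [Field K] [NumberField K] : Set (HeightOneSpectrum (𝓞 K)) := {v | ¬ OddP v}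

lemma S2_fin : (S2 K).Finite := fin_bad (x := (2 : K)) two_ne_zero

/-- The classes of even order outside `So` and the places above two. -/
def UU (So : Set (HeightOneSpectrum (𝓞 K))) : Set (SC K) :=
  {c | ∀ v, v ∉ So → OddP v → eo v c = 0}

/-- The primary classes of even order outside `So`. -/
def YY (So : Set (HeightOneSpectrum (𝓞 K))) : Set (SC K) :=
  {c | (∀ v, v ∉ So → eo v c = 0) ∧ ∀ v, ¬ OddP v → Pri v c}

lemma SC_add_self (c : SC K) : c + c = 0 := by
  have := SC.two_smul c
  rwa [two_nsmul] at this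

lemma eo_zero (v : HeightOneSpectrum (𝓞 K)) : eo v (0 : SC K) = 0 := by
  have := eo_add v (0 : SC K) 0
  rw [add_zero] at this
  simpa using this

lemma la_zero {v : HeightOneSpectrum (𝓞 K)} (hv : OddP v) : la v (0 : SC K) = 0 := by
  have := la_add hv (0 : SC K) 0
  rw [add_zero] at this
  simpa using this

lemma si_zero (w : K →+* ℝ) : si w (0 : SC K) = 0 := by
  have := si_add w (0 : SC K) 0
  rw [add_zero] at this
  simpa using this

section

variable (So : Set (HeightOneSpectrum (𝓞 K)))

/-- Localization of the first kind. -/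
noncomputable def fi (c : SC K) : AA So (S2 K) (K →+* ℝ) :=
  (fun v => (eo v.1 c, la v.1 c), fun v => eo v.1 c, fun w => si w c)

/-- Localization of the second kind. -/
noncomputable def fj (c : SC K) : AA So (S2 K) (K →+* ℝ) :=
  (fun v => (eo v.1 c, la v.1 c), fun v => ka v.1 c, fun w => si w c)

variable {So}

lemma fi_add (ho : ∀ v ∈ So, OddP v) (c c' : SC K) : fi So (c + c') = fi So c + fi So c' := by
  unfold fi
  refine Prod.ext ?_ (Prod.ext ?_ ?_)
  · funext v
    exact Prod.ext (eo_add _ _ _) (la_add (ho _ v.2) _ _)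
  · funext v
    exact eo_add _ _ _
  · funext w
    exact si_add _ _ _

lemma fj_add (ho : ∀ v ∈ So, OddP v) {c c' : SC K} (hc : c ∈ YY So) (hc' : c' ∈ YY So) :
    fj So (c + c') = fj So c + fj So c' := by
  unfold fj
  refine Prod.ext ?_ (Prod.ext ?_ ?_)
  · funext v
    exact Prod.ext (eo_add _ _ _) (la_add (ho _ v.2) _ _)
  · funext v
    exact (Pri_add v.2 (hc.2 _ v.2) (hc'.2 _ v.2)).2
  · funext w
    exact si_add _ _ _

lemma UU_add {c c' : SC K} (hc : c ∈ UU So) (hc' : c' ∈ UU So) : c + c' ∈ UU So := by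
  intro v hv hv'
  rw [eo_add, hc v hv hv', hc' v hv hv', add_zero]

lemma YY_add {c c' : SC K} (hc : c ∈ YY So) (hc' : c' ∈ YY So) : c + c' ∈ YY So := by
  refine ⟨fun v hv => ?_, fun v hv => (Pri_add hv (hc.2 v hv) (hc'.2 v hv)).1⟩
  rw [eo_add, hc.1 v hv, hc'.1 v hv, add_zero]

lemma UU_zero : (0 : SC K) ∈ UU So := fun v _ _ => eo_zero v

lemma YY_zero : (0 : SC K) ∈ YY So := ⟨fun v _ => eo_zero v, fun _ hv => (Pri_zero hv).1⟩

lemma fi_zero (ho : ∀ v ∈ So, OddP v) : fi So (0 : SC K) = 0 := by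
  have := fi_add (So := So) ho (0 : SC K) 0
  rw [add_zero] at this
  simpa using this

lemma fj_zero (ho : ∀ v ∈ So, OddP v) : fj So (0 : SC K) = 0 := by
  have := fj_add (So := So) ho YY_zero YY_zero
  rw [add_zero] at this
  simpa using this

lemma AA_neg {α β ρ : Type} (x : AA α β ρ) : -x = x := by
  refine Prod.ext ?_ (Prod.ext ?_ ?_)
  · funext v
    exact Prod.ext (ZMod.neg_eq_self_mod_two _) (ZMod.neg_eq_self_mod_two _)
  · funext v
    exact ZMod.neg_eq_self_mod_two _
  · funext v
    exact ZMod.neg_eq_self_mod_two _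

variable (So)

/-- The image of the first group. -/
noncomputable def II (ho : ∀ v ∈ So, OddP v) : Submodule (ZMod 2) (AA So (S2 K) (K →+* ℝ)) :=
  AddSubgroup.toZModSubmodule 2
    { carrier := fi So '' UU So
      zero_mem' := ⟨0, UU_zero, fi_zero ho⟩
      add_mem' := by
        rintro _ _ ⟨c, hc, rfl⟩ ⟨c', hc', rfl⟩
        exact ⟨c + c', UU_add hc hc', fi_add ho c c'⟩
      neg_mem' := by
        rintro _ ⟨c, hc, rfl⟩
        exact ⟨c, hc, (AA_neg _).symm⟩ }

/-- The image of the second group. -/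
noncomputable def JJm (ho : ∀ v ∈ So, OddP v) : Submodule (ZMod 2) (AA So (S2 K) (K →+* ℝ)) :=
  AddSubgroup.toZModSubmodule 2
    { carrier := fj So '' YY So
      zero_mem' := ⟨0, YY_zero, fj_zero ho⟩
      add_mem' := by
        rintro _ _ ⟨c, hc, rfl⟩ ⟨c', hc', rfl⟩
        exact ⟨c + c', YY_add hc hc', fj_add ho hc hc'⟩
      neg_mem' := by
        rintro _ ⟨c, hc, rfl⟩
        exact ⟨c, hc, (AA_neg _).symm⟩ }

variable {So}

lemma mem_II {ho : ∀ v ∈ So, OddP v} {x} : x ∈ II So ho ↔ x ∈ fi So '' UU So := Iff.rfl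

lemma mem_JJm {ho : ∀ v ∈ So, OddP v} {x} : x ∈ JJm So ho ↔ x ∈ fj So '' YY So := Iff.rfl

lemma fi_inj (ho : ∀ v ∈ So, OddP v) (hN : NS So ⊆ {(0 : SC K)}) : Set.InjOn (fi So) (UU So) := by
  intro c hc c' hc' h
  have h1 : fi So (c + c') = 0 := by
    rw [fi_add ho, h]
    have := AA_neg (fi So c')
    rw [← sub_eq_zero, sub_eq_add_neg] at this
    have h3 : fi So c' + fi So c' = fi So c' - fi So c' := by
      rw [sub_eq_add_neg, AA_neg]
    rw [h3, sub_self]
  have h2 : c + c' ∈ NS So := by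
    refine ⟨fun v => ?_, fun v hv => ?_, fun w => ?_⟩
    · by_cases hv : v ∈ So
      · have := congrFun (congrArg Prod.fst h1) ⟨v, hv⟩
        exact congrArg Prod.fst this
      · by_cases ho' : OddP v
        · exact UU_add hc hc' v hv ho'
        · exact congrFun (congrArg (fun x => x.2.1) h1) ⟨v, ho'⟩
    · have := congrFun (congrArg Prod.fst h1) ⟨v, hv⟩
      exact congrArg Prod.snd this
    · exact congrFun (congrArg (fun x => x.2.2) h1) w
  have h3 : c + c' = 0 := hN h2
  have h4 := SC_add_self c'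
  rw [← h4] at h3
  exact add_right_cancel h3

lemma fj_inj (ho : ∀ v ∈ So, OddP v) (hN : NS So ⊆ {(0 : SC K)}) : Set.InjOn (fj So) (YY So) := by
  intro c hc c' hc' h
  have h1 : fj So (c + c') = 0 := by
    rw [fj_add ho hc hc', h]
    have h3 : fj So c' + fj So c' = fj So c' - fj So c' := by
      rw [sub_eq_add_neg, AA_neg]
    rw [h3, sub_self]
  have h2 : c + c' ∈ NS So := by
    refine ⟨fun v => ?_, fun v hv => ?_, fun w => ?_⟩
    · by_cases hv : v ∈ So
      · have := congrFun (congrArg Prod.fst h1) ⟨v, hv⟩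
        exact congrArg Prod.fst this
      · exact (YY_add hc hc').1 v hv
    · have := congrFun (congrArg Prod.fst h1) ⟨v, hv⟩
      exact congrArg Prod.snd this
    · exact congrFun (congrArg (fun x => x.2.2) h1) w
  have h3 : c + c' = 0 := hN h2
  have h4 := SC_add_self c'
  rw [← h4] at h3
  exact add_right_cancel h3

lemma UU_fin (hf : So.Finite) : (UU So : Set (SC K)).Finite := by
  refine (fin_US (hf.union S2_fin)).subset fun c hc v hv => ?_
  rw [Set.mem_union, not_or] at hv
  exact hc v hv.1 (not_not.1 hv.2)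

lemma YY_fin (hf : So.Finite) : (YY So : Set (SC K)).Finite :=
  (fin_US hf).subset fun _ hc => hc.1

lemma card_real [IsTotallyReal K] : Fintype.card (K →+* ℝ) = Module.finrank ℚ K := Sy_card K

lemma US_le : (US K (So ∪ S2 K) : Set (SC K)) ⊆ UU So := by
  rintro _ ⟨u, hu, rfl⟩ v hv hv'
  rw [cls_eq, eo_sc v (Units.ne_zero _)]
  have h1 : v.valuation K ((Additive.toMul u : Kˣ) : K) = 1 := by
    apply hu v
    rw [Set.mem_union, not_or]
    exact ⟨hv, not_not.2 hv'⟩
  unfold ord
  rw [h1]
  simp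

/-- Orthogonality. -/
lemma orth [IsTotallyReal K] (hf : So.Finite) [Fintype So] [Fintype (S2 K)]
    (ho : ∀ v ∈ So, OddP v) {u y : SC K} (hu : u ∈ UU So) (hy : y ∈ YY So) :
    BB (fun v : So => la v.1 (sc (-1 : K))) (fi So u) (fj So y) = 0 := by
  rw [BB_apply]
  have h := recip_sc (c := u) (c' := y) (So.toFinset ∪ (S2 K).toFinset) (by
      intro v hv
      rw [Finset.mem_union, Set.mem_toFinset, Set.mem_toFinset]
      exact Or.inr hv) (by
      intro v hv
      rw [Finset.mem_union, Set.mem_toFinset, Set.mem_toFinset, not_or] at hv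
      exact hu v hv.1 (not_not.1 hv.2)) (by
      intro v hv
      rw [Finset.mem_union, Set.mem_toFinset, Set.mem_toFinset, not_or] at hv
      exact hy.1 v hv.1) hy.2
  rw [Finset.sum_union] at h
  · have h1 : ∑ v ∈ So.toFinset, (if OddP v then tp v u y else eo v u * ka v y) =
        ∑ v : So, bl (la v.1 (sc (-1 : K))) ((fi So u).1 v) ((fj So y).1 v) := by
      rw [← Finset.sum_coe_sort]
      have e : ∀ v : So.toFinset, v.1 ∈ So := fun v => Set.mem_toFinset.1 v.2
      refine Fintype.sum_equiv (Equiv.subtypeEquivRight (fun v => Set.mem_toFinset)) _ _ ?_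
      intro v
      rw [if_pos (ho _ (e v))]
      rfl
    have h2 : ∑ v ∈ (S2 K).toFinset, (if OddP v then tp v u y else eo v u * ka v y) =
        ∑ v : S2 K, (fi So u).2.1 v * (fj So y).2.1 v := by
      rw [← Finset.sum_coe_sort]
      have e : ∀ v : (S2 K).toFinset, v.1 ∈ S2 K := fun v => Set.mem_toFinset.1 v.2
      refine Fintype.sum_equiv (Equiv.subtypeEquivRight (fun v => Set.mem_toFinset)) _ _ ?_
      intro v
      rw [if_neg (e v)]
      rfl
    rw [h1, h2] at h
    exact h
  · rw [Finset.disjoint_left]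
    intro v hv hv'
    rw [Set.mem_toFinset] at hv hv'
    exact hv' (ho v hv)

end

end H24TD
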