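import Pool.Agent.H24.TD.Gw

/-!
Assembly (helper24): the Greenberg-Wiles formula.
-/

set_option autoImplicit false
open scoped Classical

open WithZero NumberField IsDedekindDomain H38RT H38T1

namespace H24TD

variable {K : Type} [Field K] [NumberField K]

/-- The exact cardinalities. -/
lemma cards [IsTotallyReal K] {So : Set (HeightOneSpectrum (𝓞 K))} (hf : So.Finite)
    (ho : ∀ v ∈ So, OddP v) (hN : NS So ⊆ {(0 : SC K)}) [Fintype So] [Fintype (S2 K)]
    (W W' : Submodule (ZMod 2) (AA So (S2 K) (K →+* ℝ)))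
    (hW : ∀ y, y ∈ W' ↔ ∀ x ∈ W, BB (fun v : So => la v.1 (sc (-1 : K))) x y = 0) :
    (UU So : Set (SC K)).ncard = 2 ^ (So.ncard + (S2 K).ncard + Module.finrank ℚ K) ∧
    (YY So : Set (SC K)).ncard = 2 ^ So.ncard ∧
    ({c ∈ UU So | fi So c ∈ W} : Set (SC K)).ncard * 2 ^ So.ncard =
      Nat.card W * ({c ∈ YY So | fj So c ∈ W'} : Set (SC K)).ncard := by
  set n := Module.finrank ℚ K with hn
  have hI : Nat.card (II So ho) = (UU So : Set (SC K)).ncard := by
    have : Nat.card (II So ho) = (fi So '' UU So).ncard := rfl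
    rw [this, Set.ncard_image_of_injOn (fi_inj ho hN)]
  have hJ : Nat.card (JJm So ho) = (YY So : Set (SC K)).ncard := by
    have : Nat.card (JJm So ho) = (fj So '' YY So).ncard := rfl
    rw [this, Set.ncard_image_of_injOn (fj_inj ho hN)]
  have hIW : Nat.card (II So ho ⊓ W : Submodule (ZMod 2) (AA So (S2 K) (K →+* ℝ))) =
      ({c ∈ UU So | fi So c ∈ W} : Set (SC K)).ncard := by
    have h1 : (((II So ho ⊓ W : Submodule (ZMod 2) (AA So (S2 K) (K →+* ℝ))) :
        Set (AA So (S2 K) (K →+* ℝ)))) = fi So '' {c ∈ UU So | fi So c ∈ W} := by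
      ext x
      constructor
      · rintro ⟨⟨c, hc, rfl⟩, hx⟩
        exact ⟨c, ⟨hc, hx⟩, rfl⟩
      · rintro ⟨c, ⟨hc, hx⟩, rfl⟩
        exact ⟨⟨c, hc, rfl⟩, hx⟩
    have h2 : Nat.card (II So ho ⊓ W : Submodule (ZMod 2) (AA So (S2 K) (K →+* ℝ))) =
      (fi So '' {c ∈ UU So | fi So c ∈ W}).ncard := by
      rw [← h1]
      rfl
    rw [h2, Set.ncard_image_of_injOn ((fi_inj ho hN).mono (fun c hc => hc.1))]
  have hJW : Nat.card (JJm So ho ⊓ W' : Submodule (ZMod 2) (AA So (S2 K) (K →+* ℝ))) =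
      ({c ∈ YY So | fj So c ∈ W'} : Set (SC K)).ncard := by
    have h1 : (((JJm So ho ⊓ W' : Submodule (ZMod 2) (AA So (S2 K) (K →+* ℝ))) :
        Set (AA So (S2 K) (K →+* ℝ)))) = fj So '' {c ∈ YY So | fj So c ∈ W'} := by
      ext x
      constructor
      · rintro ⟨⟨c, hc, rfl⟩, hx⟩
        exact ⟨c, ⟨hc, hx⟩, rfl⟩
      · rintro ⟨c, ⟨hc, hx⟩, rfl⟩
        exact ⟨⟨c, hc, rfl⟩, hx⟩
    have h2 : Nat.card (JJm So ho ⊓ W' : Submodule (ZMod 2) (AA So (S2 K) (K →+* ℝ))) =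
      (fj So '' {c ∈ YY So | fj So c ∈ W'}).ncard := by
      rw [← h1]
      rfl
    rw [h2, Set.ncard_image_of_injOn ((fj_inj ho hN).mono (fun c hc => hc.1))]
  have hdis : Disjoint So (S2 K) := by
    rw [Set.disjoint_left]
    intro v hv hv'
    exact hv' (ho v hv)
  have hUge : 2 ^ (So.ncard + (S2 K).ncard + n) ≤ (UU So : Set (SC K)).ncard := by
    have h1 := card_US (K := K) (S := So ∪ S2 K) (hf.union S2_fin)
    rw [Set.ncard_union_eq hdis hf S2_fin] at h1
    rw [← h1]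
    have h2 : Nat.card (US K (So ∪ S2 K)) = (US K (So ∪ S2 K) : Set (SC K)).ncard := rfl
    rw [h2]
    exact Set.ncard_le_ncard US_le (UU_fin hf)
  have hYge : 2 ^ So.ncard ≤ (YY So : Set (SC K)).ncard := card_Y hf ho (YY_fin hf)
  have hA : Nat.card (AA So (S2 K) (K →+* ℝ)) = 4 ^ So.ncard * 2 ^ (S2 K).ncard * 2 ^ n := by
    rw [al_cardA, card_real, ← Set.toFinset_card So, ← Set.toFinset_card (S2 K),
      ← Set.ncard_eq_toFinset_card' So, ← Set.ncard_eq_toFinset_card' (S2 K)]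
  have hprod : 2 ^ (So.ncard + (S2 K).ncard + n) * 2 ^ So.ncard =
      4 ^ So.ncard * 2 ^ (S2 K).ncard * 2 ^ n := by
    have h4 : (4 : ℕ) = 2 ^ 2 := rfl
    rw [h4, ← pow_mul, ← pow_add, ← pow_add, ← pow_add]
    congr 1
    ring
  haveI : Finite (AA So (S2 K) (K →+* ℝ)) := by
    unfold AA
    infer_instance
  have key := lin_dual (BB (fun v : So => la v.1 (sc (-1 : K)))) (fun x h => al_nondeg _ x h)
    (II So ho) (JJm So ho) W (by
      rintro x ⟨u, hu, rfl⟩ y ⟨z, hz, rfl⟩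
      exact orth hf ho hu hz) (by
      rw [hI, hJ, hA, ← hprod]
      exact Nat.mul_le_mul hUge hYge) W' hW
  obtain ⟨k1, k2⟩ := key
  rw [hI, hJ, hA, ← hprod] at k1
  rw [hIW, hI, hJW, hA, ← hprod] at k2
  have e1 : (UU So : Set (SC K)).ncard = 2 ^ (So.ncard + (S2 K).ncard + n) := by
    refine le_antisymm ?_ hUge
    by_contra h
    rw [not_le] at h
    have : 2 ^ (So.ncard + (S2 K).ncard + n) * 2 ^ So.ncard <
        (UU So : Set (SC K)).ncard * (YY So : Set (SC K)).ncard :=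
      Nat.mul_lt_mul_of_lt_of_le h hYge (lt_of_lt_of_le (by positivity) hYge)
    omega
  have e2 : (YY So : Set (SC K)).ncard = 2 ^ So.ncard := by
    rw [e1] at k1
    exact (Nat.eq_of_mul_eq_mul_left (by positivity) k1).symm
  refine ⟨e1, e2, ?_⟩
  rw [e1] at k2
  have h3 : 2 ^ (So.ncard + (S2 K).ncard + n) *
      (({c ∈ UU So | fi So c ∈ W} : Set (SC K)).ncard * 2 ^ So.ncard) =
      2 ^ (So.ncard + (S2 K).ncard + n) *
      (Nat.card W * ({c ∈ YY So | fj So c ∈ W'} : Set (SC K)).ncard) := by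
    calc _ = ({c ∈ UU So | fi So c ∈ W} : Set (SC K)).ncard *
          (2 ^ (So.ncard + (S2 K).ncard + n) * 2 ^ So.ncard) := by ring
      _ = _ := by rw [k2]; ring
  exact Nat.eq_of_mul_eq_mul_left (by positivity) h3

/-- The Greenberg-Wiles formula. -/
theorem gw [IsTotallyReal K] {L : LD K} (hL : L.Good)
    (hN : NS (L.Sg ∪ L.P ∪ L.P') ⊆ {(0 : SC K)}) :
    (XX' L).ncard * 2 ^ (L.P'.ncard + (if L.τ = true then Module.finrank ℚ K else 0)) =
      (XX L).ncard * 2 ^ L.P.ncard := by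
  obtain ⟨So, hSo⟩ : ∃ So, So = L.Sg ∪ L.P ∪ L.P' := ⟨_, rfl⟩
  rw [← hSo] at hN
  have hf : So.Finite := hSo ▸ ((hL.finSg.union hL.finP).union hL.finP')
  have ho : ∀ v ∈ So, OddP v := by
    intro v hv
    rw [hSo] at hv
    rcases hv with (hv | hv) | hv
    · exact hL.oddSg v hv
    · exact hL.oddP v hv
    · exact hL.oddP' v hv
  haveI : Fintype So := hf.fintype
  haveI : Fintype (S2 K) := S2_fin.fintype
  set t : So → Fin 3 := fun v => if v.1 ∈ L.Sg then 0 else if v.1 ∈ L.P then 1 else 2 with ht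
  set g : So → ZMod 2 × ZMod 2 := fun v => (eo v.1 (L.g v.1), la v.1 (L.g v.1)) with hg
  set k : So → ZMod 2 := fun v => la v.1 (sc (-1 : K)) with hk
  have hmem : ∀ x, x ∈ So → x ∈ L.Sg ∪ L.P ∪ L.P' := fun x hx => hSo ▸ hx
  have t0 : ∀ v : So, t v = 0 ↔ v.1 ∈ L.Sg := by
    intro v
    by_cases h : v.1 ∈ L.Sg
    · simp [ht, h]
    · by_cases h' : v.1 ∈ L.P <;> simp [ht, h, h']
  have t1 : ∀ v : So, t v = 1 ↔ v.1 ∈ L.P := by
    intro v
    by_cases h : v.1 ∈ L.Sg
    · have h' : v.1 ∉ L.P := fun h' => Set.disjoint_left.1 hL.d1 h h'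
      simp [ht, h, h']
    · by_cases h' : v.1 ∈ L.P <;> simp [ht, h, h']
  have t2 : ∀ v : So, t v = 2 ↔ v.1 ∈ L.P' := by
    intro v
    by_cases h : v.1 ∈ L.Sg
    · have h' : v.1 ∉ L.P' := fun h' => Set.disjoint_left.1 hL.d2 h h'
      simp [ht, h, h']
    · by_cases h' : v.1 ∈ L.P
      · have h'' : v.1 ∉ L.P' := fun h'' => Set.disjoint_left.1 hL.d3 h' h''
        simp [ht, h, h', h'']
      · rcases hmem v.1 v.2 with (hv | hv) | hv
        · exact absurd hv h
        · exact absurd hv h'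
        · simp [ht, h, h', hv]
  have hgne : ∀ v, t v = 0 → g v ≠ 0 := by
    intro v hv h0
    apply hL.gen v.1 ((t0 v).1 hv)
    exact ⟨congrArg Prod.fst h0, congrArg Prod.snd h0⟩
  obtain ⟨W', hW'1, hW'2⟩ := al_ann (β := S2 K) (ρ := (K →+* ℝ)) k g t hgne L.τ
  obtain ⟨-, -, c3⟩ := cards hf ho hN (Wt (S2 K) (K →+* ℝ) k g t L.τ) W' hW'2
  have hX : ({c ∈ UU So | fi So c ∈ Wt (S2 K) (K →+* ℝ) k g t L.τ} : Set (SC K)) = XX L := by
    ext c
    constructor
    · rintro ⟨hU, h1, h2, h3, h4⟩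
      refine ⟨fun v hv hv' => ?_, fun v hv => ?_, fun v hv => ?_, fun hτ w => h4 hτ w⟩
      · by_cases hvP : v ∈ L.P
        · have hvS : v ∈ So := by
            rw [hSo]
            exact Or.inl (Or.inr hvP)
          exact congrArg Prod.fst (h2 ⟨v, hvS⟩ ((t1 ⟨v, hvS⟩).2 hvP))
        · by_cases hvo : OddP v
          · refine hU v ?_ hvo
            rw [hSo]
            rintro ((h | h) | h)
            · exact hv h
            · exact hvP h
            · exact hv' h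
          · exact h3 ⟨v, hvo⟩
      · have hvS : v ∈ So := by
          rw [hSo]
          exact Or.inl (Or.inl hv)
        exact h1 ⟨v, hvS⟩ ((t0 ⟨v, hvS⟩).2 hv)
      · have hvS : v ∈ So := by
          rw [hSo]
          exact Or.inl (Or.inr hv)
        exact congrArg Prod.snd (h2 ⟨v, hvS⟩ ((t1 ⟨v, hvS⟩).2 hv))
    · rintro ⟨h1, h2, h3, h4⟩
      refine ⟨fun v hv hv' => ?_, fun v hv => ?_, fun v hv => ?_, fun v => ?_, fun hτ w => h4 hτ w⟩
      · rw [hSo, Set.mem_union, Set.mem_union, not_or, not_or] at hv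
        exact h1 v hv.1.1 hv.2
      · exact h2 v.1 ((t0 v).1 hv)
      · have hvP := (t1 v).1 hv
        refine Prod.ext (h1 v.1 ?_ ?_) (h3 v.1 hvP)
        · exact fun h => Set.disjoint_left.1 hL.d1 h hvP
        · exact fun h => Set.disjoint_left.1 hL.d3 hvP h
      · refine h1 v.1 ?_ ?_
        · exact fun h => v.2 (hL.oddSg _ h)
        · exact fun h => v.2 (hL.oddP' _ h)
  have hX' : ({c ∈ YY So | fj So c ∈ W'} : Set (SC K)) = XX' L := by
    ext c
    constructor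
    · rintro ⟨hY, hw⟩
      obtain ⟨h1, h2, h3⟩ := (hW'1 _).1 hw
      refine ⟨fun v hv hv' => ?_, hY.2, fun v hv => ?_, fun v hv => ?_, fun hτ w => h3 hτ w⟩
      · by_cases hvP : v ∈ L.P'
        · have hvS : v ∈ So := by
            rw [hSo]
            exact Or.inr hvP
          exact congrArg Prod.fst (h2 ⟨v, hvS⟩ ((t2 ⟨v, hvS⟩).2 hvP))
        · refine hY.1 v ?_
          rw [hSo]
          rintro ((h | h) | h)
          · exact hv h
          · exact hv' h
          · exact hvP h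
      · have hvS : v ∈ So := by
          rw [hSo]
          exact Or.inl (Or.inl hv)
        rcases h1 ⟨v, hvS⟩ ((t0 ⟨v, hvS⟩).2 hv) with h | h
        · exact Or.inl ⟨congrArg Prod.fst h, congrArg Prod.snd h⟩
        · exact Or.inr ⟨congrArg Prod.fst h, congrArg Prod.snd h⟩
      · have hvS : v ∈ So := by
          rw [hSo]
          exact Or.inr hv
        exact congrArg Prod.snd (h2 ⟨v, hvS⟩ ((t2 ⟨v, hvS⟩).2 hv))
    · rintro ⟨h1, h2, h3, h4, h5⟩
      refine ⟨⟨fun v hv => ?_, h2⟩, (hW'1 _).2 ⟨fun v hv => ?_, fun v hv => ?_, fun hτ w => h5 hτ w⟩⟩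
      · rw [hSo, Set.mem_union, Set.mem_union, not_or, not_or] at hv
        exact h1 v hv.1.1 hv.1.2
      · rcases h3 v.1 ((t0 v).1 hv) with h | h
        · exact Or.inl (Prod.ext h.1 h.2)
        · exact Or.inr (Prod.ext h.1 h.2)
      · have hvP := (t2 v).1 hv
        refine Prod.ext (h1 v.1 ?_ ?_) (h4 v.1 hvP)
        · exact fun h => Set.disjoint_left.1 hL.d2 h hvP
        · exact fun h => Set.disjoint_left.1 hL.d3 h hvP
  rw [hX, hX', al_card k g t hgne L.τ, card_real] at c3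
  have f0 : (Finset.univ.filter fun v => t v = 0).card = L.Sg.ncard := by
    have h1 : (Subtype.val '' {v : So | t v = 0} : Set (HeightOneSpectrum (𝓞 K))) = L.Sg := by
      ext v
      constructor
      · rintro ⟨v, hv, rfl⟩
        exact (t0 v).1 hv
      · intro hv
        have hvS : v ∈ So := by
          rw [hSo]
          exact Or.inl (Or.inl hv)
        exact ⟨⟨v, hvS⟩, (t0 ⟨v, hvS⟩).2 hv, rfl⟩
    rw [← h1, Set.ncard_image_of_injective _ Subtype.val_injective, Set.ncard_eq_toFinset_card']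
    congr 1
    ext v
    simp
  have f2 : (Finset.univ.filter fun v => t v = 2).card = L.P'.ncard := by
    have h1 : (Subtype.val '' {v : So | t v = 2} : Set (HeightOneSpectrum (𝓞 K))) = L.P' := by
      ext v
      constructor
      · rintro ⟨v, hv, rfl⟩
        exact (t2 v).1 hv
      · intro hv
        have hvS : v ∈ So := by
          rw [hSo]
          exact Or.inr hv
        exact ⟨⟨v, hvS⟩, (t2 ⟨v, hvS⟩).2 hv, rfl⟩
    rw [← h1, Set.ncard_image_of_injective _ Subtype.val_injective, Set.ncard_eq_toFinset_card']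
    congr 1
    ext v
    simp
  rw [f0, f2] at c3
  have hSn : So.ncard = L.Sg.ncard + L.P.ncard + L.P'.ncard := by
    rw [hSo, Set.ncard_union_eq _ (hL.finSg.union hL.finP) hL.finP',
      Set.ncard_union_eq hL.d1 hL.finSg hL.finP]
    rw [Set.disjoint_union_left]
    exact ⟨hL.d2, hL.d3⟩
  rw [hSn] at c3
  have h4 : (4 : ℕ) ^ L.P'.ncard = 2 ^ L.P'.ncard * 2 ^ L.P'.ncard := by
    rw [← mul_pow]
    norm_num
  rw [h4] at c3
  have hpos : 0 < 2 ^ (L.Sg.ncard + L.P'.ncard) := by positivity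
  refine Nat.eq_of_mul_eq_mul_left hpos ?_
  by_cases hτ : L.τ = true
  · rw [if_pos hτ] at c3 ⊢
    calc _ = 2 ^ L.Sg.ncard * (2 ^ L.P'.ncard * 2 ^ L.P'.ncard) * 2 ^ Module.finrank ℚ K *
          (XX' L).ncard := by ring
      _ = _ := by rw [← c3]; ring
  · rw [if_neg hτ] at c3 ⊢
    calc _ = 2 ^ L.Sg.ncard * (2 ^ L.P'.ncard * 2 ^ L.P'.ncard) * 1 * (XX' L).ncard := by ring
      _ = _ := by rw [← c3]; ring

end H24TD
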