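import Pool.Agent.H24.TD.Ep
import Pool.Agent.H24.TD.Vp

/-!
Row JJ. (about 200 lines): the homomorphism J : Z[G] x Z[S] -> S-units. From exists_eps (e) and exists_varpi (y): J (c, d) := sum over g of c g . e g + sum over v in hS.toFinset of d v . y v. Additive.
 Equivariance: J (g (c, d)) = sum_h c (g^-1 h) e h + sum_(v in S) d (g^-1 v) y v; substitute h = g h', v = g v' (S is stable: v' in S iff v in S): = sum c h' e (g h') + sum d v' y (g v') = g J (c,d).
 Values: S-units (SUa K (empty) <= SUa K S, y v in SUa K S for v in S), twice something. Kernel on functions with d supported in S: if J (c,d) = 0, the valuation at v in S of the corresponding element is (v (y v))^(d v) = 1 (the other factors are units at v), v (y v) < 1 so d v = 0; then sum c g e g = 0 and c g = c 1. Conversely such (c,0) give c 1 . sum e g = 0.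
 Finite index: let N = (top.prod (supp S)).map J. Every S-unit x: with h_v > 0 the order of y v at v and H = prod over v in S of h_v, the element H x - J (0, d), d v = H ord_v(x) / h_v, is in SUa K (empty); let i = relIndex of closure (range e) in SUa K (empty): i (H x - J (0,d)) is in the closure of range e, contained in the image of J.
   So i H x in N for every x in SUa K S. SUa K S is finitely generated: the subgroup SUa K (empty) is finitely generated (units of 𝓞 K), and SUa K S / SUa K (empty) embeds in Z^S by the valuations (a subgroup of a finitely generated free abelian group is finitely generated). A finitely generated abelian group killed by a positive integer is finite: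
   so N.relIndex (SUa K S) <> 0. (Alternative for the last step without finite generation: the index of N in SUa K S is at most (index of N inf SUa K (empty) in SUa K (empty)) * (index of the image of N in the image of SUa K S in Z^S), both finite.)
-/

set_option autoImplicit false
open scoped Classical

open NumberField IsDedekindDomain H38T1

namespace H24TD

section

variable {K : Type} [Field K] [NumberField K]

/-- The logarithm of the valuation at `v`. -/
noncomputable def JJ_lv (v : HeightOneSpectrum (𝓞 K)) : Additive Kˣ →+ ℤ :=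
  AddMonoidHom.mk' (fun u => WithZero.log (v.valuation K ((Additive.toMul u : Kˣ) : K))) (by
    intro a b
    rw [toMul_add, Units.val_mul, map_mul,
      WithZero.log_mul ((Valuation.ne_zero_iff _).mpr (Additive.toMul a).ne_zero)
        ((Valuation.ne_zero_iff _).mpr (Additive.toMul b).ne_zero)])

theorem JJ_lv_apply (v : HeightOneSpectrum (𝓞 K)) (u : Additive Kˣ) :
    JJ_lv v u = WithZero.log (v.valuation K ((Additive.toMul u : Kˣ) : K)) := rfl

theorem JJ_lv_zero (v : HeightOneSpectrum (𝓞 K)) (u : Additive Kˣ) :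
    JJ_lv v u = 0 ↔ v.valuation K ((Additive.toMul u : Kˣ) : K) = 1 := by
  rw [JJ_lv_apply]
  have h0 : v.valuation K ((Additive.toMul u : Kˣ) : K) ≠ 0 :=
    (Valuation.ne_zero_iff _).mpr (Additive.toMul u).ne_zero
  constructor
  · intro h
    rw [← WithZero.exp_log h0, h, WithZero.exp_zero]
  · intro h
    rw [h, WithZero.log_one]

theorem JJ_lv_neg (v : HeightOneSpectrum (𝓞 K)) (u : Additive Kˣ)
    (h : v.valuation K ((Additive.toMul u : Kˣ) : K) < 1) : JJ_lv v u < 0 := by
  rw [JJ_lv_apply]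
  have h0 : v.valuation K ((Additive.toMul u : Kˣ) : K) ≠ 0 :=
    (Valuation.ne_zero_iff _).mpr (Additive.toMul u).ne_zero
  rw [WithZero.log_lt_iff_lt_exp h0, WithZero.exp_zero]
  exact h

theorem JJ_mem {S : Set (HeightOneSpectrum (𝓞 K))} {u : Additive Kˣ} :
    u ∈ SUa K S ↔ ∀ v, v ∉ S → JJ_lv v u = 0 := by
  rw [mem_SUa]
  constructor
  · intro h v hv
    exact (JJ_lv_zero v u).2 (h v hv)
  · intro h v hv
    exact (JJ_lv_zero v u).1 (h v hv)

theorem JJ_add {X : Type*} [AddCommGroup X] {ι κ : Type*} [Fintype ι] (T : Finset κ) (e : ι → X) (y : κ → X)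
    (a b : ι → ℤ) (c d : κ → ℤ) :
    ∑ g, (a g + b g) • e g + ∑ v ∈ T, (c v + d v) • y v =
      (∑ g, a g • e g + ∑ v ∈ T, c v • y v) + (∑ g, b g • e g + ∑ v ∈ T, d v • y v) := by
  simp only [add_smul, Finset.sum_add_distrib]
  abel

theorem JJ_two {X : Type*} [AddCommGroup X] {ι κ : Type*} [Fintype ι] (T : Finset κ) (e xe : ι → X)
    (y xy : κ → X) (h1 : ∀ g, e g = 2 • xe g) (h2 : ∀ v, y v = 2 • xy v) (a : ι → ℤ) (c : κ → ℤ) :
    ∑ g, a g • e g + ∑ v ∈ T, c v • y v =
      2 • (∑ g, a g • xe g + ∑ v ∈ T, c v • xy v) := by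
  rw [smul_add, Finset.smul_sum, Finset.smul_sum]
  congr 1
  · apply Finset.sum_congr rfl
    intro g _
    rw [h1, smul_comm]
  · apply Finset.sum_congr rfl
    intro v _
    rw [h2, smul_comm]

theorem JJ_const {X : Type*} [AddCommGroup X] {ι : Type*} [Fintype ι] (e : ι → X)
    (a : ι → ℤ) (n : ℤ) (h : ∀ g, a g = n) : ∑ g, a g • e g = n • ∑ g, e g := by
  rw [Finset.smul_sum]
  apply Finset.sum_congr rfl
  intro g _
  rw [h g]

/-- The homomorphism. -/
noncomputable def JJ_hom (T : Finset (HeightOneSpectrum (𝓞 K))) (e : (K ≃ₐ[ℚ] K) → Additive Kˣ)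
    (y : HeightOneSpectrum (𝓞 K) → Additive Kˣ) :
    Fn (K ≃ₐ[ℚ] K) ℤ × Fn (HeightOneSpectrum (𝓞 K)) ℤ →+ Additive Kˣ :=
  AddMonoidHom.mk' (fun x => ∑ g, x.1 g • e g + ∑ v ∈ T, x.2 v • y v) (by
    intro a b
    exact JJ_add T e y (fun g => a.1 g) (fun g => b.1 g) (fun v => a.2 v) (fun v => b.2 v))

theorem JJ_apply (T : Finset (HeightOneSpectrum (𝓞 K))) (e : (K ≃ₐ[ℚ] K) → Additive Kˣ)
    (y : HeightOneSpectrum (𝓞 K) → Additive Kˣ)
    (x : Fn (K ≃ₐ[ℚ] K) ℤ × Fn (HeightOneSpectrum (𝓞 K)) ℤ) :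
    JJ_hom T e y x = ∑ g, x.1 g • e g + ∑ v ∈ T, x.2 v • y v := rfl

theorem JJ_lvJ (T : Finset (HeightOneSpectrum (𝓞 K))) {e : (K ≃ₐ[ℚ] K) → Additive Kˣ}
    {y : HeightOneSpectrum (𝓞 K) → Additive Kˣ} (he : ∀ g v, JJ_lv v (e g) = 0)
    (hy : ∀ v w, w ≠ v → JJ_lv w (y v) = 0)
    (x : Fn (K ≃ₐ[ℚ] K) ℤ × Fn (HeightOneSpectrum (𝓞 K)) ℤ) (w : HeightOneSpectrum (𝓞 K)) :
    JJ_lv w (JJ_hom T e y x) = if w ∈ T then x.2 w * JJ_lv w (y w) else 0 := by
  rw [JJ_apply, map_add, map_sum, map_sum]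
  have h1 : ∑ g, JJ_lv w (x.1 g • e g) = 0 := by
    apply Finset.sum_eq_zero
    intro g _
    rw [map_zsmul, he, smul_zero]
  rw [h1, zero_add]
  split_ifs with hw
  · rw [Finset.sum_eq_single w]
    · rw [map_zsmul, smul_eq_mul]
    · intro v _ hv
      rw [map_zsmul, hy v w hv.symm, smul_zero]
    · intro h
      exact absurd hw h
  · apply Finset.sum_eq_zero
    intro v hv
    rw [map_zsmul, hy v w (fun h => hw (h ▸ hv)), smul_zero]

end

theorem JJ_rel {X : Type*} [AddCommGroup X] {N U A : AddSubgroup X} (hN : N ≤ A) (hU : U ≤ A)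
    (h1 : N.relIndex U ≠ 0) (h2 : (N ⊔ U).relIndex A ≠ 0) : N.relIndex A ≠ 0 := by
  have e1 := AddSubgroup.relIndex_mul_relIndex N (N ⊔ U) A le_sup_left (sup_le hN hU)
  have e2 : N.relIndex (N ⊔ U) = N.relIndex U := AddSubgroup.relIndex_sup_left U N
  rw [← e1, e2]
  exact mul_ne_zero h1 h2

theorem exists_J (K : Type) [Field K] [NumberField K] [IsGalois ℚ K] [IsTotallyReal K]
    {S : Set (HeightOneSpectrum (𝓞 K))} (hS : S.Finite) (hst : StS (K ≃ₐ[ℚ] K) S) :
    ∃ J : Fn (K ≃ₐ[ℚ] K) ℤ × Fn (HeightOneSpectrum (𝓞 K)) ℤ →+ Additive Kˣ,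
      (∀ (g : K ≃ₐ[ℚ] K) x, J (g • x) = g • J x) ∧ (∀ x, J x ∈ SUa K S) ∧
      (∀ x, ∃ z : Additive Kˣ, J x = 2 • z) ∧
      (∀ x, x.2 ∈ supp ℤ S → (J x = 0 ↔ (∀ g, x.1 g = x.1 1) ∧ x.2 = 0)) ∧
      (((⊤ : AddSubgroup (Fn (K ≃ₐ[ℚ] K) ℤ)).prod (supp ℤ S)).map J).relIndex (SUa K S) ≠ 0 := by
  obtain ⟨e, he0, heg, hesum, he2, hec, hei⟩ := exists_eps K
  obtain ⟨y, hy2, hy1, hylt, hyg⟩ := exists_varpi K
  have hLe : ∀ g v, JJ_lv v (e g) = 0 := fun g v => JJ_mem.1 (he0 g) v (Set.notMem_empty v)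
  have hLy : ∀ v w, w ≠ v → JJ_lv w (y v) = 0 := fun v w h => (JJ_lv_zero w (y v)).2 (hy1 v w h)
  have hLy' : ∀ v, JJ_lv v (y v) < 0 := fun v => JJ_lv_neg v (y v) (hylt v)
  set T := hS.toFinset with hT
  have hTm : ∀ v, v ∈ T ↔ v ∈ S := fun v => hS.mem_toFinset
  have hLJ := JJ_lvJ T hLe hLy
  have hJmem : ∀ x, JJ_hom T e y x ∈ SUa K S := by
    intro x
    rw [JJ_mem]
    intro v hv
    rw [hLJ, if_neg (fun h => hv ((hTm v).1 h))]
  refine ⟨JJ_hom T e y, ?_, hJmem, ?_, ?_, ?_⟩
  · intro g x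
    rw [JJ_apply, JJ_apply]
    let φ := DistribSMul.toAddMonoidHom (Additive Kˣ) g
    have hφ : ∀ u, g • u = φ u := fun u => rfl
    have h1 : ∑ h, (g • x).1 h • e h = φ (∑ h, x.1 h • e h) := by
      rw [map_sum]
      rw [← Equiv.sum_comp (Equiv.mulLeft g)]
      apply Finset.sum_congr rfl
      intro h _
      rw [map_zsmul, ← hφ, ← heg]
      change x.1 (g⁻¹ * (g * h)) • e (g * h) = _
      rw [inv_mul_cancel_left]
    have h2 : ∑ v ∈ T, (g • x).2 v • y v = φ (∑ v ∈ T, x.2 v • y v) := by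
      rw [map_sum]
      refine Finset.sum_nbij' (fun v => g⁻¹ • v) (fun v => g • v) ?_ ?_ ?_ ?_ ?_
      · intro v hv
        exact (hTm _).2 (hst g⁻¹ v ((hTm v).1 hv))
      · intro v hv
        exact (hTm _).2 (hst g v ((hTm v).1 hv))
      · intro v _
        exact smul_inv_smul g v
      · intro v _
        exact inv_smul_smul g v
      · intro v _
        rw [map_zsmul, ← hφ, ← hyg, smul_inv_smul]
        rfl
    rw [h1, h2, ← map_add]
    rfl
  · intro x
    choose xe hxe using he2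
    choose xy hxy using hy2
    exact ⟨∑ g, x.1 g • xe g + ∑ v ∈ T, x.2 v • xy v,
      JJ_two T e xe y xy hxe hxy (fun g => x.1 g) (fun v => x.2 v)⟩
  · intro x hx
    constructor
    · intro h0
      have h2 : x.2 = 0 := by
        funext v
        change x.2 v = 0
        by_cases hv : v ∈ S
        · have h3 := hLJ x v
          rw [h0, map_zero, if_pos ((hTm v).2 hv)] at h3
          rcases mul_eq_zero.1 h3.symm with h4 | h4
          · exact h4
          · exact absurd h4 (hLy' v).ne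
        · exact hx v hv
      refine ⟨?_, h2⟩
      apply hec
      rw [JJ_apply] at h0
      have h5 : ∑ v ∈ T, x.2 v • y v = 0 := by
        apply Finset.sum_eq_zero
        intro v _
        rw [h2]
        exact zero_smul ℤ (y v)
      rwa [h5, add_zero] at h0
    · rintro ⟨h1, h2⟩
      rw [JJ_apply]
      have h5 : ∑ v ∈ T, x.2 v • y v = 0 := by
        apply Finset.sum_eq_zero
        intro v _
        rw [h2]
        exact zero_smul ℤ (y v)
      have h6 : ∑ g, x.1 g • e g = x.1 1 • ∑ g, e g := JJ_const e (fun g => x.1 g) (x.1 1) h1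
      rw [h5, add_zero, h6, hesum, smul_zero]
  · set N := ((⊤ : AddSubgroup (Fn (K ≃ₐ[ℚ] K) ℤ)).prod (supp ℤ S)).map (JJ_hom T e y) with hN
    have hNA : N ≤ SUa K S := by
      rintro _ ⟨x, _, rfl⟩
      exact hJmem x
    have hUA : SUa K ∅ ≤ SUa K S := by
      intro u hu
      rw [JJ_mem] at hu ⊢
      intro v _
      exact hu v (Set.notMem_empty v)
    apply JJ_rel hNA hUA
    · have hcl : AddSubgroup.closure (Set.range e) ≤ N := by
        rw [AddSubgroup.closure_le]
        rintro _ ⟨g, rfl⟩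
        refine ⟨((fun h => if h = g then (1 : ℤ) else 0 : Fn (K ≃ₐ[ℚ] K) ℤ),
          (0 : Fn (HeightOneSpectrum (𝓞 K)) ℤ)), ⟨AddSubgroup.mem_top _, (supp ℤ S).zero_mem⟩, ?_⟩
        rw [JJ_apply]
        have h5 : ∑ v ∈ T, (0 : Fn (HeightOneSpectrum (𝓞 K)) ℤ) v • y v = 0 := by
          apply Finset.sum_eq_zero
          intro v _
          exact zero_smul ℤ (y v)
        change ∑ h, (if h = g then (1 : ℤ) else 0) • e h +
          ∑ v ∈ T, (0 : Fn (HeightOneSpectrum (𝓞 K)) ℤ) v • y v = e g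
        rw [h5, add_zero, Finset.sum_eq_single g]
        · rw [if_pos rfl, one_smul]
        · intro h _ hne
          rw [if_neg hne, zero_smul]
        · intro h
          exact absurd (Finset.mem_univ g) h
      intro h0
      apply hei
      have h1 := AddSubgroup.relIndex_dvd_of_le_left (SUa K ∅) hcl
      rw [h0, zero_dvd_iff] at h1
      exact h1
    · let m : T → ℕ := fun v => (JJ_lv (v : HeightOneSpectrum (𝓞 K)) (y v)).natAbs
      haveI hm : ∀ v : T, NeZero (m v) := fun v => ⟨by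
        rw [Ne, Int.natAbs_eq_zero]
        exact (hLy' v).ne⟩
      haveI hfin : ∀ v : T, Finite (ZMod (m v)) := fun v => inferInstance
      let Ψ : Additive Kˣ →+ (∀ v : T, ZMod (m v)) :=
        AddMonoidHom.pi (fun v => (Int.castAddHom (ZMod (m v))).comp (JJ_lv (v : HeightOneSpectrum (𝓞 K))))
      have hle : Ψ.ker ⊓ SUa K S ≤ N ⊔ SUa K ∅ := by
        rintro u ⟨hu, huS⟩
        have hu' : ∀ v : T, JJ_lv (v : HeightOneSpectrum (𝓞 K)) (y v) ∣ JJ_lv (v : HeightOneSpectrum (𝓞 K)) u := by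
          intro v
          have h1 : Ψ u = 0 := hu
          have h2 : ((JJ_lv (v : HeightOneSpectrum (𝓞 K)) u : ℤ) : ZMod (m v)) = 0 := congrFun h1 v
          rw [ZMod.intCast_zmod_eq_zero_iff_dvd] at h2
          exact Int.natAbs_dvd.1 h2
        have huS' := JJ_mem.1 huS
        let d : Fn (HeightOneSpectrum (𝓞 K)) ℤ := fun v =>
          if v ∈ T then JJ_lv v u / JJ_lv v (y v) else 0
        have hd : d ∈ supp ℤ S := by
          intro v hv
          exact if_neg (fun h => hv ((hTm v).1 h))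
        have hJd : JJ_hom T e y (0, d) ∈ N := ⟨(0, d), ⟨AddSubgroup.mem_top _, hd⟩, rfl⟩
        have hU : u - JJ_hom T e y (0, d) ∈ SUa K ∅ := by
          rw [JJ_mem]
          intro v _
          rw [map_sub, hLJ, sub_eq_zero]
          by_cases hv : v ∈ T
          · rw [if_pos hv]
            change _ = (if v ∈ T then JJ_lv v u / JJ_lv v (y v) else 0) * _
            rw [if_pos hv]
            exact (Int.ediv_mul_cancel (hu' ⟨v, hv⟩)).symm
          · rw [if_neg hv]
            exact huS' v (fun h => hv ((hTm v).2 h))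
        have h3 : u = JJ_hom T e y (0, d) + (u - JJ_hom T e y (0, d)) := by abel
        rw [h3]
        exact AddSubgroup.add_mem_sup hJd hU
      intro h0
      have h1 := AddSubgroup.relIndex_dvd_of_le_left (SUa K S) hle
      rw [h0, zero_dvd_iff, AddSubgroup.inf_relIndex_right, AddSubgroup.relIndex_ker] at h1
      exact Nat.card_pos.ne' h1

end H24TD
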