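import Pool.Agent.H24.TD.Df

/-!
Row Mul. (about 190 lines): multiplicativity of hq (groups of odd order). G finite of odd order, C <= B <= A stable additive subgroups of X, 2 A <= C.
 Claim hq A C = hq B C * hq A B.
 Hq G M A C is closed under addition and negation (pointwise, in M ->+ X / C): it is the carrier of an AddSubgroup. Let q : X / C ->+ X / B be the canonical map (QuotientAddGroup.map C B (AddMonoidHom.id X) hCB). Composition with q is a homomorphism
   R : Hq A C -> Hq A B. Kernel: f in Hq A C with f m in the kernel of q, i.e. f m = class of an element b of B: that is Hq B C (B <= A, so it lies in Hq A C; f m = mk a with a in A and q (f m) = 0 iff a in B). So by card = card of kernel times card of range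
   (AddSubgroup.card_eq_card_quotient_mul_card_addSubgroup or Nat.card_congr with a set theoretic bijection; Nat.card of infinite sets is fine because a bijection Hq A C = Hq B C x Hq A B is obtained from the section below: f |-> (f - s (R f), R f)).
 Section (averaging): let h in Hq A B. First an additive lift: M need not be of exponent two, but h (2 m) = 2 h m = 0 as 2 A <= C <= B, so h factors; choose: the image A / B (a subgroup Q of X / B killed by two, a vector space over ZMod 2: AddCommGroup.zmodModule) has an additive section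
   t : Q ->+ X / C with values in A / C (A/C is also killed by two; a surjective linear map of vector spaces has a linear right inverse: LinearMap.exists_rightInverse_of_surjective applied to the ZMod 2 linear map from the subgroup A.map (mk' C) onto the subgroup A.map (mk' B)).
   Averaging: T q := sum over g of g . t (g^-1 . q), where g acts on A / C and A / B because A, B, C are stable (define the action on classes of elements of A by g . mk a = mk (g . a), well defined: a - a' in C implies g a - g a' in C; do it through the AddMonoidHom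
   QuotientAddGroup.map C C (DistribMulAction.toAddMonoidHom X g) (stability of C)). T is additive, equivariant (reindex the sum), and q (T x) = card G . x = x because card G is odd and x is killed by two. Then s h := T o h is in Hq A C and R (s h) = h.
-/

set_option autoImplicit false

namespace H24TD

section Mul_aux

variable {G M X : Type*} [Group G] [AddCommGroup X] [DistribMulAction G X]
  [AddCommGroup M] [DistribMulAction G M] {A B C : AddSubgroup X}

/-- the action on the quotient by a stable subgroup -/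
def Mul_ac (hC : Stab G C) (g : G) : X ⧸ C →+ X ⧸ C :=
  QuotientAddGroup.map C C (DistribSMul.toAddMonoidHom X g) (fun x hx => hC g x hx)

lemma Mul_ac_mk (hC : Stab G C) (g : G) (x : X) :
    Mul_ac hC g (x : X ⧸ C) = ((g • x : X) : X ⧸ C) := rfl

lemma Mul_ac_mul (hC : Stab G C) (g h : G) (y : X ⧸ C) :
    Mul_ac hC (g * h) y = Mul_ac hC g (Mul_ac hC h y) := by
  obtain ⟨x, rfl⟩ := QuotientAddGroup.mk_surjective y
  rw [Mul_ac_mk, Mul_ac_mk, Mul_ac_mk, mul_smul]

lemma Mul_ac_one (hC : Stab G C) (y : X ⧸ C) : Mul_ac hC (1 : G) y = y := by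
  obtain ⟨x, rfl⟩ := QuotientAddGroup.mk_surjective y
  rw [Mul_ac_mk, one_smul]

lemma Mul_ac_mem (hA : Stab G A) (hC : Stab G C) (g : G) {y : X ⧸ C}
    (hy : y ∈ A.map (QuotientAddGroup.mk' C)) :
    Mul_ac hC g y ∈ A.map (QuotientAddGroup.mk' C) := by
  obtain ⟨a, ha, rfl⟩ := hy
  exact ⟨g • a, hA g a ha, rfl⟩

lemma Mul_mem (hC : Stab G C) (f : M →+ X ⧸ C) : f ∈ Hq G M A C ↔
    (∀ m, f m ∈ A.map (QuotientAddGroup.mk' C)) ∧ ∀ (g : G) m, f (g • m) = Mul_ac hC g (f m) := by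
  constructor
  · rintro ⟨h1, h2⟩
    refine ⟨fun m => ?_, fun g m => ?_⟩
    · obtain ⟨a, ha, e⟩ := h1 m
      exact ⟨a, ha, e.symm⟩
    · obtain ⟨x, hx⟩ := QuotientAddGroup.mk_surjective (f m)
      rw [h2 g m x hx.symm, ← hx]
      rfl
  · rintro ⟨h1, h2⟩
    refine ⟨fun m => ?_, fun g m x hx => ?_⟩
    · obtain ⟨a, ha, e⟩ := h1 m
      exact ⟨a, ha, e.symm⟩
    · rw [h2, hx]
      rfl

/-- the projection -/
def Mul_q (hCB : C ≤ B) : X ⧸ C →+ X ⧸ B := QuotientAddGroup.map C B (AddMonoidHom.id X) hCB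

lemma Mul_q_mk (hCB : C ≤ B) (x : X) : Mul_q hCB (x : X ⧸ C) = (x : X ⧸ B) := rfl

lemma Mul_q_ac (hB : Stab G B) (hC : Stab G C) (hCB : C ≤ B) (g : G) (y : X ⧸ C) :
    Mul_q hCB (Mul_ac hC g y) = Mul_ac hB g (Mul_q hCB y) := by
  obtain ⟨x, rfl⟩ := QuotientAddGroup.mk_surjective y
  rw [Mul_ac_mk, Mul_q_mk, Mul_q_mk, Mul_ac_mk]

lemma Mul_sec {P Q : Type*} [AddCommGroup P] [AddCommGroup Q] (hP : ∀ x : P, 2 • x = 0)
    (hQ : ∀ x : Q, 2 • x = 0) (f : P →+ Q) (hf : Function.Surjective f) :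
    ∃ t : Q →+ P, ∀ x, f (t x) = x := by
  let _ : Module (ZMod 2) P := AddCommGroup.zmodModule hP
  let _ : Module (ZMod 2) Q := AddCommGroup.zmodModule hQ
  have hp : Fact (Nat.Prime 2) := ⟨Nat.prime_two⟩
  obtain ⟨g, hg⟩ := LinearMap.exists_rightInverse_of_surjective (AddMonoidHom.toZModLinearMap 2 f)
    (LinearMap.range_eq_top.2 hf)
  exact ⟨g.toAddMonoidHom, fun x => LinearMap.congr_fun hg x⟩

lemma Mul_two (h2 : dbl A ≤ C) {y : X ⧸ C} (hy : y ∈ A.map (QuotientAddGroup.mk' C)) :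
    2 • y = 0 := by
  obtain ⟨a, ha, rfl⟩ := hy
  rw [← map_nsmul]
  apply (QuotientAddGroup.eq_zero_iff (2 • a)).2
  exact h2 ⟨a, ha, by
    show (2 : ℤ) • a = 2 • a
    rw [two_zsmul, two_nsmul]⟩

lemma Mul_T [Finite G] (hG : Odd (Nat.card G)) (hA : Stab G A) (hB : Stab G B) (hC : Stab G C)
    (hCB : C ≤ B) (h2 : dbl A ≤ C) :
    ∃ T : A.map (QuotientAddGroup.mk' B) →+ X ⧸ C,
      (∀ x, T x ∈ A.map (QuotientAddGroup.mk' C)) ∧ (∀ x, Mul_q hCB (T x) = x) ∧
      ∀ (g : G) (x y : A.map (QuotientAddGroup.mk' B)), (y : X ⧸ B) = Mul_ac hB g x →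
        T y = Mul_ac hC g (T x) := by
  have hGf : Fintype G := Fintype.ofFinite G
  obtain ⟨qr, hqr⟩ : ∃ qr : A.map (QuotientAddGroup.mk' C) →+ A.map (QuotientAddGroup.mk' B),
      ∀ x, ((qr x : A.map (QuotientAddGroup.mk' B)) : X ⧸ B) = Mul_q hCB x := by
    refine ⟨((Mul_q hCB).comp (A.map (QuotientAddGroup.mk' C)).subtype).codRestrict _ ?_,
      fun _ => rfl⟩
    rintro ⟨_, a, ha, rfl⟩
    exact ⟨a, ha, rfl⟩
  have hsurj : Function.Surjective qr := by
    rintro ⟨_, a, ha, rfl⟩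
    refine ⟨⟨(a : X ⧸ C), a, ha, rfl⟩, ?_⟩
    apply Subtype.ext
    rw [hqr]
    rfl
  obtain ⟨t, ht⟩ := Mul_sec (fun x => Subtype.ext (Mul_two h2 x.2))
    (fun x => Subtype.ext (Mul_two (h2.trans hCB) x.2)) qr hsurj
  obtain ⟨r, hr⟩ : ∃ r : G → A.map (QuotientAddGroup.mk' B) →+ A.map (QuotientAddGroup.mk' B),
      ∀ g x, ((r g x : A.map (QuotientAddGroup.mk' B)) : X ⧸ B) = Mul_ac hB g x := by
    refine ⟨fun g => ((Mul_ac hB g).comp (A.map (QuotientAddGroup.mk' B)).subtype).codRestrict _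
      ?_, fun _ _ => rfl⟩
    intro x
    exact Mul_ac_mem hA hB g x.2
  obtain ⟨T, hT⟩ : ∃ T : A.map (QuotientAddGroup.mk' B) →+ X ⧸ C,
      ∀ x, T x = ∑ g : G, Mul_ac hC g (t (r g⁻¹ x) : X ⧸ C) := by
    refine ⟨∑ g : G, (Mul_ac hC g).comp
      ((A.map (QuotientAddGroup.mk' C)).subtype.comp (t.comp (r g⁻¹))), fun x => ?_⟩
    rw [AddMonoidHom.finsetSum_apply]
    rfl
  refine ⟨T, ?_, ?_, ?_⟩
  · intro x
    rw [hT]
    exact sum_mem fun g _ => Mul_ac_mem hA hC g (t (r g⁻¹ x)).2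
  · intro x
    have e1 : ∀ g : G, Mul_q hCB (Mul_ac hC g (t (r g⁻¹ x) : X ⧸ C)) = x := by
      intro g
      rw [Mul_q_ac hB hC, ← hqr, ht, hr, ← Mul_ac_mul, mul_inv_cancel, Mul_ac_one]
    rw [hT, map_sum, Finset.sum_congr rfl fun g _ => e1 g, Finset.sum_const, Finset.card_univ,
      ← Nat.card_eq_fintype_card]
    obtain ⟨k, hk⟩ := hG
    rw [hk, add_nsmul, one_nsmul, mul_comm, mul_nsmul', Mul_two (h2.trans hCB) x.2, nsmul_zero,
      zero_add]
  · intro h x y hy
    have hy' : y = r h x := Subtype.ext (by rw [hr, hy])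
    rw [hT, hT, map_sum, ← Equiv.sum_comp (Equiv.mulLeft h)]
    apply Finset.sum_congr rfl
    intro g _
    rw [Equiv.coe_mulLeft, Mul_ac_mul]
    congr 3
    rw [hy']
    congr 1
    apply Subtype.ext
    rw [hr, hr, hr, ← Mul_ac_mul]
    congr 1
    group

end Mul_aux

theorem hq_mul {G M X : Type*} [Group G] [Finite G] [AddCommGroup X] [DistribMulAction G X]
    [AddCommGroup M] [DistribMulAction G M] (hG : Odd (Nat.card G)) {A B C : AddSubgroup X}
    (hA : Stab G A) (hB : Stab G B) (hC : Stab G C) (hCB : C ≤ B) (hBA : B ≤ A)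
    (h2 : dbl A ≤ C) : hq G M A C = hq G M B C * hq G M A B := by
  obtain ⟨T, hT1, hT2, hT3⟩ := Mul_T (A := A) hG hA hB hC hCB h2
  have hadd : ∀ f f' : M →+ X ⧸ C, f ∈ Hq G M A C → f' ∈ Hq G M A C → f + f' ∈ Hq G M A C := by
    intro f f' hf hf'
    rw [Mul_mem hC] at hf hf' ⊢
    refine ⟨fun m => add_mem (hf.1 m) (hf'.1 m), fun g m => ?_⟩
    rw [AddMonoidHom.add_apply, AddMonoidHom.add_apply, map_add, hf.2, hf'.2]
  have hsub : ∀ f f' : M →+ X ⧸ C, f ∈ Hq G M A C → f' ∈ Hq G M A C → f - f' ∈ Hq G M A C := by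
    intro f f' hf hf'
    rw [Mul_mem hC] at hf hf' ⊢
    refine ⟨fun m => sub_mem (hf.1 m) (hf'.1 m), fun g m => ?_⟩
    rw [AddMonoidHom.sub_apply, AddMonoidHom.sub_apply, map_sub, hf.2, hf'.2]
  have hR : ∀ f : M →+ X ⧸ C, f ∈ Hq G M A C → (Mul_q hCB).comp f ∈ Hq G M A B := by
    intro f hf
    rw [Mul_mem hC] at hf
    rw [Mul_mem hB]
    refine ⟨fun m => ?_, fun g m => ?_⟩
    · obtain ⟨a, ha, e⟩ := hf.1 m
      refine ⟨a, ha, ?_⟩
      rw [AddMonoidHom.comp_apply, ← e]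
      rfl
    · rw [AddMonoidHom.comp_apply, AddMonoidHom.comp_apply, hf.2, Mul_q_ac hB hC]
  have hBC : ∀ f : M →+ X ⧸ C, f ∈ Hq G M B C ↔ f ∈ Hq G M A C ∧ (Mul_q hCB).comp f = 0 := by
    intro f
    rw [Mul_mem hC, Mul_mem hC]
    constructor
    · rintro ⟨h1, h3⟩
      refine ⟨⟨fun m => ?_, h3⟩, ?_⟩
      · obtain ⟨b, hb, e⟩ := h1 m
        exact ⟨b, hBA hb, e⟩
      · ext m
        obtain ⟨b, hb, e⟩ := h1 m
        rw [AddMonoidHom.comp_apply, ← e]
        exact (QuotientAddGroup.eq_zero_iff b).2 hb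
    · rintro ⟨⟨h1, h3⟩, h4⟩
      refine ⟨fun m => ?_, h3⟩
      obtain ⟨a, ha, e⟩ := h1 m
      refine ⟨a, ?_, e⟩
      have h5 := DFunLike.congr_fun h4 m
      rw [AddMonoidHom.comp_apply, ← e] at h5
      exact (QuotientAddGroup.eq_zero_iff a).1 h5
  have hval : ∀ h ∈ Hq G M A B, ∀ m, h m ∈ A.map (QuotientAddGroup.mk' B) :=
    fun h hh => ((Mul_mem hB h).1 hh).1
  obtain ⟨S, hS⟩ : ∃ S : Hq G M A B → (M →+ X ⧸ C), ∀ h m,
      S h m = T ⟨h.1 m, hval h.1 h.2 m⟩ := by
    refine ⟨fun h => T.comp (h.1.codRestrict (A.map (QuotientAddGroup.mk' B)) (hval h.1 h.2)),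
      fun _ _ => rfl⟩
  have hS1 : ∀ h, S h ∈ Hq G M A C := by
    intro h
    rw [Mul_mem hC]
    refine ⟨fun m => ?_, fun g m => ?_⟩
    · rw [hS]
      exact hT1 _
    · rw [hS, hS]
      exact hT3 g _ _ (((Mul_mem hB h.1).1 h.2).2 g m)
  have hS2 : ∀ h, (Mul_q hCB).comp (S h) = h.1 := by
    intro h
    ext m
    rw [AddMonoidHom.comp_apply, hS]
    exact hT2 _
  have hcard : Hq G M A C ≃ Hq G M B C × Hq G M A B :=
    { toFun := fun f => (⟨f.1 - S ⟨(Mul_q hCB).comp f.1, hR f.1 f.2⟩, (hBC _).2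
          ⟨hsub _ _ f.2 (hS1 _), by rw [AddMonoidHom.comp_sub, hS2, sub_self]⟩⟩,
        ⟨(Mul_q hCB).comp f.1, hR f.1 f.2⟩)
      invFun := fun p => ⟨p.1.1 + S p.2, hadd _ _ ((hBC _).1 p.1.2).1 (hS1 _)⟩
      left_inv := fun f => Subtype.ext (sub_add_cancel _ _)
      right_inv := fun p => by
        have e1 : (Mul_q hCB).comp (p.1.1 + S p.2) = p.2.1 := by
          rw [AddMonoidHom.comp_add, ((hBC _).1 p.1.2).2, hS2, zero_add]
        have e2 : (⟨(Mul_q hCB).comp (p.1.1 + S p.2),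
            hR _ (hadd _ _ ((hBC _).1 p.1.2).1 (hS1 _))⟩ : Hq G M A B) = p.2 := Subtype.ext e1
        refine Prod.ext (Subtype.ext ?_) e2
        show p.1.1 + S p.2 - S ⟨(Mul_q hCB).comp (p.1.1 + S p.2),
            hR _ (hadd _ _ ((hBC _).1 p.1.2).1 (hS1 _))⟩ = p.1.1
        rw [e2, add_sub_cancel_right] }
  unfold hq
  rw [Nat.card_congr hcard, Nat.card_prod]

end H24TD
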