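import Pool.Agent.H24.TD.Lo

/-!
Row Rc. (about 110 lines): reciprocity for square classes. Apply H38RT.recip (file H38/RT/Rk) with pi = unif, u = rep c, y = rep c', T = a finite set containing T0 (the given finset), all the bad places of rep c, rep c' and 2 (fin_bad in H38/RT/Rk). For v in T the local term lt unif v u y:
 if v is not odd (V 2 < 1): ord u * kp y = eo v c * ka v c'. If v is odd: tm (unif v) u y = tp v c c' (la v (sc (-1)) = lam (-1) by la_sc). For v in T \ T0: v is odd (hypothesis: T0 contains the places above two), eo v c = eo v c' = 0, so tp v c c' = 0. So the sum over T reduces to T0 (Finset.sum_subset).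
 A place outside T has V u = 1, V y = 1, V 2 = 1 as required.
-/

set_option autoImplicit false
open scoped Classical

open WithZero NumberField IsDedekindDomain H38RT H38T1

namespace H24TD

theorem recip_sc {K : Type} [Field K] [NumberField K] [IsTotallyReal K] {c c' : SC K}
    (T : Finset (HeightOneSpectrum (𝓞 K))) (h2 : ∀ v : HeightOneSpectrum (𝓞 K), ¬ OddP v → v ∈ T)
    (hc : ∀ v, v ∉ T → eo v c = 0) (hc' : ∀ v, v ∉ T → eo v c' = 0)
    (hp : ∀ v, ¬ OddP v → Pri v c') :
    ∑ v ∈ T, (if OddP v then tp v c c' else eo v c * ka v c') +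
      ∑ w : K →+* ℝ, si w c * si w c' = 0 := by
  have h20 : (2 : K) ≠ 0 := two_ne_zero
  have hodd : ∀ v : HeightOneSpectrum (𝓞 K), v.valuation K 2 < 1 ↔ ¬ OddP v := by
    intro v
    unfold OddP
    constructor
    · intro h e
      rw [e] at h
      exact lt_irrefl _ h
    · intro h
      exact lt_of_le_of_ne (val_two_le v) h
  -- the local terms
  have hloc : ∀ v : HeightOneSpectrum (𝓞 K), lt unif v (rep c) (rep c') =
      if OddP v then tp v c c' else eo v c * ka v c' := by
    intro v
    unfold lt
    by_cases hv : OddP v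
    · rw [if_neg (by rw [hodd]; exact not_not.mpr hv), if_pos hv]
      unfold tp tm
      rw [la_sc hv (neg_ne_zero.2 one_ne_zero)]
      rfl
    · rw [if_pos ((hodd v).mpr hv), if_neg hv]
      rfl
  set T' : Finset (HeightOneSpectrum (𝓞 K)) :=
    T ∪ ((fin_bad (rep_ne c)).toFinset ∪ ((fin_bad (rep_ne c')).toFinset ∪
      (fin_bad h20).toFinset)) with hT'
  have hmem : ∀ v, v ∉ T' → v.valuation K (rep c) = 1 ∧ v.valuation K (rep c') = 1 ∧
      v.valuation K 2 = 1 := by
    intro v hv
    rw [hT', Finset.mem_union, Finset.mem_union, Finset.mem_union, not_or, not_or, not_or] at hv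
    refine ⟨?_, ?_, ?_⟩
    · by_contra h
      exact hv.2.1 (by simpa using h)
    · by_contra h
      exact hv.2.2.1 (by simpa using h)
    · by_contra h
      exact hv.2.2.2 (by simpa using h)
  have hmain := recip K unif unif_spec (rep_ne c) (rep_ne c')
    (fun v hv => hp v ((hodd v).mp hv)) T' hmem
  rw [Finset.sum_congr rfl fun v _ => hloc v] at hmain
  have hsub : ∑ v ∈ T, (if OddP v then tp v c c' else eo v c * ka v c') =
      ∑ v ∈ T', (if OddP v then tp v c c' else eo v c * ka v c') := by
    apply Finset.sum_subset (by rw [hT']; exact Finset.subset_union_left)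
    intro v _ hv
    have hv2 : OddP v := by
      by_contra h
      exact hv (h2 v h)
    rw [if_pos hv2]
    unfold tp
    rw [hc v hv, hc' v hv]
    ring
  rw [hsub]
  exact hmain

end H24TD
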