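import Mathlib

/-!
Row Sim. (about 220 lines): finite modules over F_2[G], G of odd order, are determined by their Hom counts (inequality form). Everything is of exponent two.
 Facts: (1) averaging: if p : B -> C is a surjective equivariant additive map of finite G-modules of exponent two, there is an equivariant additive section s (choose a ZMod 2 linear section, average over G, card G odd). (2) So for a stable subgroup N of Q: Q = N x Q' with Q' stable (Q' = kernel of an equivariant
   retraction r : Q -> N; r exists by averaging an additive retraction). (3) #(M ->+[G] A x B) = #(M ->+[G] A) * #(M ->+[G] B).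
 Proof of the theorem by strong induction on card Q. If Q is trivial: the zero map. Otherwise let N be a nontrivial stable subgroup of Q of minimal cardinality (simple). Take M = N: the inclusion is a nonzero element of N ->+[G] Q, so #(N ->+[G] F) >= #(N ->+[G] Q) >= 2 and there is a nonzero j : N ->+[G] F, injective by minimality (its
   kernel is a stable proper subgroup of N). Let N' = j(N), Q = N x Q', F = N' x F' with Q', F' stable. For every M: #(M,Q) = #(M,N) #(M,Q'), #(M,F) = #(M,N') #(M,F'), #(M,N) = #(M,N') finite positive, so #(M,Q') <= #(M,F'). Induction: an injective Q' -> F'. Put together: (n, q') |-> (j n, i q').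
 The types are subtypes (AddSubgroup) with the restricted action: build the DistribMulAction instances on the coercions of stable subgroups by hand, or use Submodule of MonoidAlgebra (ZMod 2) G if preferred (then Maschke: MonoidAlgebra.Submodule.exists_isCompl).
-/

set_option autoImplicit false

namespace H24TD

/-- Hom sets into a direct sum. -/
theorem Sim_card_prod {A : Type*} [Ring A] {M Q N Q' : Type*} [AddCommGroup M] [Module A M]
    [AddCommGroup Q] [Module A Q] [AddCommGroup N] [Module A N] [AddCommGroup Q'] [Module A Q']
    (e : (N × Q') ≃ₗ[A] Q) :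
    Nat.card (M →ₗ[A] Q) = Nat.card (M →ₗ[A] N) * Nat.card (M →ₗ[A] Q') := by
  rw [← Nat.card_prod]
  refine Nat.card_congr
    { toFun := fun f => ((LinearMap.fst A N Q').comp (e.symm.toLinearMap.comp f),
        (LinearMap.snd A N Q').comp (e.symm.toLinearMap.comp f))
      invFun := fun p => e.toLinearMap.comp (p.1.prod p.2)
      left_inv := fun f => by ext x; simp
      right_inv := fun p => by ext x <;> simp }

theorem Sim_card_congr {A : Type*} [Ring A] {M Q N : Type*} [AddCommGroup M] [Module A M]
    [AddCommGroup Q] [Module A Q] [AddCommGroup N] [Module A N] (e : N ≃ₗ[A] Q) :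
    Nat.card (M →ₗ[A] N) = Nat.card (M →ₗ[A] Q) := by
  refine Nat.card_congr
    { toFun := fun f => e.toLinearMap.comp f
      invFun := fun f => e.symm.toLinearMap.comp f
      left_inv := fun f => by ext x; simp
      right_inv := fun f => by ext x; simp }

theorem Sim_key {A : Type} [Ring A] [IsSemisimpleRing A] (n : ℕ) :
    ∀ (Q F : Type) [AddCommGroup Q] [Module A Q] [Finite Q] [AddCommGroup F] [Module A F]
      [Finite F], Nat.card Q = n →
      (∀ (M : Type) [AddCommGroup M] [Module A M] [Finite M],
        Nat.card (M →ₗ[A] Q) ≤ Nat.card (M →ₗ[A] F)) →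
      ∃ f : Q →ₗ[A] F, Function.Injective f := by
  induction n using Nat.strong_induction_on with
  | _ n ih =>
    intro Q F _ _ _ _ _ _ hn h
    rcases subsingleton_or_nontrivial Q with hs | hnt
    · exact ⟨0, Function.injective_of_subsingleton _⟩
    · obtain ⟨N, hN⟩ := IsSemisimpleModule.exists_simple_submodule A Q
      have : Nontrivial N := IsSimpleModule.nontrivial A N
      -- a nonzero map `N → F`
      have hfin : Finite (N →ₗ[A] F) := DFunLike.finite _
      have hfin2 : Finite (N →ₗ[A] Q) := DFunLike.finite _
      have h1 : 1 < Nat.card (N →ₗ[A] Q) := by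
        rw [Finite.one_lt_card_iff_nontrivial]
        refine ⟨0, N.subtype, fun h0 => ?_⟩
        obtain ⟨x, hx⟩ := exists_ne (0 : N)
        exact hx (Subtype.ext (DFunLike.congr_fun h0 x).symm)
      have h2 : 1 < Nat.card (N →ₗ[A] F) := lt_of_lt_of_le h1 (h N)
      rw [Finite.one_lt_card_iff_nontrivial] at h2
      obtain ⟨j, hj⟩ := exists_ne (0 : N →ₗ[A] F)
      have hjinj : Function.Injective j := LinearMap.injective_of_ne_zero hj
      obtain ⟨Q', hQ'⟩ := exists_isCompl N
      obtain ⟨F', hF'⟩ := exists_isCompl (LinearMap.range j)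
      have eQ := Submodule.prodEquivOfIsCompl N Q' hQ'
      have eF := Submodule.prodEquivOfIsCompl (LinearMap.range j) F' hF'
      have eN := LinearEquiv.ofInjective j hjinj
      have hcard : Nat.card Q' < n := by
        have h3 : Nat.card Q = Nat.card N * Nat.card Q' := by
          rw [← Nat.card_prod]
          exact (Nat.card_congr eQ.toEquiv).symm
        have h4 : 1 < Nat.card N := Finite.one_lt_card
        have h5 : 0 < Nat.card Q' := Nat.card_pos
        rw [← hn, h3]
        nlinarith
      obtain ⟨i, hi⟩ := ih _ hcard Q' F' rfl (by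
        intro M _ _ _
        have hf1 : Finite (M →ₗ[A] N) := DFunLike.finite _
        have h3 := h M
        rw [Sim_card_prod eQ, Sim_card_prod eF, ← Sim_card_congr eN] at h3
        exact Nat.le_of_mul_le_mul_left h3 Nat.card_pos)
      refine ⟨eF.toLinearMap.comp ((LinearMap.prodMap eN.toLinearMap i).comp
        eQ.symm.toLinearMap), ?_⟩
      rw [LinearMap.coe_comp, LinearMap.coe_comp]
      refine eF.injective.comp (Function.Injective.comp ?_ eQ.symm.injective)
      rintro ⟨a, b⟩ ⟨c, d⟩ hab
      simp only [LinearMap.prodMap_apply, Prod.mk.injEq] at hab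
      exact Prod.ext (eN.injective hab.1) (hi hab.2)

/-- The representation given by the action. -/
noncomputable def Sim_rep (G Q : Type) [Group G] [AddCommGroup Q] [DistribMulAction G Q]
    [Module (ZMod 2) Q] : G →* Module.End (ZMod 2) Q where
  toFun g := (DistribSMul.toAddMonoidHom Q g).toZModLinearMap 2
  map_one' := by ext x; simp
  map_mul' g h := by ext x; simp [mul_smul]

/-- The module structure over the group algebra. -/
noncomputable abbrev Sim_mod (G Q : Type) [Group G] [AddCommGroup Q] [DistribMulAction G Q]
    [Module (ZMod 2) Q] : Module (MonoidAlgebra (ZMod 2) G) Q :=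
  Module.compHom Q (MonoidAlgebra.lift (ZMod 2) (Module.End (ZMod 2) Q) G (Sim_rep G Q)).toRingHom

/-- Equivariant maps are the maps which are linear over the group algebra. -/
noncomputable def Sim_equiv {G : Type} [Group G] {M N : Type} [AddCommGroup M]
    [Module (MonoidAlgebra (ZMod 2) G) M] [DistribMulAction G M] [AddCommGroup N]
    [Module (MonoidAlgebra (ZMod 2) G) N] [DistribMulAction G N]
    (hM : ∀ (g : G) (x : M), MonoidAlgebra.of (ZMod 2) G g • x = g • x)
    (hN : ∀ (g : G) (x : N), MonoidAlgebra.of (ZMod 2) G g • x = g • x) :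
    (M →ₗ[MonoidAlgebra (ZMod 2) G] N) ≃ (M →+[G] N) where
  toFun f :=
    { toFun := f
      map_smul' := fun g x => by
        change f (g • x) = g • f x
        rw [← hM, ← hN, map_smul]
      map_zero' := map_zero f
      map_add' := map_add f }
  invFun φ :=
    { toFun := φ
      map_add' := map_add φ
      map_smul' := fun a x => by
        change φ (a • x) = a • φ x
        induction a using MonoidAlgebra.induction_on with
        | of g => rw [hM, hN, map_smul]
        | add a b ha hb => rw [add_smul, add_smul, map_add, ha, hb]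
        | smul r a ha =>
          have hr : r = 0 ∨ r = 1 := by revert r; decide
          rcases hr with rfl | rfl
          · rw [zero_smul, zero_smul, zero_smul, map_zero]
          · rw [one_smul, ha] }
  left_inv f := by ext x; rfl
  right_inv φ := by ext x; rfl

theorem exists_inj {G : Type} [Group G] [Finite G] (hG : Odd (Nat.card G)) (Q F : Type)
    [AddCommGroup Q] [DistribMulAction G Q] [Finite Q] [AddCommGroup F] [DistribMulAction G F]
    [Finite F] (hQ : ∀ x : Q, x + x = 0) (hF : ∀ x : F, x + x = 0)
    (h : ∀ (M : Type) [AddCommGroup M] [DistribMulAction G M] [Finite M], (∀ x : M, x + x = 0) →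
      Nat.card (M →+[G] Q) ≤ Nat.card (M →+[G] F)) :
    ∃ f : Q →+[G] F, Function.Injective f := by
  have hne : NeZero (Nat.card G : ZMod 2) := by
    refine ⟨fun h0 => ?_⟩
    rw [ZMod.natCast_eq_zero_iff] at h0
    obtain ⟨k, hk⟩ := hG
    omega
  let iQ2 : Module (ZMod 2) Q := AddCommGroup.zmodModule (fun x => by rw [two_nsmul]; exact hQ x)
  let iF2 : Module (ZMod 2) F := AddCommGroup.zmodModule (fun x => by rw [two_nsmul]; exact hF x)
  let iQ := Sim_mod G Q
  let iF := Sim_mod G F
  have hQs : ∀ (g : G) (x : Q), MonoidAlgebra.of (ZMod 2) G g • x = g • x := by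
    intro g x
    change (MonoidAlgebra.lift (ZMod 2) (Module.End (ZMod 2) Q) G (Sim_rep G Q))
      (MonoidAlgebra.of (ZMod 2) G g) x = g • x
    rw [MonoidAlgebra.lift_of]
    rfl
  have hFs : ∀ (g : G) (x : F), MonoidAlgebra.of (ZMod 2) G g • x = g • x := by
    intro g x
    change (MonoidAlgebra.lift (ZMod 2) (Module.End (ZMod 2) F) G (Sim_rep G F))
      (MonoidAlgebra.of (ZMod 2) G g) x = g • x
    rw [MonoidAlgebra.lift_of]
    rfl
  obtain ⟨f, hf⟩ := Sim_key (A := MonoidAlgebra (ZMod 2) G) _ Q F rfl (by
    intro M _ _ _
    let iM : DistribMulAction G M := DistribMulAction.compHom M (MonoidAlgebra.of (ZMod 2) G)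
    have hMs : ∀ (g : G) (x : M), MonoidAlgebra.of (ZMod 2) G g • x = g • x := fun _ _ => rfl
    rw [Nat.card_congr (Sim_equiv hMs hQs), Nat.card_congr (Sim_equiv hMs hFs)]
    refine h M fun x => ?_
    have h2 : (2 : MonoidAlgebra (ZMod 2) G) = 0 := by
      have h3 : ((2 : ℕ) : MonoidAlgebra (ZMod 2) G) = algebraMap (ZMod 2) _ ((2 : ℕ) : ZMod 2) := by
        rw [map_natCast]
      have h4 : ((2 : ℕ) : ZMod 2) = 0 := by decide
      rw [h4, map_zero] at h3
      exact_mod_cast h3
    rw [← two_smul (MonoidAlgebra (ZMod 2) G) x, h2, zero_smul])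
  exact ⟨Sim_equiv hQs hFs f, hf⟩

end H24TD
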