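import Mathlib

/-!
Row Un. (about 170 lines): independence of units with negative off diagonal logarithms (any number field).
 u : InfinitePlace K -> units with log (w' (u w)) < 0 for w' <> w. Fix w0. Then the family (u w), w <> w0, has maximal rank: copy the proof of NumberField.Units.dirichletUnitTheorem.unitLattice_span_eq_top (Mathlib/NumberTheory/NumberField/Units/DirichletTheorem.lean lines 318-360): the matrix (mult w' * log (w' (u w))), w, w' <> w0,
 has nonzero determinant by det_ne_zero_of_sum_col_lt_diag (the sum over all w' is zero by sum_logEmbedding_component: the product formula for units). The place w0 in Mathlib is a fixed choice dirichletUnitTheorem.w0; the statement here is for an arbitrary place w0, so either redo the argument with the map x |-> (mult w * log (w x))_(w <> w0)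
 into {w // w <> w0} -> R or deduce it: the vectors L(u w) in R^(all places) (sum zero) for w <> w0 are independent: suppose sum over w <> w0 of c_w L(u w) = 0 with real c, c not 0; let c_m = max |c_w| be attained at w = m, WLOG c_m > 0; the coordinate at m: c_m L_m(u m) = - sum_(w <> m, w0) c_w L_m(u w) ... <= c_m sum_(w <> m, w0) |L_m(u w)|.
   (column sums: the matrix entry (place m, unit w): for fixed UNIT the sum over places is zero, so use the transposed argument: det_ne_zero_of_sum_col_lt_diag as in Mathlib is the clean way.)
 (a) if prod over w <> w0 of (u w)^(c w) has finite order then all c w = 0 (w <> w0): take logs.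
 (b) the subgroup generated by the u w, w <> w0, has finite index: NumberField.Units.isMaxRank_iff_closure_finiteIndex after reindexing {w // w <> w0} with Fin (rank K) (Units.rank = card places - 1) if w0 is Mathlib's; for general w0: the closure H of the family is a free group of rank r = rank K by (a), and the quotient of the
   finitely generated group of units by H has rank zero: Module.finrank additive (Submodule.finrank_quotient_add_finrank over Z for Additive (units), finrank of Additive units = rank K because torsion is finite: finrank_modTorsion), a finitely generated abelian group of rank zero is finite.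
   Alternatively: H is mapped by logEmbedding (w.r.t. Mathlib's place) onto the span of r independent vectors: IsMaxRank can be checked since the r vectors L(u w) are independent in the sum zero hyperplane, and dropping the Mathlib coordinate is injective on the hyperplane.
-/

set_option autoImplicit false
open scoped Classical

open NumberField NumberField.Units

namespace H24TD

theorem units_indep (K : Type) [Field K] [NumberField K] (w₀ : InfinitePlace K)
    (u : InfinitePlace K → (𝓞 K)ˣ)
    (hu : ∀ w w' : InfinitePlace K, w' ≠ w → Real.log (w' ((u w : 𝓞 K) : K)) < 0) :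
    (∀ c : InfinitePlace K → ℤ, c w₀ = 0 → IsOfFinOrder (∏ w, (u w) ^ (c w)) → c = 0) ∧
      (Subgroup.closure {x | ∃ w, w ≠ w₀ ∧ x = u w}).FiniteIndex := by
  obtain ⟨e⟩ : Nonempty ({w : InfinitePlace K // w ≠ w₀} ≃ Fin (rank K)) := by
    refine ⟨Fintype.equivOfCardEq ?_⟩
    rw [Fintype.card_subtype_compl, Fintype.card_subtype_eq, Fintype.card_fin, rank]
  obtain ⟨v, hv⟩ : ∃ v : Fin (rank K) → (𝓞 K)ˣ, ∀ i, v i = u (e.symm i).val := ⟨_, fun _ => rfl⟩
  have hmax : IsMaxRank v := by
    rw [← regOfFamily_ne_zero_iff, regOfFamily_eq_det v w₀ e, Ne, abs_eq_zero]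
    apply det_ne_zero_of_sum_row_lt_diag
    intro i
    have hmp : ∀ w : InfinitePlace K, (0 : ℝ) < w.mult := fun w => by
      exact_mod_cast w.mult_pos
    have hneg : ∀ w : InfinitePlace K, w ≠ i.val →
        (w.mult : ℝ) * Real.log (w ((v (e i) : 𝓞 K) : K)) < 0 := by
      intro w hw
      rw [hv, e.symm_apply_apply]
      exact mul_neg_of_pos_of_neg (hmp w) (hu _ _ hw)
    have hs := sum_mult_mul_log (v (e i))
    rw [Fintype.sum_eq_add_sum_subtype_ne _ w₀, ← Finset.add_sum_erase _ _ (Finset.mem_univ i)] at hs
    have h0 := hneg w₀ i.2.symm
    simp only [Matrix.of_apply, Real.norm_eq_abs]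
    have h1 : ∑ j ∈ Finset.univ.erase i, |(j.val.mult : ℝ) *
        Real.log (j.val ((v (e i) : 𝓞 K) : K))| =
        ∑ j ∈ Finset.univ.erase i, -((j.val.mult : ℝ) *
        Real.log (j.val ((v (e i) : 𝓞 K) : K))) := by
      apply Finset.sum_congr rfl
      intro j hj
      apply abs_of_neg
      apply hneg
      intro h
      exact (Finset.mem_erase.1 hj).1 (Subtype.ext h)
    rw [h1, Finset.sum_neg_distrib]
    refine lt_of_lt_of_le ?_ (le_abs_self _)
    linarith
  constructor
  · intro c hc0 hfin
    have h1 : logEmbedding K (Additive.ofMul (∏ w, (u w) ^ (c w))) = 0 := by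
      rw [dirichletUnitTheorem.logEmbedding_eq_zero_iff]
      exact hfin
    rw [ofMul_prod, map_sum, Fintype.sum_eq_add_sum_subtype_ne _ w₀, hc0] at h1
    have h2 := Fintype.linearIndependent_iff.1 hmax (fun i => ((c (e.symm i).val : ℤ) : ℝ)) (by
      rw [← Equiv.sum_comp e]
      rw [zpow_zero, ofMul_one, map_zero, zero_add] at h1
      rw [← h1]
      apply Finset.sum_congr rfl
      intro w _
      rw [e.symm_apply_apply, hv, e.symm_apply_apply, ofMul_zpow, map_zsmul, Int.cast_smul_eq_zsmul])
    funext w
    by_cases hw : w = w₀
    · rw [hw, hc0]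
      rfl
    · have h3 := h2 (e ⟨w, hw⟩)
      simp only [Equiv.symm_apply_apply, Int.cast_eq_zero] at h3
      exact h3
  · have h1 : {x | ∃ w, w ≠ w₀ ∧ x = u w} = Set.range v := by
      ext x
      constructor
      · rintro ⟨w, hw, rfl⟩
        exact ⟨e ⟨w, hw⟩, by rw [hv, e.symm_apply_apply]⟩
      · rintro ⟨i, rfl⟩
        exact ⟨(e.symm i).val, (e.symm i).2, hv i⟩
    rw [h1]
    exact isMaxRank_iff_closure_finiteIndex.1 hmax

end H24TD
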