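import Mathlib

/-!
Row Ya. (about 130 lines): R = 𝓞 K / 4. Statement: the number of units x of R with x^2 = 1 is 2^n, n = [K:Q]. Elements: x = class of a in 𝓞 K; x^2 = 1 iff a^2 - 1 in 4 𝓞 K iff a - 1 in 2 𝓞 K:
 (if) a = 1 + 2 t: a^2 - 1 = 4 (t + t^2). (only if) suppose 4 | (a - 1)(a + 1) and put b = (a-1)/2 in K: b^2 + b = (a^2 - 1)/4 in 𝓞 K, so b is integral over 𝓞 K, b in 𝓞 K (integrally closed). So the solutions are the classes 1 + 2 t, t in 𝓞 K modulo 2 𝓞 K (1 + 2t = 1 + 2t' mod 4 iff t = t' mod 2), each a unit (x^2 = 1).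
 card (𝓞 K / 2) = 2^n: Ideal.absNorm (span {2}) = |Algebra.norm Z 2| = 2^n (Algebra.norm_algebraMap / norm of an integer, finrank Z (𝓞 K) = finrank Q K: RingOfIntegers.rank).
 Consequence (second statement): for a finite commutative group A the subgroup of squares has index #{x : x^2 = 1} (first isomorphism theorem for x |-> x^2), so the group of units of R has exactly 2^n classes modulo squares.
-/

set_option autoImplicit false
open scoped Classical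

open NumberField

namespace H24TD

private lemma Ya_two (K : Type) [Field K] [NumberField K] (a : 𝓞 K)
    (h : (4 : 𝓞 K) ∣ a ^ 2 - 1) : (2 : 𝓞 K) ∣ a - 1 := by
  obtain ⟨c, hc⟩ := h
  have hc' : ((a : K)) ^ 2 - 1 = 4 * (c : K) := by
    have := congrArg (algebraMap (𝓞 K) K) hc
    rw [map_sub, map_pow, map_one, map_mul, map_ofNat] at this
    exact this
  have hint : IsIntegral (𝓞 K) (((a : K) - 1) / 2) := by
    refine ⟨Polynomial.X ^ 2 + Polynomial.X - Polynomial.C c, ?_, ?_⟩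
    · monicity!
    · rw [Polynomial.eval₂_sub, Polynomial.eval₂_add, Polynomial.eval₂_pow, Polynomial.eval₂_X,
        Polynomial.eval₂_C]
      change (((a : K) - 1) / 2) ^ 2 + ((a : K) - 1) / 2 - (c : K) = 0
      have h4 : (4 : K) ≠ 0 := by norm_num
      have : 4 * ((((a : K) - 1) / 2) ^ 2 + ((a : K) - 1) / 2 - (c : K)) = 0 := by
        have h5 : 4 * ((((a : K) - 1) / 2) ^ 2 + ((a : K) - 1) / 2 - (c : K)) =
          (a : K) ^ 2 - 1 - 4 * (c : K) := by ring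
        rw [h5, hc', sub_self]
      exact (mul_eq_zero.1 this).resolve_left h4
  obtain ⟨b, hb⟩ := (IsIntegrallyClosed.isIntegral_iff (R := 𝓞 K) (K := K)).1 hint
  refine ⟨b, ?_⟩
  apply RingOfIntegers.coe_injective
  rw [map_sub, map_one, map_mul, map_ofNat, hb]
  ring

private lemma Ya_card (K : Type) [Field K] [NumberField K] :
    Nat.card (𝓞 K ⧸ (Ideal.span {(2 : 𝓞 K)})) = 2 ^ Module.finrank ℚ K := by
  have h1 := Ideal.absNorm_span_singleton (S := 𝓞 K) 2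
  rw [Ideal.absNorm_apply, Submodule.cardQuot_apply] at h1
  rw [h1]
  have h2 : (2 : 𝓞 K) = algebraMap ℤ (𝓞 K) 2 := by simp
  rw [h2, Algebra.norm_algebraMap, RingOfIntegers.rank, Int.natAbs_pow]
  rfl

private lemma Ya_mul (K : Type) [Field K] [NumberField K] (t : 𝓞 K) :
    (Ideal.Quotient.mk (Ideal.span {(4 : 𝓞 K)}) (1 + 2 * t)) *
      (Ideal.Quotient.mk (Ideal.span {(4 : 𝓞 K)}) (1 + 2 * t)) = 1 := by
  rw [← map_mul, ← map_one (Ideal.Quotient.mk (Ideal.span {(4 : 𝓞 K)})), Ideal.Quotient.eq,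
    Ideal.mem_span_singleton]
  exact ⟨t + t ^ 2, by ring⟩

theorem card_sq_one (K : Type) [Field K] [NumberField K] :
    Nat.card {x : (𝓞 K ⧸ (Ideal.span {(4 : 𝓞 K)}))ˣ // x ^ 2 = 1} = 2 ^ Module.finrank ℚ K := by
  rw [← Ya_card K]
  symm
  have h2 : (2 : 𝓞 K) ≠ 0 := by norm_num
  let f : (𝓞 K ⧸ (Ideal.span {(2 : 𝓞 K)})) →
      {x : (𝓞 K ⧸ (Ideal.span {(4 : 𝓞 K)}))ˣ // x ^ 2 = 1} := fun q =>
    ⟨⟨Ideal.Quotient.mk _ (1 + 2 * Quotient.out q), Ideal.Quotient.mk _ (1 + 2 * Quotient.out q),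
      Ya_mul K _, Ya_mul K _⟩, by
        apply Units.ext
        rw [Units.val_pow_eq_pow_val, sq]
        exact Ya_mul K _⟩
  have hout : ∀ q : 𝓞 K ⧸ (Ideal.span {(2 : 𝓞 K)}), Ideal.Quotient.mk _ (Quotient.out q) = q :=
    fun q => Quotient.out_eq q
  refine Nat.card_congr (Equiv.ofBijective f ⟨?_, ?_⟩)
  · intro q q' h
    have h1 : Ideal.Quotient.mk (Ideal.span {(4 : 𝓞 K)}) (1 + 2 * Quotient.out q) =
        Ideal.Quotient.mk (Ideal.span {(4 : 𝓞 K)}) (1 + 2 * Quotient.out q') :=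
      congrArg (fun x => (x.1 : 𝓞 K ⧸ (Ideal.span {(4 : 𝓞 K)}))) h
    rw [Ideal.Quotient.eq, Ideal.mem_span_singleton] at h1
    obtain ⟨c, hc⟩ := h1
    rw [← hout q, ← hout q', Ideal.Quotient.eq, Ideal.mem_span_singleton]
    refine ⟨c, ?_⟩
    apply mul_left_cancel₀ h2
    linear_combination hc
  · rintro ⟨x, hx⟩
    obtain ⟨a, ha⟩ := Ideal.Quotient.mk_surjective (x : 𝓞 K ⧸ (Ideal.span {(4 : 𝓞 K)}))
    have h1 : (4 : 𝓞 K) ∣ a ^ 2 - 1 := by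
      have h3 := congrArg (fun x : (𝓞 K ⧸ (Ideal.span {(4 : 𝓞 K)}))ˣ =>
        (x : 𝓞 K ⧸ (Ideal.span {(4 : 𝓞 K)}))) hx
      rw [← Ideal.mem_span_singleton, ← Ideal.Quotient.eq, map_pow, map_one, ha]
      exact h3
    obtain ⟨t, ht⟩ := Ya_two K a h1
    refine ⟨Ideal.Quotient.mk _ t, ?_⟩
    apply Subtype.ext
    apply Units.ext
    change Ideal.Quotient.mk (Ideal.span {(4 : 𝓞 K)})
      (1 + 2 * Quotient.out (Ideal.Quotient.mk (Ideal.span {(2 : 𝓞 K)}) t)) = x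
    rw [← ha, Ideal.Quotient.eq, Ideal.mem_span_singleton]
    have h3 := hout (Ideal.Quotient.mk (Ideal.span {(2 : 𝓞 K)}) t)
    rw [Ideal.Quotient.eq, Ideal.mem_span_singleton] at h3
    obtain ⟨c, hc⟩ := h3
    exact ⟨c, by linear_combination 2 * hc - ht⟩

theorem index_sq (K : Type) [Field K] [NumberField K] :
    (powMonoidHom 2 : (𝓞 K ⧸ (Ideal.span {(4 : 𝓞 K)}))ˣ →*
      (𝓞 K ⧸ (Ideal.span {(4 : 𝓞 K)}))ˣ).range.index = 2 ^ Module.finrank ℚ K := by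
  rw [← card_sq_one K]
  have hne : Ideal.span {(4 : 𝓞 K)} ≠ ⊥ := by
    rw [Ne, Ideal.span_singleton_eq_bot]
    norm_num
  have hfin : Finite (𝓞 K ⧸ (Ideal.span {(4 : 𝓞 K)})) :=
    Ideal.finiteQuotientOfFreeOfNeBot _ hne
  have h1 := Subgroup.index_ker (powMonoidHom 2 : (𝓞 K ⧸ (Ideal.span {(4 : 𝓞 K)}))ˣ →*
      (𝓞 K ⧸ (Ideal.span {(4 : 𝓞 K)}))ˣ)
  have h2 := Subgroup.index_mul_card (powMonoidHom 2 : (𝓞 K ⧸ (Ideal.span {(4 : 𝓞 K)}))ˣ →*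
      (𝓞 K ⧸ (Ideal.span {(4 : 𝓞 K)}))ˣ).ker
  have h3 := Subgroup.index_mul_card (powMonoidHom 2 : (𝓞 K ⧸ (Ideal.span {(4 : 𝓞 K)}))ˣ →*
      (𝓞 K ⧸ (Ideal.span {(4 : 𝓞 K)}))ˣ).range
  have h4 : Nat.card (powMonoidHom 2 : (𝓞 K ⧸ (Ideal.span {(4 : 𝓞 K)}))ˣ →*
      (𝓞 K ⧸ (Ideal.span {(4 : 𝓞 K)}))ˣ).ker =
      Nat.card {x : (𝓞 K ⧸ (Ideal.span {(4 : 𝓞 K)}))ˣ // x ^ 2 = 1} := by
    refine Nat.card_congr (Equiv.subtypeEquivRight fun x => ?_)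
    rw [MonoidHom.mem_ker, powMonoidHom_apply]
  have h5 : 0 < Nat.card (powMonoidHom 2 : (𝓞 K ⧸ (Ideal.span {(4 : 𝓞 K)}))ˣ →*
      (𝓞 K ⧸ (Ideal.span {(4 : 𝓞 K)}))ˣ).range := Nat.card_pos
  rw [← h4]
  rw [h1, ← h3, mul_comm] at h2
  exact (Nat.eq_of_mul_eq_mul_right h5 h2).symm

end H24TD
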